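import Pool.Agent.H50.IT.Defs

/-!
# The sharp threshold: the parameter `eT` and the primitive
-/

set_option autoImplicit false

open Complex Set Filter Topology
open Pool.Agent.H51.Becker

namespace Pool.Agent.H50.IT

open Pool.Agent.H50.IS (y K T1 T2)
open Pool.Agent.H50.IV (L phi)

private lemma h51_norm_rI (x : ℝ) : ‖(x : ℂ) * I‖ = |x| := by
  rw [norm_mul, norm_I, mul_one, Complex.norm_real, Real.norm_eq_abs]

private lemma h51_exp (x : ℝ) (hx : |x| ≤ 1) :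
    ‖exp ((x : ℂ) * I) - 1 - (x : ℂ) * I‖ ≤ x ^ 2 := by
  have h := Complex.norm_exp_sub_one_sub_id_le (x := (x : ℂ) * I) (by rw [h51_norm_rI]; exact hx)
  rwa [h51_norm_rI, sq_abs] at h

private lemma h51_T1 (a : ℝ) : exp (T1 a) = -exp (((-(3 * a) : ℝ) : ℂ) * I) := by
  have h : T1 a = (Real.pi : ℂ) * I + ((-(3 * a) : ℝ) : ℂ) * I := by
    rw [Pool.Agent.H50.IS.T1]
    push_cast
    ring
  rw [h, Complex.exp_add, Complex.exp_pi_mul_I]
  ring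

private lemma h51_T2 (a : ℝ) : exp (T2 a) = -exp ((a : ℂ) * I) := by
  have h : T2 a = (a : ℂ) * I - (Real.pi : ℂ) * I := by
    rw [Pool.Agent.H50.IS.T2]
    push_cast
    ring
  rw [h, Complex.exp_sub, Complex.exp_pi_mul_I]
  ring

private lemma h51_E1 {a : ℝ} (ha : 0 < a) (ha' : a ≤ 1 / 50) :
    ‖exp (T1 a) + 1 - 3 * (a : ℂ) * I‖ ≤ 9 * a ^ 2 := by
  have h := h51_exp (-(3 * a)) (by rw [abs_neg, abs_of_pos (by linarith)]; linarith)
  have e : exp (T1 a) + 1 - 3 * (a : ℂ) * I =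
      -(exp (((-(3 * a) : ℝ) : ℂ) * I) - 1 - ((-(3 * a) : ℝ) : ℂ) * I) := by
    rw [h51_T1]
    push_cast
    ring
  rw [e, norm_neg]
  linarith

private lemma h51_E2 {a : ℝ} (ha : 0 < a) (ha' : a ≤ 1 / 50) :
    ‖exp (T2 a) + 1 + (a : ℂ) * I‖ ≤ a ^ 2 := by
  have h := h51_exp a (by rw [abs_of_pos ha]; linarith)
  have e : exp (T2 a) + 1 + (a : ℂ) * I = -(exp ((a : ℂ) * I) - 1 - (a : ℂ) * I) := by
    rw [h51_T2]
    ring
  rw [e, norm_neg]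
  exact h

/-- the parameter `eT` -/
theorem eT_est : ∃ K₀ : ℝ, 0 < K₀ ∧ ∃ s₀ > 0, ∀ a s : ℝ, 0 < a → a ≤ s → s ≤ s₀ →
    JJ a s (T1 a) - JJ a s (T2 a) ≠ 0 ∧
    ‖eT a s - ((2 * s + 2 * a / Real.pi : ℝ) : ℂ)‖ ≤ K₀ * s ^ 2 := by
  refine ⟨600, by norm_num, 1 / 50, by norm_num, fun a s ha has hs => ?_⟩
  have ha' : a ≤ 1 / 50 := has.trans hs
  have hs0 : 0 < s := ha.trans_le has
  have hpi3 := Real.pi_gt_three
  have hpi4 := Real.pi_lt_four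
  have h1 := h51_E1 ha ha'
  have h2 := h51_E2 ha ha'
  set t1 := T1 a with ht1
  set t2 := T2 a with ht2
  set E1 := exp t1 with hE1
  set E2 := exp t2 with hE2
  have hI : ‖(a : ℂ) * I‖ = a := by rw [h51_norm_rI, abs_of_pos ha]
  have hE1' : ‖E1 + 1‖ ≤ 4 * a := by
    have e : E1 + 1 = (E1 + 1 - 3 * (a : ℂ) * I) + 3 * ((a : ℂ) * I) := by ring
    rw [e]
    refine (norm_add_le _ _).trans ?_
    rw [norm_mul, hI]
    have : ‖(3 : ℂ)‖ = 3 := by norm_num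
    rw [this]
    nlinarith
  have hE2' : ‖E2 + 1‖ ≤ 2 * a := by
    have e : E2 + 1 = (E2 + 1 + (a : ℂ) * I) - (a : ℂ) * I := by ring
    rw [e]
    refine (norm_sub_le _ _).trans ?_
    rw [hI]
    nlinarith
  have hn1 : ‖t1‖ ≤ 4 := by
    rw [ht1, Pool.Agent.H50.IS.T1, h51_norm_rI, abs_of_pos (by linarith)]
    linarith
  have hn2 : ‖t2‖ ≤ 4 := by
    rw [ht2, Pool.Agent.H50.IS.T2, h51_norm_rI, abs_neg, abs_of_pos (by linarith)]
    linarith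
  have hd : t1 - t2 = 2 * (Real.pi : ℂ) * I - 4 * (a : ℂ) * I := by
    rw [ht1, ht2, Pool.Agent.H50.IS.T1, Pool.Agent.H50.IS.T2]
    push_cast
    ring
  have hc : ‖Lam t2‖ ≤ 5 := by
    rw [ht2, Pool.Agent.H50.IS.T2]
    refine Pool.Agent.H50.IS.norm_Lam_mul_I ?_
    rw [abs_neg, abs_of_pos (by linarith)]
    linarith
  have hE12 : ‖E1 - E2‖ ≤ 6 * a := by
    have e : E1 - E2 = (E1 + 1) - (E2 + 1) := by ring
    rw [e]
    refine (norm_sub_le _ _).trans ?_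
    linarith
  have hu1 : ‖E1‖ = 1 := by
    rw [hE1, ht1, Pool.Agent.H50.IS.T1]
    exact Complex.norm_exp_ofReal_mul_I _
  have hu2 : ‖E2‖ = 1 := by
    rw [hE2, ht2, Pool.Agent.H50.IS.T2]
    exact Complex.norm_exp_ofReal_mul_I _
  -- the numerator
  set X : ℂ := (t1 - 1) * (E1 + 1) - (t2 - 1) * (E2 + 1) + 4 * ((a : ℂ) * I) +
    (E1 - E2) * ((E1 + E2) / 2) - Lam t2 * (E1 - E2) with hX
  have hXn : ‖X‖ ≤ 74 * a := by
    have b1 : ‖(t1 - 1) * (E1 + 1)‖ ≤ 20 * a := by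
      rw [norm_mul]
      have : ‖t1 - 1‖ ≤ 5 := (norm_sub_le _ _).trans (by rw [norm_one]; linarith)
      calc ‖t1 - 1‖ * ‖E1 + 1‖ ≤ 5 * (4 * a) := by gcongr
        _ = 20 * a := by ring
    have b2 : ‖(t2 - 1) * (E2 + 1)‖ ≤ 10 * a := by
      rw [norm_mul]
      have : ‖t2 - 1‖ ≤ 5 := (norm_sub_le _ _).trans (by rw [norm_one]; linarith)
      calc ‖t2 - 1‖ * ‖E2 + 1‖ ≤ 5 * (2 * a) := by gcongr
        _ = 10 * a := by ring
    have b3 : ‖4 * ((a : ℂ) * I)‖ = 4 * a := by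
      rw [norm_mul, hI]
      norm_num
    have b4 : ‖(E1 - E2) * ((E1 + E2) / 2)‖ ≤ 6 * a := by
      rw [norm_mul, norm_div]
      have : ‖E1 + E2‖ ≤ 2 := (norm_add_le _ _).trans (by rw [hu1, hu2]; norm_num)
      have h2' : ‖(2 : ℂ)‖ = 2 := by norm_num
      rw [h2']
      calc ‖E1 - E2‖ * (‖E1 + E2‖ / 2) ≤ (6 * a) * (2 / 2) := by gcongr
        _ = 6 * a := by ring
    have b5 : ‖Lam t2 * (E1 - E2)‖ ≤ 30 * a := by
      rw [norm_mul]
      calc ‖Lam t2‖ * ‖E1 - E2‖ ≤ 5 * (6 * a) := by gcongr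
        _ = 30 * a := by ring
    rw [hX]
    have c1 := norm_sub_le ((t1 - 1) * (E1 + 1) - (t2 - 1) * (E2 + 1) + 4 * ((a : ℂ) * I) +
      (E1 - E2) * ((E1 + E2) / 2)) (Lam t2 * (E1 - E2))
    have c2 := norm_add_le ((t1 - 1) * (E1 + 1) - (t2 - 1) * (E2 + 1) + 4 * ((a : ℂ) * I))
      ((E1 - E2) * ((E1 + E2) / 2))
    have c3 := norm_add_le ((t1 - 1) * (E1 + 1) - (t2 - 1) * (E2 + 1)) (4 * ((a : ℂ) * I))
    have c4 := norm_sub_le ((t1 - 1) * (E1 + 1)) ((t2 - 1) * (E2 + 1))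
    linarith
  have hF : FF a s t1 - FF a s t2 = 4 * ((a : ℂ) * I) + 4 * (Real.pi : ℂ) * I * (s : ℂ) +
      ((E1 + 1 - 3 * (a : ℂ) * I) - (E2 + 1 + (a : ℂ) * I) - 2 * (s : ℂ) * X) := by
    have hd' : t1 = t2 + (2 * (Real.pi : ℂ) * I - 4 * (a : ℂ) * I) := by rw [← hd]; ring
    rw [FF, FF, hX, ← ht2, ← hE1, ← hE2, hd']
    ring
  -- the denominator
  set Z : ℂ := (t1 ^ 2 - t2 ^ 2) / 2 + (E1 - E2) - Lam t2 * (t1 - t2) with hZ
  have hZn : ‖Z‖ ≤ 60 := by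
    have b1 : ‖(t1 ^ 2 - t2 ^ 2) / 2‖ ≤ 16 := by
      rw [norm_div]
      have h2' : ‖(2 : ℂ)‖ = 2 := by norm_num
      rw [h2']
      have := norm_sub_le (t1 ^ 2) (t2 ^ 2)
      rw [norm_pow, norm_pow] at this
      have e1 : ‖t1‖ ^ 2 ≤ 4 ^ 2 := by gcongr
      have e2 : ‖t2‖ ^ 2 ≤ 4 ^ 2 := by gcongr
      linarith
    have b2 : ‖Lam t2 * (t1 - t2)‖ ≤ 40 := by
      rw [norm_mul]
      have : ‖t1 - t2‖ ≤ 8 := (norm_sub_le _ _).trans (by linarith)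
      calc ‖Lam t2‖ * ‖t1 - t2‖ ≤ 5 * 8 := by gcongr
        _ = 40 := by norm_num
    rw [hZ]
    have c1 := norm_sub_le ((t1 ^ 2 - t2 ^ 2) / 2 + (E1 - E2)) (Lam t2 * (t1 - t2))
    have c2 := norm_add_le ((t1 ^ 2 - t2 ^ 2) / 2) (E1 - E2)
    linarith
  have hJ : JJ a s t1 - JJ a s t2 = 2 * ((Real.pi : ℂ) * I) +
      (-(4 * ((a : ℂ) * I)) - 2 * (s : ℂ) * Z) := by
    have e : JJ a s t1 - JJ a s t2 = (t1 - t2) - 2 * (s : ℂ) * Z := by
      rw [JJ, JJ, hZ, ← ht2, ← hE1, ← hE2]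
      ring
    rw [e, hd]
    ring
  have h4 : ‖4 * ((a : ℂ) * I)‖ = 4 * a := by
    rw [norm_mul, hI]
    norm_num
  have hs' : ‖(s : ℂ)‖ = s := by rw [Complex.norm_real, Real.norm_eq_abs, abs_of_pos hs0]
  have h2s : ∀ w : ℂ, ‖2 * (s : ℂ) * w‖ = 2 * s * ‖w‖ := by
    intro w
    rw [norm_mul, norm_mul, hs']
    norm_num
  have hR : ‖-(4 * ((a : ℂ) * I)) - 2 * (s : ℂ) * Z‖ ≤ 124 * s := by
    refine (norm_sub_le _ _).trans ?_
    rw [norm_neg, h4, h2s]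
    have : 2 * s * ‖Z‖ ≤ 2 * s * 60 := by gcongr
    linarith
  have hpiI : ‖2 * ((Real.pi : ℂ) * I)‖ = 2 * Real.pi := by
    rw [norm_mul, h51_norm_rI, abs_of_pos Real.pi_pos]
    norm_num
  have hJn : 1 ≤ ‖JJ a s t1 - JJ a s t2‖ := by
    rw [hJ]
    have := norm_sub_le_norm_add (2 * ((Real.pi : ℂ) * I)) (-(4 * ((a : ℂ) * I)) - 2 * (s : ℂ) * Z)
    linarith
  have hJ0 : JJ a s t1 - JJ a s t2 ≠ 0 := by
    intro h
    rw [h, norm_zero] at hJn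
    linarith
  refine ⟨hJ0, ?_⟩
  have hm0 : 0 ≤ 2 * s + 2 * a / Real.pi := by positivity
  have hm : 2 * s + 2 * a / Real.pi ≤ 3 * s := by
    have : 2 * a / Real.pi ≤ s := by
      rw [div_le_iff₀ Real.pi_pos]
      nlinarith
    linarith
  have key : ‖(FF a s t1 - FF a s t2) - ((2 * s + 2 * a / Real.pi : ℝ) : ℂ) *
      (JJ a s t1 - JJ a s t2)‖ ≤ 600 * s ^ 2 := by
    have hpic : (Real.pi : ℂ) ≠ 0 := by exact_mod_cast Real.pi_ne_zero
    have e : (FF a s t1 - FF a s t2) - ((2 * s + 2 * a / Real.pi : ℝ) : ℂ) *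
        (JJ a s t1 - JJ a s t2) =
        ((E1 + 1 - 3 * (a : ℂ) * I) - (E2 + 1 + (a : ℂ) * I) - 2 * (s : ℂ) * X) -
        ((2 * s + 2 * a / Real.pi : ℝ) : ℂ) * (-(4 * ((a : ℂ) * I)) - 2 * (s : ℂ) * Z) := by
      rw [hF, hJ]
      push_cast
      field_simp
      ring
    rw [e]
    have n1 : ‖((2 * s + 2 * a / Real.pi : ℝ) : ℂ) * (-(4 * ((a : ℂ) * I)) - 2 * (s : ℂ) * Z)‖ ≤
        372 * s ^ 2 := by
      rw [norm_mul, Complex.norm_real, Real.norm_eq_abs, abs_of_nonneg hm0]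
      calc (2 * s + 2 * a / Real.pi) * ‖-(4 * ((a : ℂ) * I)) - 2 * (s : ℂ) * Z‖ ≤
          (3 * s) * (124 * s) := by gcongr
        _ = 372 * s ^ 2 := by ring
    have n2 : ‖(E1 + 1 - 3 * (a : ℂ) * I) - (E2 + 1 + (a : ℂ) * I) - 2 * (s : ℂ) * X‖ ≤
        158 * s ^ 2 := by
      have c1 := norm_sub_le ((E1 + 1 - 3 * (a : ℂ) * I) - (E2 + 1 + (a : ℂ) * I))
        (2 * (s : ℂ) * X)
      have c2 := norm_sub_le (E1 + 1 - 3 * (a : ℂ) * I) (E2 + 1 + (a : ℂ) * I)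
      rw [h2s] at c1
      have c3 : 2 * s * ‖X‖ ≤ 2 * s * (74 * a) := by gcongr
      have c4 : s * a ≤ s * s := by gcongr
      have c5 : a ^ 2 ≤ s ^ 2 := by gcongr
      nlinarith
    refine (norm_sub_le _ _).trans ?_
    nlinarith [sq_nonneg s]
  have hdiv : eT a s - ((2 * s + 2 * a / Real.pi : ℝ) : ℂ) =
      ((FF a s t1 - FF a s t2) - ((2 * s + 2 * a / Real.pi : ℝ) : ℂ) *
        (JJ a s t1 - JJ a s t2)) / (JJ a s t1 - JJ a s t2) := by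
    rw [sub_div, mul_div_cancel_right₀ _ hJ0, eT]
  rw [hdiv, norm_div, div_le_iff₀ (by linarith)]
  refine key.trans ?_
  have : 0 ≤ 600 * s ^ 2 := by positivity
  nlinarith

/-- the primitive -/
theorem hasDerivAt_prim {a s : ℝ} {e z : ℂ} (ha : 0 < a) (ha' : a ≤ 1 / 50) (he : ‖e‖ ≤ 1 / 50)
    (hz : 0 ≤ z.re) :
    HasDerivAt (fun z => FF a s (inv (z + Lam (T2 a))) - e * JJ a s (inv (z + Lam (T2 a))))
      (exp (L e (inv (z + Lam (T2 a)))) * (1 - 2 * (s : ℂ) * z)) z := by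
  have hcos : Real.cos a < 1 := by
    have h1 : Real.cos a < Real.cos 0 := Real.cos_lt_cos_of_nonneg_of_le_pi_div_two le_rfl
      (by have := Real.pi_gt_three; linarith) ha
    rwa [Real.cos_zero] at h1
  have hP : -1 < (z + Lam (T2 a)).re := by
    rw [add_re, Pool.Agent.H50.IS.Lam_T2_re]
    linarith
  have hL : Lam (inv (z + Lam (T2 a))) = z + Lam (T2 a) := Lam_inv hP
  have hre : -1 < (Lam (inv (z + Lam (T2 a)))).re := by rw [hL]; exact hP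
  rw [Pool.Agent.H50.IV.exp_L (he.trans (by norm_num)) (inv_mem hP) hre]
  have h3 := one_add_exp_ne_zero (inv_mem hP)
  have d0 : HasDerivAt (fun z : ℂ => inv (z + Lam (T2 a)))
      (1 / (1 + exp (inv (z + Lam (T2 a))))) z := by
    have h := (hasDerivAt_inv hP).comp z ((hasDerivAt_id z).add_const (Lam (T2 a)))
    have h' : HasDerivAt (fun z : ℂ => inv (z + Lam (T2 a)))
      ((1 + exp (inv (z + Lam (T2 a))))⁻¹ * 1) z := h
    rwa [mul_one, ← one_div] at h'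
  have dE := d0.cexp
  have dF : HasDerivAt (fun z => FF a s (inv (z + Lam (T2 a))))
      (exp (inv (z + Lam (T2 a))) * (1 / (1 + exp (inv (z + Lam (T2 a))))) *
        (1 - 2 * (s : ℂ) * z)) z := by
    have h := dE.sub (((((d0.sub_const 1).mul dE).add ((dE.pow 2).div_const 2)).sub
      (dE.const_mul (Lam (T2 a)))).const_mul (2 * (s : ℂ)))
    refine h.congr_deriv ?_
    have hz' : z = Lam (inv (z + Lam (T2 a))) - Lam (T2 a) := by rw [hL]; ring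
    rw [show (1 - 2 * (s : ℂ) * z) = 1 - 2 * (s : ℂ) * (Lam (inv (z + Lam (T2 a))) - Lam (T2 a)) by
      rw [← hz']]
    rw [show Lam (inv (z + Lam (T2 a))) = inv (z + Lam (T2 a)) + exp (inv (z + Lam (T2 a))) from rfl]
    push_cast
    ring
  have dJ : HasDerivAt (fun z => JJ a s (inv (z + Lam (T2 a))))
      ((1 / (1 + exp (inv (z + Lam (T2 a))))) * (1 - 2 * (s : ℂ) * z)) z := by
    have h := d0.sub (((((d0.pow 2).div_const 2).add dE).sub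
      (d0.const_mul (Lam (T2 a)))).const_mul (2 * (s : ℂ)))
    refine h.congr_deriv ?_
    have hz' : z = Lam (inv (z + Lam (T2 a))) - Lam (T2 a) := by rw [hL]; ring
    rw [show (1 - 2 * (s : ℂ) * z) = 1 - 2 * (s : ℂ) * (Lam (inv (z + Lam (T2 a))) - Lam (T2 a)) by
      rw [← hz']]
    rw [show Lam (inv (z + Lam (T2 a))) = inv (z + Lam (T2 a)) + exp (inv (z + Lam (T2 a))) from rfl]
    push_cast
    ring
  refine (dF.sub (dJ.const_mul e)).congr_deriv ?_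
  field_simp

end Pool.Agent.H50.IT
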