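import Pool.Agent.H50.IT.Defs
import Pool.Agent.H50.IS.FoldA

/-!
# The sharp norm of the fold with the linear term
-/

open Complex Set Filter Topology
open Pool.Agent.H51.Becker

namespace Pool.Agent.H50.IT

open Pool.Agent.H50.IS (y K T1 T2)
open Pool.Agent.H50.IV (L phi)

lemma core_third {K₀ s x D d₁ η μ : ℝ} (hK : 0 < K₀) (hs : 0 < s) (hx : 0 ≤ x) (hD : 0 ≤ D)
    (hη : 0 < η) (hxD : 2 * x ≤ D ^ 2) (h1 : 80 * K₀ * d₁ ^ 3 ≤ μ ^ 2)
    (h2 : 160 * K₀ * s ≤ η * d₁) :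
    x * (10 * K₀ * s ^ 2 * D) ≤ (μ * s) ^ 2 / 16 + η / 16 * s * (x * D ^ 2) := by
  rcases le_total D d₁ with hd | hd
  · have h3 : x * (10 * K₀ * s ^ 2 * D) ≤ (D ^ 2 / 2) * (10 * K₀ * s ^ 2 * D) := by
      have : x ≤ D ^ 2 / 2 := by linarith
      gcongr
    have h4 : (D ^ 2 / 2) * (10 * K₀ * s ^ 2 * D) = 5 * K₀ * s ^ 2 * D ^ 3 := by ring
    have h5 : 5 * K₀ * s ^ 2 * D ^ 3 ≤ 5 * K₀ * s ^ 2 * d₁ ^ 3 := by gcongr
    have h6 : 5 * K₀ * s ^ 2 * d₁ ^ 3 = s ^ 2 / 16 * (80 * K₀ * d₁ ^ 3) := by ring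
    have h7 : s ^ 2 / 16 * (80 * K₀ * d₁ ^ 3) ≤ s ^ 2 / 16 * μ ^ 2 := by gcongr
    have h8 : s ^ 2 / 16 * μ ^ 2 = (μ * s) ^ 2 / 16 := by ring
    have h9 : 0 ≤ η / 16 * s * (x * D ^ 2) := by positivity
    linarith
  · have h3 : 160 * K₀ * s ≤ η * D := h2.trans (by gcongr)
    have h4 : x * (10 * K₀ * s ^ 2 * D) = (160 * K₀ * s) * (s * x * D / 16) := by ring
    have h5 : (160 * K₀ * s) * (s * x * D / 16) ≤ (η * D) * (s * x * D / 16) := by gcongr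
    have h6 : (η * D) * (s * x * D / 16) = η / 16 * s * (x * D ^ 2) := by ring
    have h7 : 0 ≤ (μ * s) ^ 2 / 16 := by positivity
    linarith

lemma core_final {x D w s m a η E : ℝ} (hx : 0 ≤ x) (hs : 0 < s)
    (hE : x * E ≤ w ^ 2 / 4 + a ^ 2 / 16 + (m + 64800 * s ^ 2 + η / 16 * s) * (x * D ^ 2))
    (hD2 : 2 * x + a ^ 2 / 4 + w ^ 2 ≤ D ^ 2) (hm : m ≤ (2 + η / 6) * s)
    (h1 : 80 * s ≤ 1) (h2 : 64800 * s ≤ η / 16) (h3 : 320 * s * (2 + η) ≤ η) :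
    2 * x + (1 + 80 * s) * (x * E) ≤ D ^ 2 * (1 + (2 + η) * s * x) := by
  set Y : ℝ := x * D ^ 2 with hY
  have hY0 : 0 ≤ Y := by positivity
  have e1 : 64800 * s ^ 2 ≤ η / 16 * s := by nlinarith
  have e2 : m + 64800 * s ^ 2 + η / 16 * s ≤ (2 + 7 * η / 24) * s := by linarith
  have e3 : (m + 64800 * s ^ 2 + η / 16 * s) * Y ≤ (2 + 7 * η / 24) * s * Y := by gcongr
  have e4 : x * E ≤ w ^ 2 / 4 + a ^ 2 / 16 + (2 + 7 * η / 24) * s * Y := by linarith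
  have e5 : (1 + 80 * s) * (x * E) ≤ (1 + 80 * s) * (w ^ 2 / 4 + a ^ 2 / 16 +
      (2 + 7 * η / 24) * s * Y) := by gcongr
  have e6 : (1 + 80 * s) * (w ^ 2 / 4 + a ^ 2 / 16) ≤ 2 * (w ^ 2 / 4 + a ^ 2 / 16) := by
    have : 0 ≤ w ^ 2 / 4 + a ^ 2 / 16 := by positivity
    nlinarith
  have e7 : (1 + 80 * s) * (2 + 7 * η / 24) ≤ 2 + η := by nlinarith
  have e8 : (1 + 80 * s) * ((2 + 7 * η / 24) * s * Y) ≤ (2 + η) * s * Y := by
    have : (1 + 80 * s) * ((2 + 7 * η / 24) * s * Y) = ((1 + 80 * s) * (2 + 7 * η / 24)) * (s * Y) := by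
      ring
    rw [this, mul_assoc (2 + η)]
    gcongr
  have e9 : D ^ 2 * (1 + (2 + η) * s * x) = D ^ 2 + (2 + η) * s * Y := by rw [hY]; ring
  rw [e9]
  nlinarith [sq_nonneg w, sq_nonneg a]

/-- the elementary facts in the coordinate `τ` -/
lemma core_facts {a x : ℝ} {τ : ℂ} (ha : 0 < a) (ha' : a ≤ 1 / 50) (hx : 0 ≤ x)
    (hP : (Lam τ).re = x - Real.cos a) :
    ‖exp (-τ)‖ < 5 ∧ ‖exp (-τ)‖ * ‖exp τ‖ = 1 ∧
    2 * x + a ^ 2 / 4 + (‖exp τ‖ - 1) ^ 2 ≤ ‖1 + exp τ‖ ^ 2 ∧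
    ‖1 + exp (-τ)‖ = ‖1 + exp τ‖ * ‖exp (-τ)‖ ∧ ‖1 + exp τ‖ ≤ 1 + ‖exp τ‖ := by
  have ha10 : a ≤ 1 / 10 := by linarith
  have hcos5 := Pool.Agent.H50.IR.cos_le' ha ha10
  have hre : -1 < (Lam τ).re := by rw [hP]; nlinarith
  have hs := Pool.Agent.H50.IS.sq_lower τ
  refine ⟨Pool.Agent.H50.IV.norm_exp_neg_lt hre, ?_, ?_, ?_, ?_⟩
  · rw [← norm_mul, ← exp_add]; simp
  · rw [hP] at hs
    nlinarith [sq_nonneg a]
  · rw [← norm_mul]
    congr 1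
    rw [add_mul, ← exp_add]
    simp [add_comm]
  · have := norm_add_le (1 : ℂ) (exp τ)
    rwa [norm_one] at this

lemma core_num {s : ℝ} (hs : 0 ≤ s) (h5 : 2000 * s ≤ 1) : 1 ≤ (1 - 20 * s) ^ 2 * (1 + 80 * s) := by
  have h1 : (1 - 20 * s) ^ 2 * (1 + 80 * s) = 1 + s * (40 - 2800 * s) + 32000 * s ^ 3 := by ring
  have h2 : 0 ≤ s * (40 - 2800 * s) := mul_nonneg hs (by linarith)
  have h3 : 0 ≤ 32000 * s ^ 3 := by positivity
  linarith

/-- the main estimate in the coordinate `τ` -/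
lemma core_tau {η μ K₀ d₁ s x m : ℝ} {e τ : ℂ} (hη : 0 < η) (hμ : 0 < μ) (hμ1 : μ ≤ 1)
    (hK : 0 < K₀) (hs : 0 < s) (h1 : 80 * K₀ * d₁ ^ 3 ≤ μ ^ 2) (h2 : 160 * K₀ * s ≤ η * d₁)
    (h3 : 64800 * s ≤ η / 16) (h4 : 320 * s * (2 + η) ≤ η) (h5 : 2000 * s ≤ 1) (h6 : K₀ * s ≤ 1)
    (hm0 : 0 ≤ m) (hm : m ≤ (2 + η / 6) * s) (hm3 : m ≤ 3 * s)
    (he : ‖e - (m : ℂ)‖ ≤ K₀ * s ^ 2) (hx : 0 ≤ x) (hP : (Lam τ).re = x - Real.cos (μ * s)) :
    9 / 10 ≤ ‖1 + -(e * exp (-τ))‖ ∧ μ * s / 2 ≤ ‖1 + exp τ‖ ∧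
    2 * x * ‖1 + e‖ ≤ ‖1 + -(e * exp (-τ))‖ * ‖1 + exp τ‖ ^ 2 * (1 + (2 + η) * s * x) := by
  have ha : 0 < μ * s := by positivity
  have ha' : μ * s ≤ 1 / 50 := by
    have : μ * s ≤ 1 * s := by gcongr
    linarith
  obtain ⟨hv5, hvρ, hD2, hprod, hDρ⟩ := core_facts ha ha' hx hP
  set a : ℝ := μ * s with hadef
  set D : ℝ := ‖1 + exp τ‖ with hD
  set ρ : ℝ := ‖exp τ‖ with hρ
  set u : ℂ := exp (-τ) with hu
  set v : ℝ := ‖u‖ with hv
  set n : ℝ := ‖e‖ with hn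
  have hD0 : 0 ≤ D := norm_nonneg _
  have hv0 : 0 ≤ v := norm_nonneg _
  have hn0 : 0 ≤ n := norm_nonneg _
  have hρ0 : 0 ≤ ρ := norm_nonneg _
  have hDa : a / 2 ≤ D := by
    refine le_of_sq_le_sq ?_ hD0
    linarith [sq_nonneg (ρ - 1), (by ring : (a / 2) ^ 2 = a ^ 2 / 4)]
  have hxD : 2 * x ≤ D ^ 2 := by linarith [sq_nonneg (ρ - 1), sq_nonneg a]
  -- the size of `e`
  have hKs : K₀ * s ^ 2 ≤ s := by
    have h7 : K₀ * s ^ 2 = (K₀ * s) * s := by ring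
    have h8 : (K₀ * s) * s ≤ 1 * s := by gcongr
    linarith
  have hn4 : n ≤ 4 * s := by
    have h7 : n ≤ ‖e - (m : ℂ)‖ + ‖(m : ℂ)‖ := by
      have := norm_add_le (e - (m : ℂ)) (m : ℂ)
      rwa [sub_add_cancel] at this
    rw [Complex.norm_real, Real.norm_of_nonneg hm0] at h7
    linarith
  have hW1 : 1 - 20 * s ≤ ‖1 + -(e * u)‖ := by
    have h7 : ‖(1 : ℂ)‖ - ‖e * u‖ ≤ ‖1 + -(e * u)‖ := by
      have := norm_sub_norm_le (1 : ℂ) (e * u)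
      rwa [← sub_eq_add_neg]
    rw [norm_one, norm_mul] at h7
    have h8 : n * v ≤ 4 * s * 5 := by
      have : v ≤ 5 := hv5.le
      gcongr
    linarith
  set W : ℝ := ‖1 + -(e * u)‖ with hWdef
  have hW9 : 9 / 10 ≤ W := by linarith
  refine ⟨hW9, hDa, ?_⟩
  have hW2 : 1 ≤ W ^ 2 * (1 + 80 * s) := by
    have h7 : (1 - 20 * s) ^ 2 ≤ W ^ 2 := by
      have : 0 ≤ 1 - 20 * s := by linarith
      gcongr
    have h8 : 1 ≤ (1 - 20 * s) ^ 2 * (1 + 80 * s) := core_num hs.le h5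
    have h9 : (1 - 20 * s) ^ 2 * (1 + 80 * s) ≤ W ^ 2 * (1 + 80 * s) := by gcongr
    linarith
  -- the squares
  set w : ℝ := |ρ - 1| with hw
  have hw0 : 0 ≤ w := abs_nonneg _
  have hw2 : w ^ 2 = (ρ - 1) ^ 2 := sq_abs _
  have hv1 : |1 - v ^ 2| ≤ 30 * w := by
    have e1 : 1 - v ^ 2 = v * (ρ - 1) * (1 + v) := by
      have : v * (ρ - 1) = 1 - v := by rw [mul_sub, hvρ, mul_one]
      rw [this]; ring
    rw [e1, abs_mul, abs_mul, abs_of_nonneg hv0, abs_of_nonneg (by linarith : (0 : ℝ) ≤ 1 + v)]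
    have h2 : v * w ≤ 5 * w := by gcongr
    calc v * |ρ - 1| * (1 + v) ≤ 5 * w * (1 + v) := by gcongr
      _ ≤ 5 * w * 6 := by
        have : 1 + v ≤ 6 := by linarith
        gcongr
      _ = 30 * w := by ring
  have hRe : 2 * (1 + u).re = D ^ 2 * v ^ 2 + (1 - v ^ 2) := by
    have h7 := Pool.Agent.H50.IS.norm_one_add_sq u
    rw [hprod, ← hv, mul_pow] at h7
    have h8 : (1 + u).re = 1 + u.re := by rw [add_re, one_re]
    rw [h8]; linarith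
  have hRe2 : 2 * (e * (1 + u)).re ≤ m * (D ^ 2 * v ^ 2 + (1 - v ^ 2)) + 10 * K₀ * s ^ 2 * D := by
    have h7 : e * (1 + u) = (m : ℂ) * (1 + u) + (e - (m : ℂ)) * (1 + u) := by ring
    rw [h7, add_re, re_ofReal_mul]
    have h8 : ((e - (m : ℂ)) * (1 + u)).re ≤ K₀ * s ^ 2 * (D * 5) := by
      refine (re_le_norm _).trans ?_
      rw [norm_mul, hprod]
      have : v ≤ 5 := hv5.le
      gcongr
    have h9 : 2 * (m * (1 + u).re) = m * (D ^ 2 * v ^ 2 + (1 - v ^ 2)) := by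
      rw [← hRe]; ring
    linarith
  have hN : ‖1 + e‖ ^ 2 ≤ W ^ 2 + (m * (D ^ 2 * v ^ 2) + (m + n ^ 2) * (1 - v ^ 2) +
      10 * K₀ * s ^ 2 * D) := by
    have h7 := Pool.Agent.H50.IS.normSq_diff e u
    rw [← hv, ← hn] at h7
    linarith
  have hthird := core_third (x := x) (D := D) (μ := μ) hK hs hx hD0 hη hxD h1 h2
  have hm2 : m ^ 2 ≤ 9 * s ^ 2 := by
    calc m ^ 2 ≤ (3 * s) ^ 2 := by gcongr
      _ = 9 * s ^ 2 := by ring
  obtain ⟨E, hE0, hE1, hE2⟩ : ∃ E : ℝ, 0 ≤ E ∧ ‖1 + e‖ ^ 2 ≤ W ^ 2 + E ∧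
      x * E ≤ w ^ 2 / 4 + a ^ 2 / 16 + (m + 64800 * s ^ 2 + η / 16 * s) * (x * D ^ 2) := by
    rcases le_total v 1 with hv' | hv'
    · refine ⟨m * D ^ 2 + 30 * w * (4 * s) + 10 * K₀ * s ^ 2 * D, by positivity, ?_, ?_⟩
      · refine hN.trans ?_
        have h7 : m * (D ^ 2 * v ^ 2) ≤ m * D ^ 2 := by
          have : v ^ 2 ≤ 1 := pow_le_one₀ hv0 hv'
          have h8 : D ^ 2 * v ^ 2 ≤ D ^ 2 * 1 := by gcongr
          rw [mul_one] at h8
          gcongr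
        have h8 : (m + n ^ 2) * (1 - v ^ 2) ≤ 4 * s * (30 * w) := by
          have h9 : m + n ^ 2 ≤ 4 * s := by
            have h12 : n ^ 2 ≤ (4 * s) ^ 2 := by gcongr
            have h13 : (4 * s) ^ 2 = 16 * s * s := by ring
            have h14 : 16 * s * s ≤ 1 * s := by
              have : 16 * s ≤ 1 := by linarith
              gcongr
            linarith
          have h10 : 0 ≤ 1 - v ^ 2 := sub_nonneg.2 (pow_le_one₀ hv0 hv')
          have h11 : 1 - v ^ 2 ≤ 30 * w := (le_abs_self _).trans hv1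
          calc (m + n ^ 2) * (1 - v ^ 2) ≤ 4 * s * (1 - v ^ 2) := by gcongr
            _ ≤ 4 * s * (30 * w) := by gcongr
        linarith
      · have h7 : x * (30 * w * (4 * s)) ≤ w ^ 2 / 4 + 64800 * s ^ 2 * (x * D ^ 2) := by
          have h8 : x * (30 * w * (4 * s)) ≤ w ^ 2 / 4 + (120 * x * s) ^ 2 := by
            linarith [sq_nonneg (w / 2 - 120 * x * s)]
          have h9 : (120 * x * s) ^ 2 = 14400 * s ^ 2 * (x * x) := by ring
          have h10 : x * x ≤ x * (D ^ 2 / 2) := by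
            have : x ≤ D ^ 2 / 2 := by linarith
            gcongr
          have h11 : 14400 * s ^ 2 * (x * x) ≤ 14400 * s ^ 2 * (x * (D ^ 2 / 2)) := by gcongr
          have h12 : 0 ≤ s ^ 2 * (x * D ^ 2) := by positivity
          linarith
        have h8 : x * (m * D ^ 2 + 30 * w * (4 * s) + 10 * K₀ * s ^ 2 * D) =
          m * (x * D ^ 2) + x * (30 * w * (4 * s)) + x * (10 * K₀ * s ^ 2 * D) := by ring
        rw [h8]
        linarith
    · have hρ1 : ρ ≤ 1 := by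
        have : 1 * ρ ≤ v * ρ := by gcongr
        linarith
      have hD2' : D ≤ 2 := by linarith
      have hDD : D ^ 2 ≤ 4 := by
        have : D ^ 2 ≤ 2 ^ 2 := by gcongr
        linarith
      refine ⟨m * D ^ 2 + 30 * w * (m * D ^ 2) + 10 * K₀ * s ^ 2 * D, by positivity, ?_, ?_⟩
      · refine hN.trans ?_
        have h7 : m * (D ^ 2 * v ^ 2) ≤ m * D ^ 2 + 30 * w * (m * D ^ 2) := by
          have h8 : v ^ 2 - 1 ≤ 30 * w := by
            have := neg_abs_le (1 - v ^ 2)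
            linarith
          have h9 : 0 ≤ m * D ^ 2 := by positivity
          have h10 := mul_le_mul_of_nonneg_right h8 h9
          linarith
        have h8 : (m + n ^ 2) * (1 - v ^ 2) ≤ 0 := by
          have h9 : 0 ≤ m + n ^ 2 := by positivity
          have h10 : 1 - v ^ 2 ≤ 0 := sub_nonpos.2 (one_le_pow₀ hv')
          exact mul_nonpos_of_nonneg_of_nonpos h9 h10
        linarith
      · have h7 : x * (30 * w * (m * D ^ 2)) ≤ w ^ 2 / 4 + 64800 * s ^ 2 * (x * D ^ 2) := by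
          have h8 : x * (30 * w * (m * D ^ 2)) ≤ w ^ 2 / 4 + (30 * m * (x * D ^ 2)) ^ 2 := by
            linarith [sq_nonneg (w / 2 - 30 * m * (x * D ^ 2))]
          have h9 : (30 * m * (x * D ^ 2)) ^ 2 = 900 * m ^ 2 * ((x * D ^ 2) * (x * D ^ 2)) := by ring
          have hxD0 : 0 ≤ x * D ^ 2 := by positivity
          have h10 : x * D ^ 2 ≤ 8 := by
            have : x ≤ 2 := by linarith
            calc x * D ^ 2 ≤ 2 * 4 := by gcongr
              _ = 8 := by norm_num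
          have h11 : (x * D ^ 2) * (x * D ^ 2) ≤ 8 * (x * D ^ 2) := by gcongr
          have h12 : 900 * m ^ 2 * ((x * D ^ 2) * (x * D ^ 2)) ≤ 900 * (9 * s ^ 2) * (8 * (x * D ^ 2)) := by
            gcongr
          have h13 : 900 * (9 * s ^ 2) * (8 * (x * D ^ 2)) = 64800 * s ^ 2 * (x * D ^ 2) := by ring
          linarith
        have h8 : x * (m * D ^ 2 + 30 * w * (m * D ^ 2) + 10 * K₀ * s ^ 2 * D) =
          m * (x * D ^ 2) + x * (30 * w * (m * D ^ 2)) + x * (10 * K₀ * s ^ 2 * D) := by ring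
        rw [h8]
        linarith
  have hfin := core_final (x := x) (D := D) (w := w) (s := s) (m := m) (a := a) (η := η) (E := E)
    hx hs hE2 (by rw [hw2]; exact hD2) hm (by linarith) h3 h4
  have hratio : ‖1 + e‖ ≤ W * (1 + (1 + 80 * s) * E / 2) := by
    refine le_of_sq_le_sq ?_ (by positivity)
    have h7 : (W * (1 + (1 + 80 * s) * E / 2)) ^ 2 =
      W ^ 2 + (W ^ 2 * (1 + 80 * s)) * E + (W * ((1 + 80 * s) * E / 2)) ^ 2 := by ring
    have h8 : 1 * E ≤ (W ^ 2 * (1 + 80 * s)) * E := by gcongr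
    rw [h7]
    linarith [sq_nonneg (W * ((1 + 80 * s) * E / 2))]
  calc 2 * x * ‖1 + e‖ ≤ 2 * x * (W * (1 + (1 + 80 * s) * E / 2)) := by gcongr
    _ = W * (2 * x + (1 + 80 * s) * (x * E)) := by ring
    _ ≤ W * (D ^ 2 * (1 + (2 + η) * s * x)) := by gcongr
    _ = _ := by ring

/-- A: the sharp norm -/
theorem core_sharp (η μ K₀ : ℝ) (hη : 0 < η) (hμ : 0 < μ) (hμ1 : μ ≤ 1) (hμη : μ ≤ η / 4)
    (hK₀ : 0 < K₀) : ∃ s₀ > 0, ∀ s : ℝ, 0 < s → s ≤ s₀ → ∀ e : ℂ,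
    ‖e - ((2 * s + 2 * (μ * s) / Real.pi : ℝ) : ℂ)‖ ≤ K₀ * s ^ 2 →
    ∀ z : ℂ, 0 ≤ z.re →
      2 * z.re * ‖phi e (z + Lam (T2 (μ * s)))‖ ≤ 1 + (2 + η) * s * z.re := by
  have hpi := Real.pi_gt_three
  set d₁ : ℝ := min 1 (μ ^ 2 / (80 * K₀)) with hd₁
  have hd0 : 0 < d₁ := by rw [hd₁]; positivity
  have hd1 : d₁ ≤ 1 := min_le_left _ _
  have hd2 : 80 * K₀ * d₁ ^ 3 ≤ μ ^ 2 := by
    have h1 : d₁ ^ 3 ≤ d₁ := by
      have : d₁ ^ 3 = d₁ * d₁ ^ 2 := by ring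
      rw [this]
      have h2 : d₁ ^ 2 ≤ 1 := pow_le_one₀ hd0.le hd1
      have h3 : d₁ * d₁ ^ 2 ≤ d₁ * 1 := by gcongr
      linarith
    have h2 : d₁ ≤ μ ^ 2 / (80 * K₀) := min_le_right _ _
    have h3 : 80 * K₀ * d₁ ≤ μ ^ 2 := by
      rw [le_div_iff₀ (by positivity)] at h2
      linarith
    have h4 : 80 * K₀ * d₁ ^ 3 ≤ 80 * K₀ * d₁ := by gcongr
    linarith
  refine ⟨min (η / (2000000 * (2 + η))) (min (1 / K₀) (η * d₁ / (160 * K₀))), by positivity, ?_⟩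
  intro s hs hs0 e he z hz
  have hsa : s ≤ η / (2000000 * (2 + η)) := hs0.trans (min_le_left _ _)
  have hsb : s ≤ 1 / K₀ := hs0.trans ((min_le_right _ _).trans (min_le_left _ _))
  have hsc : s ≤ η * d₁ / (160 * K₀) := hs0.trans ((min_le_right _ _).trans (min_le_right _ _))
  rw [le_div_iff₀ (by positivity)] at hsa hsb hsc
  have hsη : 0 < s * η := mul_pos hs hη
  have h320 : 320 * s * (2 + η) ≤ η := by linarith
  have h64 : 64800 * s ≤ η / 16 := by linarith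
  have h2000 : 2000 * s ≤ 1 := by
    have h1 : (2000000 * s) * (2 + η) ≤ 1 * (2 + η) := by linarith
    have h2 := le_of_mul_le_mul_right h1 (by positivity)
    linarith
  have ha : 0 < μ * s := by positivity
  have hμs : μ * s ≤ 1 * s := by gcongr
  have ha' : μ * s ≤ 1 / 50 := by linarith
  set m : ℝ := 2 * s + 2 * (μ * s) / Real.pi with hm
  have hm0 : 0 ≤ m := by positivity
  have hmle : m ≤ 2 * s + 2 / 3 * (μ * s) := by
    have : 2 * (μ * s) / Real.pi ≤ 2 / 3 * (μ * s) := by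
      rw [div_le_iff₀ Real.pi_pos]
      have := mul_le_mul_of_nonneg_left hpi.le ha.le
      linarith
    linarith
  have hm3 : m ≤ 3 * s := by linarith
  have hm6 : m ≤ (2 + η / 6) * s := by
    have : μ * s ≤ η / 4 * s := by gcongr
    linarith
  have hP : -1 < (z + Lam (T2 (μ * s))).re := by
    rw [add_re, Pool.Agent.H50.IS.Lam_T2_re]
    have := (Pool.Agent.H50.IV.cos_bound ha (by linarith)).2
    linarith
  obtain ⟨hW, hDa, hmain⟩ := core_tau (τ := inv (z + Lam (T2 (μ * s)))) (x := z.re) hη hμ hμ1 hK₀ hs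
    hd2 (by linarith) h64 h320 h2000 (by linarith) hm0 hm6 hm3 he hz (by
      rw [Lam_inv hP, add_re, Pool.Agent.H50.IS.Lam_T2_re]
      ring)
  have hD : 0 < ‖1 + exp (inv (z + Lam (T2 (μ * s))))‖ := by linarith
  rw [phi, norm_div, norm_mul, norm_pow, mul_div_assoc', div_le_iff₀ (by positivity)]
  linarith

end Pool.Agent.H50.IT
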