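import Mathlib
import Pool.Agent.H50.IH.Defs
import Pool.Agent.H50.IS.FoldB

/-!
# The sharp threshold: definitions

The folds carry the linear term: `g' = exp β (1 - 2 s z)`, and the norm of `φ = β'` satisfies
`2 x |φ| ≤ 1 + (2 + η) s x`.
-/

open Complex Set Filter Topology
open Pool.Agent.H51.Becker

namespace Pool.Agent.H50.IT

open Pool.Agent.H50.IS (y K T1 T2)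
open Pool.Agent.H50.IH (cor cor' eps)
open Pool.Agent.H50.IV (L phi)

structure Fold (C₁ η a s : ℝ) (β φ g : ℂ → ℂ) (ζ : ℂ) : Prop where
  dβ : ∀ z, 0 ≤ z.re → HasDerivAt β (φ z) z
  dg : ∀ z, 0 ≤ z.re → HasDerivAt g (exp (β z) * (1 - 2 * (s : ℂ) * z)) z
  norm : ∀ z, 0 ≤ z.re → 2 * z.re * ‖φ z‖ ≤ 1 + (2 + η) * s * z.re
  φ_le : ∀ z, 0 ≤ z.re → ‖φ z‖ ≤ C₁ / a ^ 2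
  φ_far : ∀ z, 0 ≤ z.re → C₁ ≤ ‖z‖ → ‖φ z‖ ≤ C₁ / ‖z‖ ^ 2
  β_far : ∀ z, 0 ≤ z.re → C₁ ≤ ‖z‖ → ‖β z‖ ≤ C₁ / ‖z‖
  exp_le : ∀ z, 0 ≤ z.re → ‖exp (β z)‖ ≤ C₁ / a
  exp_re : ∀ z, 0 < z.re → ‖exp (β z)‖ ≤ C₁ * (1 + 1 / Real.sqrt z.re)
  ζ_re : a ^ 2 / C₁ ≤ ζ.re
  ζ_norm : ‖ζ‖ ≤ C₁
  exp_ζ : 1 / (C₁ * a) ≤ ‖exp (β ζ)‖
  hg : g ζ = g 0
  path : ∀ p : ℝ, 0 < p → p ≤ a ^ 3 → ∃ γ γ' : ℝ → ℂ, γ 0 = (p : ℂ) ∧ γ 1 = ζ ∧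
    ∀ t ∈ Icc (0 : ℝ) 1, HasDerivAt γ (γ' t) t ∧ p / 2 ≤ (γ t).re ∧ ‖γ t‖ ≤ C₁ ∧
      ‖exp (β (γ t))‖ * ‖γ' t‖ ≤ C₁
  lip : ∀ z, 0 ≤ z.re → ‖φ z - φ 0‖ ≤ C₁ / a ^ 4 * ‖z‖

/-- The fields which do not involve the primitive nor the sharp norm. -/
structure FoldE (C₁ a : ℝ) (β φ : ℂ → ℂ) (ζ : ℂ) : Prop where
  dβ : ∀ z, 0 ≤ z.re → HasDerivAt β (φ z) z
  φ_le : ∀ z, 0 ≤ z.re → ‖φ z‖ ≤ C₁ / a ^ 2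
  φ_far : ∀ z, 0 ≤ z.re → C₁ ≤ ‖z‖ → ‖φ z‖ ≤ C₁ / ‖z‖ ^ 2
  β_far : ∀ z, 0 ≤ z.re → C₁ ≤ ‖z‖ → ‖β z‖ ≤ C₁ / ‖z‖
  exp_le : ∀ z, 0 ≤ z.re → ‖exp (β z)‖ ≤ C₁ / a
  exp_re : ∀ z, 0 < z.re → ‖exp (β z)‖ ≤ C₁ * (1 + 1 / Real.sqrt z.re)
  ζ_re : a ^ 2 / C₁ ≤ ζ.re
  ζ_norm : ‖ζ‖ ≤ C₁
  exp_ζ : 1 / (C₁ * a) ≤ ‖exp (β ζ)‖
  path : ∀ p : ℝ, 0 < p → p ≤ a ^ 3 → ∃ γ γ' : ℝ → ℂ, γ 0 = (p : ℂ) ∧ γ 1 = ζ ∧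
    ∀ t ∈ Icc (0 : ℝ) 1, HasDerivAt γ (γ' t) t ∧ p / 2 ≤ (γ t).re ∧ ‖γ t‖ ≤ C₁ ∧
      ‖exp (β (γ t))‖ * ‖γ' t‖ ≤ C₁
  lip : ∀ z, 0 ≤ z.re → ‖φ z - φ 0‖ ≤ C₁ / a ^ 4 * ‖z‖

/-- a primitive of `e^τ (1 - 2 s (Lam τ - Lam T2))` -/
noncomputable def FF (a s : ℝ) (τ : ℂ) : ℂ :=
  exp τ - 2 * (s : ℂ) * ((τ - 1) * exp τ + exp τ ^ 2 / 2 - Lam (T2 a) * exp τ)

/-- a primitive of `1 - 2 s (Lam τ - Lam T2)` -/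
noncomputable def JJ (a s : ℝ) (τ : ℂ) : ℂ :=
  τ - 2 * (s : ℂ) * (τ ^ 2 / 2 + exp τ - Lam (T2 a) * τ)

/-- the parameter for which the fold closes exactly -/
noncomputable def eT (a s : ℝ) : ℂ :=
  (FF a s (T1 a) - FF a s (T2 a)) / (JJ a s (T1 a) - JJ a s (T2 a))

/-- What is needed for the value. -/
structure SeqV (C₁ η δ : ℝ) (b φ g : ℕ → ℂ → ℂ) (ζ : ℕ → ℂ) (a s : ℕ → ℝ) : Prop where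
  fold : ∀ n, Fold C₁ η (a n) (s n) (b n) (φ n) (g n) (ζ n)
  s_pos : ∀ n, 0 < s n
  a_pos : ∀ n, 0 < a n
  a_le : ∀ n, a n ≤ δ
  s_le : ∀ n, s n ≤ δ
  s_succ : ∀ n, s (n + 1) ≤ y a s n ^ 2

/-- Folds at the scales `s n` with `a n = μ (s n)`. -/
structure Seq (C₁ η μ θ δ : ℝ) (b φ g : ℕ → ℂ → ℂ) (ζ : ℕ → ℂ) (a s M L : ℕ → ℝ) : Prop
    extends SeqV C₁ η δ b φ g ζ a s where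
  a_eq : ∀ n, a n = μ * s n
  M_zero : M 0 = 0
  L_zero : L 0 = 0
  M_succ : ∀ n, M (n + 1) = M n + 2 * C₁ / (a n ^ 2 * s n)
  L_succ : ∀ n, L (n + 1) = L n + (C₁ / (a n ^ 4 * s n ^ 2) +
    8 * (C₁ / (a n ^ 2 * s n)) / eps C₁ a s n)
  s_M : ∀ n, s n * M n ≤ 1
  s_L : ∀ n, 8 * C₁ * s n * L n ≤ θ
  s_succ' : ∀ n, s (n + 1) ≤ θ * y a s n ^ 2

/-- the corrected term -/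
noncomputable def term (C₁ : ℝ) (b φ : ℕ → ℂ → ℂ) (a s : ℕ → ℝ) (m : ℕ) (z : ℂ) : ℂ :=
  b m (z / (s m : ℂ)) + cor (φ m 0 / (s m : ℂ)) (eps C₁ a s m) z

/-- its derivative -/
noncomputable def term' (C₁ : ℝ) (φ : ℕ → ℂ → ℂ) (a s : ℕ → ℝ) (m : ℕ) (z : ℂ) : ℂ :=
  φ m (z / (s m : ℂ)) / (s m : ℂ) + cor' (φ m 0 / (s m : ℂ)) (eps C₁ a s m) z

/-- The sum over all scales. -/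
noncomputable def B (C₁ : ℝ) (b φ : ℕ → ℂ → ℂ) (a s : ℕ → ℝ) (z : ℂ) : ℂ :=
  ∑' m, term C₁ b φ a s m z

/-- The derivative of the sum. -/
noncomputable def B' (C₁ : ℝ) (φ : ℕ → ℂ → ℂ) (a s : ℕ → ℝ) (z : ℂ) : ℂ :=
  ∑' m, term' C₁ φ a s m z

end Pool.Agent.H50.IT
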