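import Mathlib
import Pool.Agent.H50.IT.Defs

/-! # Sharp threshold: existence of the scales -/

open Complex Set Filter Topology

namespace Pool.Agent.H50.IT

open Pool.Agent.H50.IS (y K)
open Pool.Agent.H50.IH (eps)

/-- the bound for the next scale -/
noncomputable def bd (C₁ θ δ : ℝ) (M L : ℝ) : ℝ :=
  min δ (min (1 / (M + 1)) (θ / (8 * C₁ * (L + 1))))

/-- one step of the recursion for the triples `(s, M, L)` -/
noncomputable def stp (C₁ μ θ δ : ℝ) (p : ℝ × ℝ × ℝ) : ℝ × ℝ × ℝ :=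
  let a := μ * p.1
  let M' := p.2.1 + 2 * C₁ / (a ^ 2 * p.1)
  let L' := p.2.2 + (C₁ / (a ^ 4 * p.1 ^ 2) +
    8 * (C₁ / (a ^ 2 * p.1)) / ((a ^ 2 * p.1) ^ 2 / (100 * C₁ ^ 2)))
  (min (bd C₁ θ δ M' L') (θ * (p.1 * a ^ 3) ^ 2), M', L')

/-- the triples -/
noncomputable def trp (C₁ μ θ δ : ℝ) : ℕ → ℝ × ℝ × ℝ
  | 0 => (bd C₁ θ δ 0 0, 0, 0)
  | (n + 1) => stp C₁ μ θ δ (trp C₁ μ θ δ n)

theorem exists_seq {C₁ η μ : ℝ} (hC₁ : 100 ≤ C₁) (hμ : 0 < μ) (hμ1 : μ ≤ 1)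
    {s₀ : ℝ} (hs₀ : 0 < s₀)
    (hF : ∀ s, 0 < s → s ≤ s₀ → ∃ (β φ g : ℂ → ℂ) (ζ : ℂ), Fold C₁ η (μ * s) s β φ g ζ)
    {θ δ : ℝ} (hθ : 0 < θ) (hθ1 : θ ≤ 1) (hδ : 0 < δ) (hδs : δ ≤ s₀) :
    ∃ (b φ g : ℕ → ℂ → ℂ) (ζ : ℕ → ℂ) (a s M L : ℕ → ℝ),
      Seq C₁ η μ θ δ b φ g ζ a s M L := by
  have hC0 : 0 < C₁ := by linarith
  have hbpos : ∀ M L, 0 ≤ M → 0 ≤ L → 0 < bd C₁ θ δ M L := by
    intro M L hM hL
    exact lt_min hδ (lt_min (by positivity) (by positivity))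
  set s : ℕ → ℝ := fun n => (trp C₁ μ θ δ n).1 with hs
  set M : ℕ → ℝ := fun n => (trp C₁ μ θ δ n).2.1 with hM
  set L : ℕ → ℝ := fun n => (trp C₁ μ θ δ n).2.2 with hL
  set a : ℕ → ℝ := fun n => μ * s n with ha
  have hMs : ∀ n, M (n + 1) = M n + 2 * C₁ / (a n ^ 2 * s n) := fun n => rfl
  have hLs : ∀ n, L (n + 1) = L n + (C₁ / (a n ^ 4 * s n ^ 2) +
    8 * (C₁ / (a n ^ 2 * s n)) / eps C₁ a s n) := fun n => rfl
  have hss : ∀ n, s (n + 1) =
    min (bd C₁ θ δ (M (n + 1)) (L (n + 1))) (θ * (s n * a n ^ 3) ^ 2) := fun n => rfl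
  have hinv : ∀ n, 0 < s n ∧ 0 ≤ M n ∧ 0 ≤ L n := by
    intro n
    induction n with
    | zero => exact ⟨hbpos 0 0 le_rfl le_rfl, le_rfl, le_rfl⟩
    | succ n ih =>
      obtain ⟨h1, h2, h3⟩ := ih
      have ha0 : 0 < a n := by
        simp only [ha]
        positivity
      have h4 : 0 ≤ M (n + 1) := by
        rw [hMs]
        positivity
      have h5 : 0 ≤ L (n + 1) := by
        rw [hLs, eps]
        positivity
      refine ⟨?_, h4, h5⟩
      rw [hss]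
      exact lt_min (hbpos _ _ h4 h5) (by positivity)
  have hsm : ∀ n, s n ≤ bd C₁ θ δ (M n) (L n) := by
    intro n
    cases n with
    | zero => exact le_rfl
    | succ n => rw [hss]; exact min_le_left _ _
  have hs1 : ∀ n, s n ≤ δ := fun n => (hsm n).trans (min_le_left _ _)
  have ha0 : ∀ n, 0 < a n := fun n => by
    have h1 := (hinv n).1
    simp only [ha]
    positivity
  have hs2 : ∀ n, a n ≤ δ := fun n => by
    have h1 := (hinv n).1
    have h2 := hs1 n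
    simp only [ha]
    nlinarith
  have hs3 : ∀ n, s n * M n ≤ 1 := fun n => by
    have h1 : s n ≤ 1 / (M n + 1) :=
      (hsm n).trans ((min_le_right _ _).trans (min_le_left _ _))
    have h2 := (hinv n).2.1
    have h3 := (hinv n).1
    rw [le_div_iff₀ (by positivity)] at h1
    nlinarith
  have hs4 : ∀ n, 8 * C₁ * s n * L n ≤ θ := fun n => by
    have h1 : s n ≤ θ / (8 * C₁ * (L n + 1)) :=
      (hsm n).trans ((min_le_right _ _).trans (min_le_right _ _))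
    have h2 := (hinv n).2.2
    have h3 := (hinv n).1
    rw [le_div_iff₀ (by positivity)] at h1
    have : 0 < C₁ * s n := by positivity
    nlinarith
  have hs5 : ∀ n, s (n + 1) ≤ θ * y a s n ^ 2 := fun n => by
    rw [hss]
    exact min_le_right _ _
  choose b φ g ζ hfold using fun n => hF (s n) (hinv n).1 ((hs1 n).trans hδs)
  refine ⟨b, φ, g, ζ, a, s, M, L, ⟨⟨fun n => hfold n, fun n => (hinv n).1, ha0, hs2, hs1,
    fun n => ?_⟩, fun n => rfl, rfl, rfl, hMs, hLs, hs3, hs4, hs5⟩⟩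
  refine (hs5 n).trans ?_
  have := sq_nonneg (y a s n)
  nlinarith

end Pool.Agent.H50.IT
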