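import Mathlib
import Pool.Agent.H50.IT.Defs
import Pool.Agent.H50.IH.Cor
import Pool.Agent.H50.IH.Sum

/-! # Sharp threshold: the sum over the scales -/

open Complex Set Filter Topology

namespace Pool.Agent.H50.IT

open Pool.Agent.H50.IS (y K)
open Pool.Agent.H50.IH

section

variable {C₁ η μ θ δ : ℝ} {b φ g : ℕ → ℂ → ℂ} {ζ : ℕ → ℂ} {a s M L : ℕ → ℝ}
  (S : Seq C₁ η μ θ δ b φ g ζ a s M L) (hC₁ : 100 ≤ C₁) (hδ : δ ≤ 1 / (10000 * C₁ ^ 4))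

include S

lemma Seq.δ_pos_s : 0 < δ := lt_of_lt_of_le (S.s_pos 0) (S.s_le 0)

lemma Seq.y_pos_s (n : ℕ) : 0 < y a s n := mul_pos (S.s_pos n) (pow_pos (S.a_pos n) 3)

/-- the product `a² s` -/
lemma Seq.p_pos (n : ℕ) : 0 < a n ^ 2 * s n :=
  mul_pos (pow_pos (S.a_pos n) 2) (S.s_pos n)

lemma Seq.eps_pos (hC : 0 < C₁) (n : ℕ) : 0 < eps C₁ a s n := by
  have := S.p_pos n
  rw [eps]
  positivity

include hC₁ hδ

lemma Seq.δ_le : δ ≤ 1 / 1000 := by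
  have h := C1_mul_δ hC₁ hδ S.δ_pos_s.le
  have := S.δ_pos_s
  nlinarith

lemma Seq.a_le_one (n : ℕ) : a n ≤ 1 / 1000 := (S.a_le n).trans (S.δ_le hC₁ hδ)

lemma Seq.s_le_one (n : ℕ) : s n ≤ 1 / 1000 := (S.s_le n).trans (S.δ_le hC₁ hδ)

lemma Seq.y_le_s (n : ℕ) : y a s n ≤ s n * (1 / 1000) := by
  rw [y]
  have h1 := S.a_le_one hC₁ hδ n
  have h2 := S.a_pos n
  have h3 := S.s_pos n
  have h4 : a n ^ 3 ≤ 1 / 1000 := by
    calc a n ^ 3 ≤ a n ^ 1 := pow_le_pow_of_le_one h2.le (by linarith) (by norm_num)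
      _ = a n := pow_one _
      _ ≤ 1 / 1000 := h1
  gcongr

lemma Seq.p_le (n : ℕ) : a n ^ 2 * s n ≤ s n := by
  have h1 := S.a_le_one hC₁ hδ n
  have h2 := S.a_pos n
  have h3 := S.s_pos n
  have h4 : a n ^ 2 ≤ 1 := pow_le_one₀ h2.le (by linarith)
  nlinarith

lemma Seq.C1_y_le (n : ℕ) : C₁ * y a s n ≤ 1 / 10000 := by
  have h1 := S.y_le_s hC₁ hδ n
  have h2 := S.s_le n
  have h3 := C1_mul_δ hC₁ hδ S.δ_pos_s.le
  have h4 := S.s_pos n
  have h5 : y a s n ≤ δ := by linarith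
  nlinarith

lemma Seq.s_half (n : ℕ) : s (n + 1) ≤ (1 / 2) * s n := by
  have h1 := S.s_succ n
  have h2 := S.y_le_s hC₁ hδ n
  have h3 := S.y_pos_s n
  have h4 := S.s_le n
  have h5 := S.δ_le hC₁ hδ
  have h6 := S.s_pos n
  nlinarith

lemma Seq.s_add (n k : ℕ) : s (k + n) ≤ (1 / 2) ^ k * s n := by
  induction k with
  | zero => simp
  | succ k ih =>
    have h := S.s_half hC₁ hδ (k + n)
    have e : k + 1 + n = k + n + 1 := by ring
    rw [e, pow_succ]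
    linarith

lemma Seq.summable_s (n : ℕ) : Summable fun k => s (k + n) := by
  refine Summable.of_nonneg_of_le (fun k => (S.s_pos _).le) (S.s_add hC₁ hδ n)
    ((summable_geometric_two).mul_right _)

lemma Seq.tsum_s_le (n : ℕ) : ∑' k, s (k + n) ≤ 2 * s n := by
  calc ∑' k, s (k + n) ≤ ∑' k : ℕ, (1 / 2) ^ k * s n :=
        Summable.tsum_le_tsum (S.s_add hC₁ hδ n) (S.summable_s hC₁ hδ n)
          ((summable_geometric_two).mul_right _)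
    _ = 2 * s n := by rw [tsum_mul_right, tsum_geometric_two]

lemma Seq.s_le_s (n k : ℕ) : s (k + n) ≤ s n := by
  have h := S.s_add hC₁ hδ n k
  have h2 : ((1 : ℝ) / 2) ^ k ≤ 1 := pow_le_one₀ (by norm_num) (by norm_num)
  have h3 := S.s_pos n
  nlinarith

/-- the inner scales are far away -/
lemma Seq.far {n : ℕ} {z : ℂ} (hz : y a s n / 2 ≤ ‖z‖) (k : ℕ) :
    C₁ * s (k + (n + 1)) ≤ ‖z‖ := by
  have h1 := S.s_le_s hC₁ hδ (n + 1) k
  have h2 := S.s_succ n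
  have h3 := S.y_pos_s n
  have h4 := S.C1_y_le hC₁ hδ n
  have h5 : s (k + (n + 1)) ≤ y a s n ^ 2 := h1.trans h2
  calc C₁ * s (k + (n + 1)) ≤ C₁ * y a s n ^ 2 := by gcongr
    _ = (C₁ * y a s n) * y a s n := by ring
    _ ≤ (1 / 10000) * y a s n := by gcongr
    _ ≤ ‖z‖ := by linarith

omit hC₁ hδ in
lemma Seq.κ_le (m : ℕ) : ‖φ m 0 / (s m : ℂ)‖ ≤ C₁ / (a m ^ 2 * s m) := by
  have hs := S.s_pos m
  have ha := S.a_pos m
  have h1 := (S.fold m).φ_le 0 le_rfl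
  rw [norm_div'' _ hs, div_le_iff₀ hs]
  refine h1.trans (le_of_eq ?_)
  field_simp

/-- `κ ε ≤ p / (100 C₁)` -/
lemma Seq.κε_le (m : ℕ) : ‖φ m 0 / (s m : ℂ)‖ * eps C₁ a s m ≤ a m ^ 2 * s m / (100 * C₁) := by
  have hp := S.p_pos m
  have hC0 : 0 < C₁ := by linarith
  calc ‖φ m 0 / (s m : ℂ)‖ * eps C₁ a s m ≤ C₁ / (a m ^ 2 * s m) * eps C₁ a s m := by
        apply mul_le_mul_of_nonneg_right (S.κ_le m) (S.eps_pos hC0 m).le
    _ = a m ^ 2 * s m / (100 * C₁) := by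
        rw [eps]
        field_simp

/-- `κ ε² ≤ p³` -/
lemma Seq.κε2_le (m : ℕ) : ‖φ m 0 / (s m : ℂ)‖ * eps C₁ a s m ^ 2 ≤ (a m ^ 2 * s m) ^ 3 := by
  have hp := S.p_pos m
  have hC0 : 0 < C₁ := by linarith
  have h1 := S.κε_le hC₁ hδ m
  have he := S.eps_pos hC0 m
  have h2 : a m ^ 2 * s m / (100 * C₁) ≤ a m ^ 2 * s m := by
    apply div_le_self hp.le
    linarith
  have h3 : eps C₁ a s m ≤ (a m ^ 2 * s m) ^ 2 := by
    rw [eps]
    apply div_le_self (by positivity)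
    nlinarith
  calc ‖φ m 0 / (s m : ℂ)‖ * eps C₁ a s m ^ 2 =
        (‖φ m 0 / (s m : ℂ)‖ * eps C₁ a s m) * eps C₁ a s m := by ring
    _ ≤ (a m ^ 2 * s m) * (a m ^ 2 * s m) ^ 2 := by
        apply mul_le_mul (h1.trans h2) h3 he.le hp.le
    _ = (a m ^ 2 * s m) ^ 3 := by ring

lemma Seq.κε2_le_s (m : ℕ) : ‖φ m 0 / (s m : ℂ)‖ * eps C₁ a s m ^ 2 ≤ C₁ * s m := by
  have hp := S.p_pos m
  have hs := S.s_pos m
  have h1 := S.κε2_le hC₁ hδ m
  have h2 := S.p_le hC₁ hδ m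
  have h3 := S.s_le_one hC₁ hδ m
  have h4 : (a m ^ 2 * s m) ^ 3 ≤ (a m ^ 2 * s m) ^ 1 :=
    pow_le_pow_of_le_one hp.le (by linarith) (by norm_num)
  rw [pow_one] at h4
  nlinarith

lemma Seq.term_far {z : ℂ} (hz : 0 < z.re) (m : ℕ) (h : C₁ * s m ≤ ‖z‖) :
    ‖term C₁ b φ a s m z‖ ≤ 2 * C₁ * s m / ‖z‖ := by
  have hs := S.s_pos m
  have hC : 0 < C₁ := by linarith
  have hz0 : 0 < ‖z‖ := lt_of_lt_of_le (by positivity) h
  have h1 := (S.fold m).β_far (z / (s m : ℂ)) (by rw [re_div']; positivity)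
    (by rw [norm_div'' _ hs, le_div_iff₀ hs]; exact h)
  rw [norm_div'' _ hs] at h1
  have h2 := norm_cor_far (φ m 0 / (s m : ℂ)) (S.eps_pos hC m) hz
  have h3 := S.κε2_le_s hC₁ hδ m
  have h4 : ‖φ m 0 / (s m : ℂ)‖ * eps C₁ a s m ^ 2 / ‖z‖ ≤ C₁ * s m / ‖z‖ := by gcongr
  have h5 : C₁ / (‖z‖ / s m) = C₁ * s m / ‖z‖ := by field_simp
  rw [h5] at h1
  have h6 : 2 * C₁ * s m / ‖z‖ = C₁ * s m / ‖z‖ + C₁ * s m / ‖z‖ := by ring
  rw [h6, term]
  exact (norm_add_le _ _).trans (add_le_add h1 (h2.trans h4))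

lemma Seq.term'_far {z : ℂ} (hz : 0 < z.re) (m : ℕ) (h : C₁ * s m ≤ ‖z‖) :
    ‖term' C₁ φ a s m z‖ ≤ 2 * C₁ * s m / ‖z‖ ^ 2 := by
  have hs := S.s_pos m
  have hC : 0 < C₁ := by linarith
  have hz0 : 0 < ‖z‖ := lt_of_lt_of_le (by positivity) h
  have h1 := (S.fold m).φ_far (z / (s m : ℂ)) (by rw [re_div']; positivity)
    (by rw [norm_div'' _ hs, le_div_iff₀ hs]; exact h)
  rw [norm_div'' _ hs] at h1
  have h1' : ‖φ m (z / (s m : ℂ)) / (s m : ℂ)‖ ≤ C₁ * s m / ‖z‖ ^ 2 := by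
    rw [norm_div'' _ hs, div_le_iff₀ hs]
    refine h1.trans (le_of_eq ?_)
    field_simp
  have h2 := norm_cor'_far (φ m 0 / (s m : ℂ)) (S.eps_pos hC m) hz
  have h3 := S.κε2_le_s hC₁ hδ m
  have h4 : ‖φ m 0 / (s m : ℂ)‖ * eps C₁ a s m ^ 2 / ‖z‖ ^ 2 ≤ C₁ * s m / ‖z‖ ^ 2 := by gcongr
  have h6 : 2 * C₁ * s m / ‖z‖ ^ 2 = C₁ * s m / ‖z‖ ^ 2 + C₁ * s m / ‖z‖ ^ 2 := by ring
  rw [h6, term']
  exact (norm_add_le _ _).trans (add_le_add h1' (h2.trans h4))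

/-- crude bound of the derivative of a term -/
lemma Seq.term'_near {z : ℂ} (hz : 0 ≤ z.re) (m : ℕ) :
    ‖term' C₁ φ a s m z‖ ≤ 2 * C₁ / (a m ^ 2 * s m) := by
  have hs := S.s_pos m
  have ha := S.a_pos m
  have hC : 0 < C₁ := by linarith
  have h1 := (S.fold m).φ_le (z / (s m : ℂ)) (by rw [re_div']; positivity)
  have h1' : ‖φ m (z / (s m : ℂ)) / (s m : ℂ)‖ ≤ C₁ / (a m ^ 2 * s m) := by
    rw [norm_div'' _ hs, div_le_iff₀ hs]
    refine h1.trans (le_of_eq ?_)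
    field_simp
  have h2 := (norm_cor'_le (φ m 0 / (s m : ℂ)) (S.eps_pos hC m) hz).trans (S.κ_le m)
  have h6 : 2 * C₁ / (a m ^ 2 * s m) = C₁ / (a m ^ 2 * s m) + C₁ / (a m ^ 2 * s m) := by ring
  rw [h6, term']
  exact (norm_add_le _ _).trans (add_le_add h1' h2)

/-- fine bound of the derivative of a term -/
lemma Seq.term'_fine {z : ℂ} (hz : 0 ≤ z.re) (m : ℕ) :
    ‖term' C₁ φ a s m z‖ ≤ (C₁ / (a m ^ 4 * s m ^ 2) +
      8 * (C₁ / (a m ^ 2 * s m)) / eps C₁ a s m) * ‖z‖ := by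
  have hs := S.s_pos m
  have ha := S.a_pos m
  have hC : 0 < C₁ := by linarith
  have he := S.eps_pos hC m
  have h1 := (S.fold m).lip (z / (s m : ℂ)) (by rw [re_div']; positivity)
  rw [norm_div'' _ hs] at h1
  have h1' : ‖(φ m (z / (s m : ℂ)) - φ m 0) / (s m : ℂ)‖ ≤ C₁ / (a m ^ 4 * s m ^ 2) * ‖z‖ := by
    rw [norm_div'' _ hs, div_le_iff₀ hs]
    refine h1.trans (le_of_eq ?_)
    field_simp
  have h2 := norm_cor'_add (φ m 0 / (s m : ℂ)) he hz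
  have h3 : 8 * ‖φ m 0 / (s m : ℂ)‖ / eps C₁ a s m * ‖z‖ ≤
      8 * (C₁ / (a m ^ 2 * s m)) / eps C₁ a s m * ‖z‖ := by
    have := S.κ_le m
    gcongr
  have e : term' C₁ φ a s m z = (φ m (z / (s m : ℂ)) - φ m 0) / (s m : ℂ) +
      (cor' (φ m 0 / (s m : ℂ)) (eps C₁ a s m) z + φ m 0 / (s m : ℂ)) := by
    rw [term']
    ring
  rw [e, add_mul]
  exact (norm_add_le _ _).trans (add_le_add h1' (h2.trans h3))

omit hδ in
lemma Seq.hasDerivAt_term (m : ℕ) {z : ℂ} (hz : 0 ≤ z.re) :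
    HasDerivAt (term C₁ b φ a s m) (term' C₁ φ a s m z) z := by
  have hs := S.s_pos m
  have h1 : HasDerivAt (fun y : ℂ => y / (s m : ℂ)) (1 / (s m : ℂ)) z :=
    (hasDerivAt_id z).div_const _
  have h2 := ((S.fold m).dβ (z / (s m : ℂ)) (by rw [re_div']; positivity)).comp z h1
  have h3 := hasDerivAt_cor (φ m 0 / (s m : ℂ)) (S.eps_pos (by linarith) m) hz
  refine (h2.add h3).congr_deriv ?_
  rw [term']
  ring

omit S hC₁ hδ in
lemma term_zero (m : ℕ) : term C₁ b φ a s m 0 = b m 0 := by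
  rw [term, zero_div, cor_zero, add_zero]

lemma Seq.term_near {z : ℂ} (hz : 0 < z.re) (m : ℕ) :
    ‖term C₁ b φ a s m z - b m 0‖ ≤ 2 * C₁ / (a m ^ 2 * s m) * ‖z‖ := by
  have hconv : Convex ℝ {w : ℂ | 0 ≤ w.re} := convex_halfSpace_re_ge 0
  have h := hconv.norm_image_sub_le_of_norm_hasDerivWithin_le (f := term C₁ b φ a s m)
    (f' := term' C₁ φ a s m) (C := 2 * C₁ / (a m ^ 2 * s m)) (x := 0) (y := z)
    (fun w hw => (S.hasDerivAt_term hC₁ m hw).hasDerivWithinAt)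
    (fun w hw => S.term'_near hC₁ hδ hw m)
    (show (0 : ℝ) ≤ (0 : ℂ).re from le_of_eq rfl) hz.le
  rwa [sub_zero, term_zero] at h

lemma Seq.term_fine {z : ℂ} (hz : 0 < z.re) (m : ℕ) :
    ‖term C₁ b φ a s m z - b m 0‖ ≤ (C₁ / (a m ^ 4 * s m ^ 2) +
      8 * (C₁ / (a m ^ 2 * s m)) / eps C₁ a s m) * ‖z‖ ^ 2 := by
  have hs := S.s_pos m
  have ha := S.a_pos m
  have hC : 0 < C₁ := by linarith
  have he := S.eps_pos hC m
  have hconv : Convex ℝ ({w : ℂ | 0 ≤ w.re} ∩ Metric.closedBall 0 ‖z‖) :=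
    (convex_halfSpace_re_ge 0).inter (convex_closedBall _ _)
  have h := hconv.norm_image_sub_le_of_norm_hasDerivWithin_le (f := term C₁ b φ a s m)
    (f' := term' C₁ φ a s m) (C := (C₁ / (a m ^ 4 * s m ^ 2) +
      8 * (C₁ / (a m ^ 2 * s m)) / eps C₁ a s m) * ‖z‖) (x := 0) (y := z)
    (fun w hw => (S.hasDerivAt_term hC₁ m hw.1).hasDerivWithinAt)
    (fun w hw => (S.term'_fine hC₁ hδ hw.1 m).trans (by
      have : ‖w‖ ≤ ‖z‖ := by simpa using hw.2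
      gcongr))
    ⟨show (0 : ℝ) ≤ (0 : ℂ).re from le_of_eq rfl, by simp⟩ ⟨hz.le, by simp⟩
  rw [sub_zero, term_zero] at h
  refine h.trans (le_of_eq ?_)
  ring

omit hC₁ hδ in
lemma Seq.M_eq (n : ℕ) : ∑ m ∈ Finset.range n, 2 * C₁ / (a m ^ 2 * s m) = M n := by
  induction n with
  | zero => simp [S.M_zero]
  | succ n ih =>
    rw [Finset.sum_range_succ, ih, S.M_succ]

omit hC₁ hδ in
lemma Seq.L_eq (n : ℕ) : ∑ m ∈ Finset.range n, (C₁ / (a m ^ 4 * s m ^ 2) +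
      8 * (C₁ / (a m ^ 2 * s m)) / eps C₁ a s m) = L n := by
  induction n with
  | zero => simp [S.L_zero]
  | succ n ih =>
    rw [Finset.sum_range_succ, ih, S.L_succ]

lemma Seq.summable_term {n : ℕ} {z : ℂ} (hz : 0 < z.re) (h : y a s n / 2 ≤ ‖z‖) :
    Summable fun k => term C₁ b φ a s (k + (n + 1)) z := by
  refine Summable.of_norm_bounded (g := fun k => 2 * C₁ * s (k + (n + 1)) / ‖z‖) ?_
    (fun k => S.term_far hC₁ hδ hz _ (S.far hC₁ hδ h k))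
  exact ((S.summable_s hC₁ hδ (n + 1)).mul_left (2 * C₁)).div_const _

lemma Seq.summable_term' {n : ℕ} {z : ℂ} (hz : 0 < z.re) (h : y a s n / 2 ≤ ‖z‖) :
    Summable fun k => term' C₁ φ a s (k + (n + 1)) z := by
  refine Summable.of_norm_bounded (g := fun k => 2 * C₁ * s (k + (n + 1)) / ‖z‖ ^ 2) ?_
    (fun k => S.term'_far hC₁ hδ hz _ (S.far hC₁ hδ h k))
  exact ((S.summable_s hC₁ hδ (n + 1)).mul_left (2 * C₁)).div_const _

lemma Seq.B_eq {n : ℕ} {z : ℂ} (hz : 0 < z.re) (h : y a s n / 2 ≤ ‖z‖) :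
    B C₁ b φ a s z = ∑ m ∈ Finset.range n, term C₁ b φ a s m z + term C₁ b φ a s n z +
      ∑' k, term C₁ b φ a s (k + (n + 1)) z := by
  have h1 : Summable fun m => term C₁ b φ a s m z :=
    (summable_nat_add_iff (n + 1)).1 (S.summable_term hC₁ hδ hz h)
  rw [B, ← h1.sum_add_tsum_nat_add (n + 1), Finset.sum_range_succ]

lemma Seq.B'_eq {n : ℕ} {z : ℂ} (hz : 0 < z.re) (h : y a s n / 2 ≤ ‖z‖) :
    B' C₁ φ a s z = ∑ m ∈ Finset.range n, term' C₁ φ a s m z + term' C₁ φ a s n z +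
      ∑' k, term' C₁ φ a s (k + (n + 1)) z := by
  have h1 : Summable fun m => term' C₁ φ a s m z :=
    (summable_nat_add_iff (n + 1)).1 (S.summable_term' hC₁ hδ hz h)
  rw [B', ← h1.sum_add_tsum_nat_add (n + 1), Finset.sum_range_succ]

lemma Seq.tail_le {n : ℕ} {z : ℂ} (hz : 0 < z.re) (h : y a s n / 2 ≤ ‖z‖) :
    ‖∑' k, term C₁ b φ a s (k + (n + 1)) z‖ ≤ 4 * C₁ * s (n + 1) / ‖z‖ := by
  have hs := ((S.summable_s hC₁ hδ (n + 1)).mul_left (2 * C₁)).div_const ‖z‖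
  refine (tsum_of_norm_bounded hs.hasSum
    fun k => S.term_far hC₁ hδ hz _ (S.far hC₁ hδ h k)).trans ?_
  rw [tsum_div_const, tsum_mul_left]
  have h1 := S.tsum_s_le hC₁ hδ (n + 1)
  have : 2 * C₁ * ∑' k, s (k + (n + 1)) ≤ 4 * C₁ * s (n + 1) := by nlinarith
  gcongr

lemma Seq.tail'_le {n : ℕ} {z : ℂ} (hz : 0 < z.re) (h : y a s n / 2 ≤ ‖z‖) :
    ‖∑' k, term' C₁ φ a s (k + (n + 1)) z‖ ≤ 4 * C₁ * s (n + 1) / ‖z‖ ^ 2 := by
  have hs := ((S.summable_s hC₁ hδ (n + 1)).mul_left (2 * C₁)).div_const (‖z‖ ^ 2)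
  refine (tsum_of_norm_bounded hs.hasSum
    fun k => S.term'_far hC₁ hδ hz _ (S.far hC₁ hδ h k)).trans ?_
  rw [tsum_div_const, tsum_mul_left]
  have h1 := S.tsum_s_le hC₁ hδ (n + 1)
  have : 2 * C₁ * ∑' k, s (k + (n + 1)) ≤ 4 * C₁ * s (n + 1) := by nlinarith
  gcongr

/-- own correction and the tail -/
lemma Seq.rest_le {n : ℕ} {z : ℂ} (hz : 0 < z.re) (h : y a s n / 2 ≤ ‖z‖) :
    ‖B C₁ b φ a s z - K b n - b n (z / (s n : ℂ))‖ ≤
      ‖∑ m ∈ Finset.range n, (term C₁ b φ a s m z - b m 0)‖ +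
        (a n ^ 2 * s n / (100 * C₁) + 8 * C₁ * y a s n) := by
  have e : B C₁ b φ a s z - K b n - b n (z / (s n : ℂ)) =
      (∑ m ∈ Finset.range n, (term C₁ b φ a s m z - b m 0)) +
        (cor (φ n 0 / (s n : ℂ)) (eps C₁ a s n) z + ∑' k, term C₁ b φ a s (k + (n + 1)) z) := by
    rw [S.B_eq hC₁ hδ hz h, K, Finset.sum_sub_distrib, term]
    ring
  rw [e]
  refine (norm_add_le _ _).trans (add_le_add le_rfl ((norm_add_le _ _).trans (add_le_add ?_ ?_)))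
  · exact (norm_cor_le _ (S.eps_pos (by linarith) n) hz.le).trans (S.κε_le hC₁ hδ n)
  · refine (S.tail_le hC₁ hδ hz h).trans ?_
    have h3 := S.y_pos_s n
    have h4 := S.s_succ n
    have hz0 : 0 < ‖z‖ := by linarith
    rw [div_le_iff₀ hz0]
    have h5 : 4 * C₁ * s (n + 1) ≤ 4 * C₁ * y a s n ^ 2 := by gcongr
    have h6 : 8 * C₁ * y a s n * (y a s n / 2) ≤ 8 * C₁ * y a s n * ‖z‖ := by gcongr
    nlinarith

/-- the perturbation at scale `n`, crude -/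
theorem Seq.region {n : ℕ} {z : ℂ} (hz : 0 < z.re) (h : y a s n / 2 ≤ ‖z‖) :
    ‖B C₁ b φ a s z - K b n - b n (z / (s n : ℂ))‖ ≤ ‖z‖ * M n +
        (a n ^ 2 * s n / (100 * C₁) + 8 * C₁ * y a s n) := by
  refine (S.rest_le hC₁ hδ hz h).trans (add_le_add ?_ le_rfl)
  refine (norm_sum_le _ _).trans ((Finset.sum_le_sum fun m _ => S.term_near hC₁ hδ hz m).trans ?_)
  rw [← Finset.sum_mul, S.M_eq, mul_comm]

/-- the perturbation at scale `n`, fine -/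
theorem Seq.region_fine {n : ℕ} {z : ℂ} (hz : 0 < z.re) (h : y a s n / 2 ≤ ‖z‖) :
    ‖B C₁ b φ a s z - K b n - b n (z / (s n : ℂ))‖ ≤ L n * ‖z‖ ^ 2 +
        (a n ^ 2 * s n / (100 * C₁) + 8 * C₁ * y a s n) := by
  refine (S.rest_le hC₁ hδ hz h).trans (add_le_add ?_ le_rfl)
  refine (norm_sum_le _ _).trans ((Finset.sum_le_sum fun m _ => S.term_fine hC₁ hδ hz m).trans ?_)
  rw [← Finset.sum_mul, S.L_eq]

/-- the derivative -/
theorem Seq.hasDerivAt_B {z : ℂ} (hz : 0 < z.re) {n : ℕ} (hn : y a s n ≤ ‖z‖) :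
    HasDerivAt (B C₁ b φ a s) (B' C₁ φ a s z) z := by
  have hy := S.y_pos_s n
  have hz0 : 0 < ‖z‖ := lt_of_lt_of_le hz ((le_abs_self _).trans (abs_re_le_norm z))
  have hball : ∀ w ∈ Metric.ball z (z.re / 2), 0 < w.re ∧ ‖z‖ / 2 ≤ ‖w‖ := by
    intro w hw
    rw [Metric.mem_ball, dist_eq_norm] at hw
    constructor
    · have h1 := (abs_le.1 (abs_re_le_norm (w - z))).1
      rw [sub_re] at h1
      linarith
    · have h1 : ‖z‖ ≤ ‖w‖ + ‖w - z‖ := by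
        calc ‖z‖ = ‖w - (w - z)‖ := by ring_nf
          _ ≤ ‖w‖ + ‖w - z‖ := norm_sub_le _ _
      have h2 : z.re ≤ ‖z‖ := (le_abs_self _).trans (abs_re_le_norm z)
      linarith
  have hball' : ∀ w ∈ Metric.ball z (z.re / 2), y a s n / 2 ≤ ‖w‖ := fun w hw => by
    have := (hball w hw).2
    linarith
  have hmem : z ∈ Metric.ball z (z.re / 2) := Metric.mem_ball_self (by linarith)
  have htail : HasDerivAt (fun w => ∑' k, term C₁ b φ a s (k + (n + 1)) w)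
      (∑' k, term' C₁ φ a s (k + (n + 1)) z) z := by
    have hu : Summable fun k => 2 * C₁ * s (k + (n + 1)) / (‖z‖ / 2) ^ 2 :=
      ((S.summable_s hC₁ hδ (n + 1)).mul_left (2 * C₁)).div_const _
    have hg' : ∀ k : ℕ, ∀ w ∈ Metric.ball z (z.re / 2),
        ‖(fun (k : ℕ) (w : ℂ) => term' C₁ φ a s (k + (n + 1)) w) k w‖ ≤
          2 * C₁ * s (k + (n + 1)) / (‖z‖ / 2) ^ 2 := by
      intro k w hw
      obtain ⟨h1, h2⟩ := hball w hw
      refine (S.term'_far hC₁ hδ h1 _ (S.far hC₁ hδ (hball' w hw) k)).trans ?_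
      have hs := S.s_pos (k + (n + 1))
      have : 0 < ‖z‖ / 2 := by linarith
      gcongr
    exact hasDerivAt_tsum_of_isPreconnected
      (g := fun (k : ℕ) (w : ℂ) => term C₁ b φ a s (k + (n + 1)) w)
      (g' := fun (k : ℕ) (w : ℂ) => term' C₁ φ a s (k + (n + 1)) w) hu Metric.isOpen_ball
      (convex_ball z (z.re / 2)).isPreconnected
      (fun k w hw => S.hasDerivAt_term hC₁ (k + (n + 1)) (hball w hw).1.le) hg' hmem
      (S.summable_term hC₁ hδ hz (hball' z hmem)) hmem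
  have hfin : HasDerivAt (fun w => ∑ m ∈ Finset.range n, term C₁ b φ a s m w)
      (∑ m ∈ Finset.range n, term' C₁ φ a s m z) z :=
    HasDerivAt.fun_sum fun m _ => S.hasDerivAt_term hC₁ m hz.le
  have hall := (hfin.add (S.hasDerivAt_term hC₁ n hz.le)).add htail
  rw [S.B'_eq hC₁ hδ hz (hball' z hmem)]
  refine hall.congr_of_eventuallyEq ?_
  filter_upwards [Metric.isOpen_ball.mem_nhds hmem] with w hw
  exact S.B_eq hC₁ hδ (hball w hw).1 (hball' w hw)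

end

end Pool.Agent.H50.IT
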