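import Mathlib
import Pool.Agent.H50.IT.Sum

/-! # Sharp threshold: the norm -/

open Complex Set Filter Topology

namespace Pool.Agent.H50.IT

open Pool.Agent.H50.IS (y K)
open Pool.Agent.H50.IH

section

variable {C₁ η μ θ δ : ℝ} {b φ g : ℕ → ℂ → ℂ} {ζ : ℕ → ℂ} {a s M L : ℕ → ℝ}
  (S : Seq C₁ η μ θ δ b φ g ζ a s M L) (hC₁ : 100 ≤ C₁) (hδ : δ ≤ 1 / (10000 * C₁ ^ 4))

include S

lemma Seq.M_nonneg (hC : 0 ≤ C₁) (n : ℕ) : 0 ≤ M n := by
  rw [← S.M_eq]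
  exact Finset.sum_nonneg fun m _ => div_nonneg (by linarith) (S.p_pos m).le

lemma Seq.L_nonneg (hC : 0 < C₁) (n : ℕ) : 0 ≤ L n := by
  rw [← S.L_eq]
  refine Finset.sum_nonneg fun m _ => ?_
  have h1 := S.a_pos m
  have h2 := S.s_pos m
  have h3 := S.eps_pos hC m
  positivity

include hC₁ hδ

lemma Seq.head_norm {z : ℂ} (hz : 0 < z.re) (n : ℕ) :
    ‖∑ m ∈ Finset.range n, term' C₁ φ a s m z‖ ≤ M n := by
  rw [← S.M_eq]
  exact (norm_sum_le _ _).trans (Finset.sum_le_sum fun m _ => S.term'_near hC₁ hδ hz.le m)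

lemma Seq.head_fine {z : ℂ} (hz : 0 < z.re) (n : ℕ) :
    ‖∑ m ∈ Finset.range n, term' C₁ φ a s m z‖ ≤ L n * ‖z‖ := by
  rw [← S.L_eq, Finset.sum_mul]
  exact (norm_sum_le _ _).trans (Finset.sum_le_sum fun m _ => S.term'_fine hC₁ hδ hz.le m)

lemma Seq.yM_le (n : ℕ) : y a s n * M (n + 1) ≤ 3 * C₁ * a n := by
  have h1 := S.s_pos n
  have h2 := S.a_pos n
  have h3 := S.s_M n
  have h4 := S.a_le_one hC₁ hδ n
  have h5 := S.M_nonneg (by linarith : 0 ≤ C₁) n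
  rw [S.M_succ, y]
  have e : s n * a n ^ 3 * (M n + 2 * C₁ / (a n ^ 2 * s n)) =
      a n ^ 3 * (s n * M n) + 2 * C₁ * a n := by
    field_simp
  rw [e]
  have h6 : a n ^ 3 * (s n * M n) ≤ a n ^ 3 * 1 := by gcongr
  have h7 : a n ^ 3 ≤ a n ^ 1 := pow_le_pow_of_le_one h2.le (by linarith) (by norm_num)
  nlinarith

lemma Seq.yM_le' (n : ℕ) : y a s n * M (n + 1) ≤ 3 / 10000 := by
  have h1 := S.yM_le hC₁ hδ n
  have h2 := S.a_le n
  have h3 := C1_mul_δ hC₁ hδ S.δ_pos_s.le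
  have h4 := S.a_pos n
  nlinarith

/-- the correction of scale `n` itself is cheap -/
lemma Seq.own_le {n : ℕ} {z : ℂ} (hz : 0 < z.re) (h : y a s n / 2 ≤ ‖z‖) :
    ‖cor' (φ n 0 / (s n : ℂ)) (eps C₁ a s n) z‖ ≤ 4 * s n := by
  have hy := S.y_pos_s n
  have hs := S.s_pos n
  have ha := S.a_pos n
  have hz0 : 0 < ‖z‖ := by linarith
  have h1 := norm_cor'_far (φ n 0 / (s n : ℂ)) (S.eps_pos (by linarith) n) hz
  have h2 := S.κε2_le hC₁ hδ n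
  refine h1.trans ?_
  rw [div_le_iff₀ (by positivity)]
  have h3 : (y a s n / 2) ^ 2 ≤ ‖z‖ ^ 2 := by gcongr
  have h4 : (a n ^ 2 * s n) ^ 3 = 4 * s n * (y a s n / 2) ^ 2 := by rw [y]; ring
  have h5 : 4 * s n * (y a s n / 2) ^ 2 ≤ 4 * s n * ‖z‖ ^ 2 := by gcongr
  linarith

/-- the norm near the scale `n` -/
theorem Seq.norm_le (hθ : 40 * C₁ * θ ≤ η / 2) (hδη : 8 * δ ≤ η / 2) {n : ℕ} {z : ℂ}
    (hz : 0 < z.re) (h : y a s n / 2 ≤ ‖z‖) (h' : ‖z‖ ≤ 16 * C₁ * s n) :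
    2 * z.re * ‖B' C₁ φ a s z‖ ≤ 1 + (2 + 2 * η) * z.re := by
  have hy := S.y_pos_s n
  have hs := S.s_pos n
  have hC : 0 < C₁ := by linarith
  have hz0 : 0 < ‖z‖ := by linarith
  have hL := S.L_nonneg hC n
  have t1 : ‖∑ m ∈ Finset.range n, term' C₁ φ a s m z‖ ≤ 2 * θ := by
    refine (S.head_fine hC₁ hδ hz n).trans ?_
    have h1 := S.s_L n
    have h2 : L n * ‖z‖ ≤ L n * (16 * C₁ * s n) := by gcongr
    nlinarith
  have t2 : 2 * z.re * ‖φ n (z / (s n : ℂ)) / (s n : ℂ)‖ ≤ 1 + (2 + η) * z.re := by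
    have h1 := (S.fold n).norm (z / (s n : ℂ)) (by rw [re_div']; positivity)
    rw [re_div'] at h1
    rw [norm_div'' _ hs]
    have e1 : 2 * z.re * (‖φ n (z / (s n : ℂ))‖ / s n) =
        2 * (z.re / s n) * ‖φ n (z / (s n : ℂ))‖ := by ring
    rw [e1]
    refine h1.trans (le_of_eq ?_)
    field_simp
  have t2' := S.own_le hC₁ hδ hz h
  have t3 : ‖∑' k, term' C₁ φ a s (k + (n + 1)) z‖ ≤ 16 * C₁ * θ := by
    refine (S.tail'_le hC₁ hδ hz h).trans ?_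
    have h4 := S.s_succ' n
    rw [div_le_iff₀ (by positivity)]
    have h5 : 4 * C₁ * s (n + 1) ≤ 4 * C₁ * (θ * y a s n ^ 2) := by gcongr
    have hθ0 : 0 ≤ θ := by
      have h7 := S.s_pos (n + 1)
      by_contra hcon
      push Not at hcon
      have : θ * y a s n ^ 2 < 0 := mul_neg_of_neg_of_pos hcon (by positivity)
      linarith
    have h6 : 16 * C₁ * θ * (y a s n / 2) ^ 2 ≤ 16 * C₁ * θ * ‖z‖ ^ 2 := by gcongr
    nlinarith
  rw [S.B'_eq hC₁ hδ hz h]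
  have h2z : 0 ≤ 2 * z.re := by linarith
  have t4 : ‖term' C₁ φ a s n z‖ ≤ ‖φ n (z / (s n : ℂ)) / (s n : ℂ)‖ + 4 * s n := by
    rw [term']
    exact (norm_add_le _ _).trans (add_le_add le_rfl t2')
  have t5 : 2 * (2 * θ + 4 * s n + 16 * C₁ * θ) ≤ η := by
    have h1 := S.s_le n
    have hθ0 : 0 ≤ θ := by
      have h7 := S.s_succ' n
      have h8 := S.s_pos (n + 1)
      by_contra hcon
      push Not at hcon
      have : θ * y a s n ^ 2 < 0 := mul_neg_of_neg_of_pos hcon (by positivity)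
      linarith
    nlinarith
  calc 2 * z.re * ‖∑ m ∈ Finset.range n, term' C₁ φ a s m z + term' C₁ φ a s n z +
        ∑' k, term' C₁ φ a s (k + (n + 1)) z‖
      ≤ 2 * z.re * (2 * θ + (‖φ n (z / (s n : ℂ)) / (s n : ℂ)‖ + 4 * s n) + 16 * C₁ * θ) := by
        apply mul_le_mul_of_nonneg_left _ h2z
        exact (norm_add_le _ _).trans (add_le_add ((norm_add_le _ _).trans
          (add_le_add t1 t4)) t3)
    _ = 2 * z.re * ‖φ n (z / (s n : ℂ)) / (s n : ℂ)‖ +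
        2 * (2 * θ + 4 * s n + 16 * C₁ * θ) * z.re := by ring
    _ ≤ (1 + (2 + η) * z.re) + η * z.re := by gcongr
    _ = 1 + (2 + 2 * η) * z.re := by ring

/-- the norm far away from scale `n` -/
theorem Seq.norm_far {n : ℕ} {z : ℂ} (hz : 0 < z.re) (h : 8 * C₁ * s n ≤ ‖z‖) :
    2 * z.re * ‖B' C₁ φ a s z‖ ≤ 2 * ‖z‖ * M n + 8 * C₁ * s n / ‖z‖ := by
  have hy := S.y_le_s hC₁ hδ n
  have hs := S.s_pos n
  have hCs : s n ≤ C₁ * s n := by nlinarith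
  have h' : y a s n / 2 ≤ ‖z‖ := by
    have := S.y_pos_s n
    linarith
  have hC0 : 0 < C₁ := by linarith
  have hz0 : 0 < ‖z‖ := lt_of_lt_of_le (by positivity) h
  have hre : z.re ≤ ‖z‖ := (le_abs_self _).trans (abs_re_le_norm z)
  have t1 := S.head_norm hC₁ hδ hz n
  have t2 := S.term'_far hC₁ hδ hz n (by nlinarith)
  have t3 := S.tail'_le hC₁ hδ hz h'
  have hsn := S.s_half hC₁ hδ n
  have hM0 := S.M_nonneg hC0.le n
  rw [S.B'_eq hC₁ hδ hz h']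
  have h2z : 0 ≤ 2 * z.re := by linarith
  have e3 : 4 * C₁ * s (n + 1) / ‖z‖ ^ 2 ≤ 2 * C₁ * s n / ‖z‖ ^ 2 := by
    have : 4 * C₁ * s (n + 1) ≤ 2 * C₁ * s n := by nlinarith
    gcongr
  have e4 : 2 * z.re * (4 * C₁ * s n / ‖z‖ ^ 2) ≤ 8 * C₁ * s n / ‖z‖ := by
    calc 2 * z.re * (4 * C₁ * s n / ‖z‖ ^ 2) ≤ 2 * ‖z‖ * (4 * C₁ * s n / ‖z‖ ^ 2) := by gcongr
      _ = 8 * C₁ * s n / ‖z‖ := by field_simp; ring
  calc 2 * z.re * ‖∑ m ∈ Finset.range n, term' C₁ φ a s m z + term' C₁ φ a s n z +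
        ∑' k, term' C₁ φ a s (k + (n + 1)) z‖
      ≤ 2 * z.re * (M n + 2 * C₁ * s n / ‖z‖ ^ 2 + 2 * C₁ * s n / ‖z‖ ^ 2) := by
        apply mul_le_mul_of_nonneg_left _ h2z
        exact (norm_add_le _ _).trans (add_le_add ((norm_add_le _ _).trans
          (add_le_add t1 t2)) (t3.trans e3))
    _ = 2 * z.re * M n + 2 * z.re * (4 * C₁ * s n / ‖z‖ ^ 2) := by ring
    _ ≤ 2 * ‖z‖ * M n + 8 * C₁ * s n / ‖z‖ := by
        have : 2 * z.re * M n ≤ 2 * ‖z‖ * M n := by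
          apply mul_le_mul_of_nonneg_right _ hM0
          linarith
        linarith

lemma Seq.exists_y {z : ℂ} (hz : 0 < z.re) :
    ∃ n, y a s n ≤ ‖z‖ ∧ ∀ m, n = m + 1 → ‖z‖ ≤ y a s m := by
  have hz0 : 0 < ‖z‖ := lt_of_lt_of_le hz ((le_abs_self _).trans (abs_re_le_norm z))
  have hex : ∃ n, y a s n ≤ ‖z‖ := by
    obtain ⟨n, hn⟩ := exists_pow_lt_of_lt_one hz0 (show (1 / 2 : ℝ) < 1 by norm_num)
    refine ⟨n, ?_⟩
    have h1 := S.y_le_s hC₁ hδ n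
    have h2 := S.s_add hC₁ hδ 0 n
    have h3 := S.s_pos n
    have h4 := S.s_le 0
    have h5 := S.δ_le hC₁ hδ
    rw [add_zero] at h2
    have h6 : (0 : ℝ) < (1 / 2) ^ n := by positivity
    nlinarith
  classical
  refine ⟨Nat.find hex, Nat.find_spec hex, ?_⟩
  intro m hm
  have := Nat.find_min hex (m := m) (by omega)
  push Not at this
  exact this.le

/-- the norm, all cases -/
theorem Seq.norm_all (hθ : 40 * C₁ * θ ≤ η / 2) (hδη : 8 * δ ≤ η / 2) {z : ℂ} (hz : 0 < z.re) :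
    2 * z.re * ‖B' C₁ φ a s z‖ ≤ 1 ∨
    ∃ n, ‖z‖ ≤ 16 * C₁ * s n ∧
      2 * z.re * ‖B' C₁ φ a s z‖ ≤ 1 + (2 + 2 * η) * z.re := by
  obtain ⟨n, hn, hn'⟩ := S.exists_y hC₁ hδ hz
  have hy := S.y_pos_s n
  by_cases hcase : ‖z‖ ≤ 16 * C₁ * s n
  · exact Or.inr ⟨n, hcase, S.norm_le hC₁ hδ hθ hδη hz (by linarith) hcase⟩
  · left
    push Not at hcase
    have hs := S.s_pos n
    have hC0 : 0 < C₁ := by linarith
    have hCs : 0 < C₁ * s n := by positivity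
    have h1 := S.norm_far hC₁ hδ hz (by linarith : 8 * C₁ * s n ≤ ‖z‖)
    have hz0 : 0 < ‖z‖ := lt_trans (by positivity) hcase
    have h2 : 8 * C₁ * s n / ‖z‖ ≤ 1 / 2 := by
      rw [div_le_iff₀ hz0]
      linarith
    cases n with
    | zero =>
      rw [S.M_zero] at h1
      linarith
    | succ m =>
      have h3 := hn' m rfl
      have h4 := S.yM_le' hC₁ hδ m
      have h5 := S.M_nonneg hC0.le (m + 1)
      have h7 : ‖z‖ * M (m + 1) ≤ y a s m * M (m + 1) := by gcongr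
      linarith

theorem Seq.norm_B_far {z : ℂ} (hz : 0 < z.re) (h : 8 * C₁ * s 0 ≤ ‖z‖) :
    ‖B C₁ b φ a s z‖ ≤ 4 * C₁ * s 0 / ‖z‖ := by
  have hs := S.s_pos 0
  have hC0 : 0 < C₁ := by linarith
  have hz0 : 0 < ‖z‖ := lt_of_lt_of_le (by positivity) h
  have hCs : s 0 ≤ C₁ * s 0 := by nlinarith
  have h' : y a s 0 / 2 ≤ ‖z‖ := by
    have := S.y_le_s hC₁ hδ 0
    have := S.y_pos_s 0
    linarith
  have t2 := S.term_far hC₁ hδ hz 0 (by nlinarith)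
  have t3 := S.tail_le hC₁ hδ hz h'
  have hsn := S.s_half hC₁ hδ 0
  rw [S.B_eq hC₁ hδ hz h', Finset.sum_range_zero, zero_add]
  refine (norm_add_le _ _).trans ((add_le_add t2 t3).trans ?_)
  rw [← add_div]
  have : 2 * C₁ * s 0 + 4 * C₁ * s (0 + 1) ≤ 4 * C₁ * s 0 := by
    nlinarith
  gcongr

end

end Pool.Agent.H50.IT
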