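import Mathlib
import Pool.Agent.H50.IT.Defs

set_option autoImplicit false

/-!
# A value taken at every scale (sharp version)
-/

open Complex Set Filter Topology

namespace Pool.Agent.H50.IT

open Pool.Agent.H50.IS (y K)

variable {C₁ η δ : ℝ} {b φ g : ℕ → ℂ → ℂ} {ζ : ℕ → ℂ} {a s : ℕ → ℝ} {Bt G : ℂ → ℂ} {k : ℂ}

/-- the size at scale `n` -/
noncomputable def PV (b : ℕ → ℂ → ℂ) (s : ℕ → ℝ) (k : ℂ) (n : ℕ) : ℝ := s n * ‖exp (k + K b n)‖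

theorem SeqV.PV_pos (S : SeqV C₁ η δ b φ g ζ a s) (k : ℂ) (n : ℕ) : 0 < PV b s k n :=
  mul_pos (S.s_pos n) (norm_pos_iff.2 (exp_ne_zero _))

theorem SeqV.small (hC₁ : 100 ≤ C₁) (hδ : δ ≤ 1 / (10000 * C₁ ^ 4))
    (S : SeqV C₁ η δ b φ g ζ a s) (n : ℕ) :
    C₁ ^ 4 * a n ≤ 1 / 10000 ∧ C₁ ^ 4 * s n ≤ 1 / 10000 := by
  have h4 : 0 < C₁ ^ 4 := by positivity
  have h : C₁ ^ 4 * δ ≤ 1 / 10000 := by
    calc C₁ ^ 4 * δ ≤ C₁ ^ 4 * (1 / (10000 * C₁ ^ 4)) := mul_le_mul_of_nonneg_left hδ h4.le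
      _ = 1 / 10000 := by field_simp
  exact ⟨(mul_le_mul_of_nonneg_left (S.a_le n) h4.le).trans h,
    (mul_le_mul_of_nonneg_left (S.s_le n) h4.le).trans h⟩

/-- the consequences which are used -/
theorem SeqV.small' (hC₁ : 100 ≤ C₁) (hδ : δ ≤ 1 / (10000 * C₁ ^ 4))
    (S : SeqV C₁ η δ b φ g ζ a s) (n : ℕ) :
    a n ≤ 1 / 10000 ∧ s n ≤ 1 / 10000 ∧ C₁ * s n ≤ 1 / 10000 ∧ C₁ ^ 2 * a n ≤ 1 / 10000 := by
  obtain ⟨h1, h2⟩ := S.small hC₁ hδ n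
  have ha := S.a_pos n
  have hs := S.s_pos n
  have e1 : (1 : ℝ) ≤ C₁ ^ 4 := one_le_pow₀ (by linarith)
  have e2 : C₁ ≤ C₁ ^ 4 := by
    calc C₁ = C₁ ^ 1 := (pow_one _).symm
      _ ≤ C₁ ^ 4 := pow_le_pow_right₀ (by linarith) (by norm_num)
  have e3 : C₁ ^ 2 ≤ C₁ ^ 4 := pow_le_pow_right₀ (by linarith) (by norm_num)
  refine ⟨?_, ?_, ?_, ?_⟩
  · calc a n = 1 * a n := (one_mul _).symm
      _ ≤ C₁ ^ 4 * a n := mul_le_mul_of_nonneg_right e1 ha.le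
      _ ≤ _ := h1
  · calc s n = 1 * s n := (one_mul _).symm
      _ ≤ C₁ ^ 4 * s n := mul_le_mul_of_nonneg_right e1 hs.le
      _ ≤ _ := h2
  · exact (mul_le_mul_of_nonneg_right e2 hs.le).trans h2
  · exact (mul_le_mul_of_nonneg_right e3 ha.le).trans h1

theorem SeqV.y_pos (S : SeqV C₁ η δ b φ g ζ a s) (n : ℕ) : 0 < y a s n := by
  have := S.a_pos n
  have := S.s_pos n
  unfold y
  positivity

theorem SeqV.y_le (hC₁ : 100 ≤ C₁) (hδ : δ ≤ 1 / (10000 * C₁ ^ 4))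
    (S : SeqV C₁ η δ b φ g ζ a s) (n : ℕ) : y a s n ≤ 1 / 10000 := by
  obtain ⟨h1, h2, _, _⟩ := S.small' hC₁ hδ n
  have ha := S.a_pos n
  have h3 : a n ^ 3 ≤ 1 := pow_le_one₀ ha.le (by linarith)
  unfold y
  exact (mul_le_of_le_one_right (S.s_pos n).le h3).trans h2

theorem SeqV.y_anti (hC₁ : 100 ≤ C₁) (hδ : δ ≤ 1 / (10000 * C₁ ^ 4))
    (S : SeqV C₁ η δ b φ g ζ a s) (n : ℕ) : y a s (n + 1) ≤ y a s n := by
  have h1 := S.s_succ n
  have h2 := S.y_le hC₁ hδ n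
  have h3 := S.y_pos n
  obtain ⟨h4, _, _, _⟩ := S.small' hC₁ hδ (n + 1)
  have ha := S.a_pos (n + 1)
  have h5 : a (n + 1) ^ 3 ≤ 1 := pow_le_one₀ ha.le (by linarith)
  calc y a s (n + 1) ≤ s (n + 1) := mul_le_of_le_one_right (S.s_pos _).le h5
    _ ≤ y a s n ^ 2 := h1
    _ = y a s n * y a s n := sq _
    _ ≤ 1 * y a s n := mul_le_mul_of_nonneg_right (by linarith) h3.le
    _ = y a s n := one_mul _

theorem SeqV.expK_succ (S : SeqV C₁ η δ b φ g ζ a s) (k : ℂ) (n : ℕ) :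
    ‖exp (k + K b (n + 1))‖ ≤ ‖exp (k + K b n)‖ * (C₁ / a n) := by
  unfold K
  rw [Finset.sum_range_succ, ← add_assoc, exp_add, norm_mul]
  exact mul_le_mul_of_nonneg_left ((S.fold n).exp_le 0 le_rfl) (norm_nonneg _)

/-- (Q2) -/
theorem SeqV.step (hC₁ : 100 ≤ C₁) (hδ : δ ≤ 1 / (10000 * C₁ ^ 4))
    (S : SeqV C₁ η δ b φ g ζ a s)
    (hreg : ∀ n z, 0 < z.re → y a s (n + 1) / 2 ≤ ‖z‖ → ‖z‖ ≤ y a s n →
      ‖Bt z - (k + K b (n + 1)) - b (n + 1) (z / (s (n + 1) : ℂ))‖ ≤ 1)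
    (hG : ∀ z : ℂ, 0 < z.re → ‖z‖ < 1 → HasDerivAt G (exp (Bt z)) z) (n : ℕ) :
    dist (G (y a s n : ℂ)) (G (y a s (n + 1) : ℂ)) ≤
      12 * C₁ ^ 2 * (a n ^ 2 * PV b s k n) := by
  have hy0 := S.y_pos n
  have hy1 := S.y_pos (n + 1)
  have hyl := S.y_le hC₁ hδ n
  have hya := S.y_anti hC₁ hδ n
  have hs1 := S.s_pos (n + 1)
  have ha := S.a_pos n
  set Y := Real.sqrt (y a s n) with hY
  set Y' := Real.sqrt (y a s (n + 1)) with hY'
  have hYsq : Y ^ 2 = y a s n := Real.sq_sqrt hy0.le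
  have hY'sq : Y' ^ 2 = y a s (n + 1) := Real.sq_sqrt hy1.le
  have hYpos : 0 < Y := Real.sqrt_pos.2 hy0
  have hY'pos : 0 < Y' := Real.sqrt_pos.2 hy1
  have hYY : Y' ≤ Y := Real.sqrt_le_sqrt hya
  have hsY : Real.sqrt (s (n + 1)) ≤ Y := by
    refine Real.sqrt_le_sqrt ((S.s_succ n).trans ?_)
    nlinarith
  have hconv : Convex ℝ (Icc Y' Y) := convex_Icc _ _
  have hder : ∀ u ∈ Icc Y' Y, HasDerivWithinAt (fun u : ℝ => G ((u ^ 2 : ℝ) : ℂ))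
      ((2 * u) • exp (Bt ((u ^ 2 : ℝ) : ℂ))) (Icc Y' Y) u := by
    intro u hu
    have hu0 : 0 < u := lt_of_lt_of_le hY'pos hu.1
    have hu2 : 0 < u ^ 2 := by positivity
    have hu3 : u ^ 2 ≤ y a s n := by
      rw [← hYsq]
      exact pow_le_pow_left₀ hu0.le hu.2 2
    have h1 : HasDerivAt G (exp (Bt ((u ^ 2 : ℝ) : ℂ))) ((u ^ 2 : ℝ) : ℂ) := by
      refine hG _ (by rw [ofReal_re]; exact hu2) ?_
      rw [norm_real, Real.norm_eq_abs, abs_of_pos hu2]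
      linarith
    have h2 : HasDerivAt (fun u : ℝ => u ^ 2) (2 * u) u := by
      simpa using hasDerivAt_pow 2 u
    have h3 : HasDerivAt (fun x : ℝ => G (x : ℂ)) (exp (Bt ((u ^ 2 : ℝ) : ℂ))) (u ^ 2) :=
      h1.comp_ofReal
    exact (HasDerivAt.scomp (h := fun u : ℝ => u ^ 2) (g₁ := fun x : ℝ => G (x : ℂ)) u
      h3 h2).hasDerivWithinAt
  have hbd : ∀ u ∈ Icc Y' Y, ‖(2 * u) • exp (Bt ((u ^ 2 : ℝ) : ℂ))‖ ≤
      4 * Real.exp 1 * C₁ * ‖exp (k + K b (n + 1))‖ * Y := by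
    intro u hu
    have hu0 : 0 < u := lt_of_lt_of_le hY'pos hu.1
    have hu2 : 0 < u ^ 2 := by positivity
    have hu3 : u ^ 2 ≤ y a s n := by
      rw [← hYsq]
      exact pow_le_pow_left₀ hu0.le hu.2 2
    have hu4 : y a s (n + 1) ≤ u ^ 2 := by
      rw [← hY'sq]
      exact pow_le_pow_left₀ hY'pos.le hu.1 2
    have hn : ‖((u ^ 2 : ℝ) : ℂ)‖ = u ^ 2 := by
      rw [norm_real, Real.norm_eq_abs, abs_of_pos hu2]
    have h1 := hreg n ((u ^ 2 : ℝ) : ℂ) (by rw [ofReal_re]; exact hu2)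
      (by rw [hn]; linarith) (by rw [hn]; exact hu3)
    have hzre : (((u ^ 2 : ℝ) : ℂ) / (s (n + 1) : ℂ)).re = u ^ 2 / s (n + 1) := by
      rw [← ofReal_div, ofReal_re]
    have h2 := (S.fold (n + 1)).exp_re (((u ^ 2 : ℝ) : ℂ) / (s (n + 1) : ℂ))
      (by rw [hzre]; positivity)
    rw [hzre] at h2
    have h3 : Real.sqrt (u ^ 2 / s (n + 1)) = u / Real.sqrt (s (n + 1)) := by
      rw [Real.sqrt_div hu2.le, Real.sqrt_sq hu0.le]
    have hss : 0 < Real.sqrt (s (n + 1)) := Real.sqrt_pos.2 hs1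
    have h4 : ‖exp (Bt ((u ^ 2 : ℝ) : ℂ))‖ ≤ ‖exp (k + K b (n + 1))‖ *
        (C₁ * (1 + 1 / (u / Real.sqrt (s (n + 1))))) * Real.exp 1 := by
      have e1 : Bt ((u ^ 2 : ℝ) : ℂ) = (k + K b (n + 1)) +
          b (n + 1) (((u ^ 2 : ℝ) : ℂ) / (s (n + 1) : ℂ)) +
          (Bt ((u ^ 2 : ℝ) : ℂ) - (k + K b (n + 1)) -
            b (n + 1) (((u ^ 2 : ℝ) : ℂ) / (s (n + 1) : ℂ))) := by ring
      rw [e1, exp_add, exp_add, norm_mul, norm_mul]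
      refine mul_le_mul (mul_le_mul_of_nonneg_left ?_ (norm_nonneg _)) ?_ (norm_nonneg _)
        (by positivity)
      · rw [← h3]; exact h2
      · rw [norm_exp, Real.exp_le_exp]
        exact (re_le_norm _).trans h1
    rw [norm_smul, Real.norm_eq_abs, abs_of_pos (by linarith : (0 : ℝ) < 2 * u)]
    calc 2 * u * ‖exp (Bt ((u ^ 2 : ℝ) : ℂ))‖
        ≤ 2 * u * (‖exp (k + K b (n + 1))‖ *
          (C₁ * (1 + 1 / (u / Real.sqrt (s (n + 1))))) * Real.exp 1) :=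
          mul_le_mul_of_nonneg_left h4 (by linarith)
      _ = 2 * Real.exp 1 * C₁ * ‖exp (k + K b (n + 1))‖ * (u + Real.sqrt (s (n + 1))) := by
          field_simp
      _ ≤ 2 * Real.exp 1 * C₁ * ‖exp (k + K b (n + 1))‖ * (Y + Y) := by
          refine mul_le_mul_of_nonneg_left (add_le_add hu.2 hsY) ?_
          have := Real.exp_pos 1
          positivity
      _ = _ := by ring
  have h1 := hconv.norm_image_sub_le_of_norm_hasDerivWithin_le hder hbd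
    (left_mem_Icc.2 hYY) (right_mem_Icc.2 hYY)
  rw [hYsq, hY'sq] at h1
  rw [dist_eq_norm]
  refine h1.trans ?_
  have h2 : ‖Y - Y'‖ ≤ Y := by
    rw [Real.norm_eq_abs, abs_of_nonneg (by linarith)]
    linarith
  have h3 := S.expK_succ k n
  have he : Real.exp 1 ≤ 3 := by
    have := Real.exp_one_lt_d9
    linarith
  have hE := Real.exp_pos 1
  have hN := norm_nonneg (exp (k + K b n))
  calc 4 * Real.exp 1 * C₁ * ‖exp (k + K b (n + 1))‖ * Y * ‖Y - Y'‖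
      ≤ 4 * 3 * C₁ * (‖exp (k + K b n)‖ * (C₁ / a n)) * Y * Y := by
        have hN1 := norm_nonneg (exp (k + K b (n + 1)))
        have hC0 : 0 ≤ C₁ := by linarith
        gcongr
    _ = 12 * C₁ * (‖exp (k + K b n)‖ * (C₁ / a n)) * Y ^ 2 := by ring
    _ = 12 * C₁ ^ 2 * (a n ^ 2 * PV b s k n) := by
        rw [hYsq]
        unfold y PV
        field_simp

theorem SeqV.PV_succ (hC₁ : 100 ≤ C₁) (hδ : δ ≤ 1 / (10000 * C₁ ^ 4))
    (S : SeqV C₁ η δ b φ g ζ a s) (n : ℕ) :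
    12 * C₁ ^ 2 * (a (n + 1) ^ 2 * PV b s k (n + 1)) ≤
      12 * C₁ ^ 2 * (a n ^ 2 * PV b s k n) / 2 := by
  have h3 := S.expK_succ k n
  have h4 := S.s_succ n
  have ha := S.a_pos n
  have ha1 := S.a_pos (n + 1)
  have hs := S.s_pos n
  have hs1 := S.s_pos (n + 1)
  obtain ⟨e1, e2, e3, _⟩ := S.small' hC₁ hδ n
  obtain ⟨e1', _, _, _⟩ := S.small' hC₁ hδ (n + 1)
  have hN := norm_nonneg (exp (k + K b n))
  have hN1 := norm_nonneg (exp (k + K b (n + 1)))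
  have ha2 : a (n + 1) ^ 2 ≤ 1 := pow_le_one₀ ha1.le (by linarith)
  have ha3 : a n ^ 3 ≤ 1 := pow_le_one₀ ha.le (by linarith)
  have key : a (n + 1) ^ 2 * PV b s k (n + 1) ≤ a n ^ 2 * PV b s k n * (1 / 2) := by
    calc a (n + 1) ^ 2 * PV b s k (n + 1)
        ≤ 1 * (y a s n ^ 2 * (‖exp (k + K b n)‖ * (C₁ / a n))) := by
          unfold PV
          refine mul_le_mul ha2 (mul_le_mul h4 h3 hN1 (by positivity)) (by positivity) zero_le_one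
      _ = a n ^ 2 * PV b s k n * (C₁ * s n * a n ^ 3) := by
          unfold y PV
          field_simp
      _ ≤ a n ^ 2 * PV b s k n * (1 / 2) := by
          have hP := S.PV_pos k n
          refine mul_le_mul_of_nonneg_left ?_ (by positivity)
          have : 0 < C₁ * s n := by positivity
          nlinarith
  have hC2 : 0 < 12 * C₁ ^ 2 := by positivity
  nlinarith

theorem SeqV.geo (hC₁ : 100 ≤ C₁) (hδ : δ ≤ 1 / (10000 * C₁ ^ 4))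
    (S : SeqV C₁ η δ b φ g ζ a s) (n : ℕ) : ∀ j : ℕ,
    12 * C₁ ^ 2 * (a (n + j) ^ 2 * PV b s k (n + j)) ≤
      2 * (12 * C₁ ^ 2 * (a n ^ 2 * PV b s k n)) / 2 / 2 ^ j
  | 0 => by
    rw [add_zero, pow_zero, div_one, mul_div_cancel_left₀ _ (two_ne_zero)]
  | (j + 1) => by
    have h1 := S.PV_succ (k := k) hC₁ hδ (n + j)
    have h2 := S.geo hC₁ hδ n j
    refine h1.trans ?_
    rw [pow_succ (2 : ℝ) j, ← div_div]
    exact div_le_div_of_nonneg_right h2 (by norm_num)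

/-- the limit value -/
theorem SeqV.limit (hC₁ : 100 ≤ C₁) (hδ : δ ≤ 1 / (10000 * C₁ ^ 4))
    (S : SeqV C₁ η δ b φ g ζ a s)
    (hreg : ∀ n z, 0 < z.re → y a s (n + 1) / 2 ≤ ‖z‖ → ‖z‖ ≤ y a s n →
      ‖Bt z - (k + K b (n + 1)) - b (n + 1) (z / (s (n + 1) : ℂ))‖ ≤ 1)
    (hG : ∀ z : ℂ, 0 < z.re → ‖z‖ < 1 → HasDerivAt G (exp (Bt z)) z) :
    ∃ w : ℂ, ∀ n, ‖G (y a s n : ℂ) - w‖ ≤ 24 * C₁ ^ 2 * (a n ^ 2 * PV b s k n) := by
  have hd : ∀ n j, dist (G (y a s (n + j) : ℂ)) (G (y a s (n + (j + 1)) : ℂ)) ≤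
      2 * (12 * C₁ ^ 2 * (a n ^ 2 * PV b s k n)) / 2 / 2 ^ j := fun n j =>
    (S.step hC₁ hδ hreg hG (n + j)).trans (S.geo hC₁ hδ n j)
  have hcs := cauchySeq_of_le_geometric_two (hd 0)
  obtain ⟨w, hw⟩ := cauchySeq_tendsto_of_complete hcs
  refine ⟨w, fun n => ?_⟩
  have hw' : Tendsto (fun j => G (y a s (n + j) : ℂ)) atTop (𝓝 w) := by
    have h1 := hw.comp (tendsto_add_atTop_nat n)
    refine h1.congr fun j => ?_
    show G (y a s (0 + (j + n)) : ℂ) = _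
    rw [zero_add, add_comm]
  have h2 := dist_le_of_le_geometric_two_of_tendsto₀ (hd n) hw'
  rw [add_zero, dist_eq_norm] at h2
  linarith

/-! ### the value is taken at scale `n` -/

/-- `G` seen at scale `n` -/
noncomputable def HH (b : ℕ → ℂ → ℂ) (s : ℕ → ℝ) (k : ℂ) (G : ℂ → ℂ) (n : ℕ) (v : ℂ) : ℂ :=
  ((s n : ℂ) * exp (k + K b n))⁻¹ * G ((s n : ℂ) * v)

theorem SeqV.sK_ne (S : SeqV C₁ η δ b φ g ζ a s) (k : ℂ) (n : ℕ) :
    (s n : ℂ) * exp (k + K b n) ≠ 0 :=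
  mul_ne_zero (ofReal_ne_zero.2 (S.s_pos n).ne') (exp_ne_zero _)

theorem SeqV.hasDerivAt_HH (S : SeqV C₁ η δ b φ g ζ a s)
    (hG : ∀ z : ℂ, 0 < z.re → ‖z‖ < 1 → HasDerivAt G (exp (Bt z)) z) {n : ℕ} {v : ℂ}
    (hv0 : 0 < v.re) (hv1 : s n * ‖v‖ < 1) :
    HasDerivAt (HH b s k G n) (exp (Bt ((s n : ℂ) * v) - (k + K b n))) v := by
  have hs := S.s_pos n
  have hsne : (s n : ℂ) ≠ 0 := ofReal_ne_zero.2 hs.ne'
  have h1 : HasDerivAt (fun v : ℂ => (s n : ℂ) * v) (s n : ℂ) v := by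
    simpa using (hasDerivAt_id v).const_mul (s n : ℂ)
  have h0 := hG ((s n : ℂ) * v) (by rw [re_ofReal_mul]; exact mul_pos hs hv0)
    (by rw [norm_mul, norm_real, Real.norm_eq_abs, abs_of_pos hs]; exact hv1)
  have h2 := (h0.comp v h1).const_mul (((s n : ℂ) * exp (k + K b n))⁻¹)
  refine h2.congr_deriv ?_
  rw [exp_sub]
  have := exp_ne_zero (k + K b n)
  field_simp

/-- comparison with the `n`-th fold -/
theorem SeqV.close (S : SeqV C₁ η δ b φ g ζ a s)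
    (hclose : ∀ n z, 0 < z.re → y a s n / 2 ≤ ‖z‖ → ‖z‖ ≤ 2 * C₁ * s n →
      ‖Bt z - (k + K b n) - b n (z / (s n : ℂ))‖ ≤ 1 / 1000 ∧
      ‖exp (Bt z - (k + K b n) - b n (z / (s n : ℂ))) - (1 - 2 * z)‖ ≤ a n / (1000 * C₁ ^ 3))
    {n : ℕ} {v : ℂ} (hv0 : 0 < v.re) (hv1 : a n ^ 3 / 2 ≤ ‖v‖) (hv2 : ‖v‖ ≤ 2 * C₁) :
    ‖Bt ((s n : ℂ) * v) - (k + K b n) - b n v‖ ≤ 1 / 1000 ∧
      ‖exp (Bt ((s n : ℂ) * v) - (k + K b n) - b n v) - (1 - 2 * ((s n : ℂ) * v))‖ ≤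
        a n / (1000 * C₁ ^ 3) := by
  have hs := S.s_pos n
  have hsne : (s n : ℂ) ≠ 0 := ofReal_ne_zero.2 hs.ne'
  have hn : ‖(s n : ℂ) * v‖ = s n * ‖v‖ := by
    rw [norm_mul, norm_real, Real.norm_eq_abs, abs_of_pos hs]
  have h1 := hclose n ((s n : ℂ) * v) (by rw [re_ofReal_mul]; exact mul_pos hs hv0)
    (by
      rw [hn]
      calc y a s n / 2 = s n * (a n ^ 3 / 2) := by unfold y; ring
        _ ≤ s n * ‖v‖ := mul_le_mul_of_nonneg_left hv1 hs.le)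
    (by
      rw [hn]
      calc s n * ‖v‖ ≤ s n * (2 * C₁) := mul_le_mul_of_nonneg_left hv2 hs.le
        _ = 2 * C₁ * s n := by ring)
  rwa [mul_div_cancel_left₀ _ hsne] at h1

theorem SeqV.compare (S : SeqV C₁ η δ b φ g ζ a s)
    (hclose : ∀ n z, 0 < z.re → y a s n / 2 ≤ ‖z‖ → ‖z‖ ≤ 2 * C₁ * s n →
      ‖Bt z - (k + K b n) - b n (z / (s n : ℂ))‖ ≤ 1 / 1000 ∧
      ‖exp (Bt z - (k + K b n) - b n (z / (s n : ℂ))) - (1 - 2 * z)‖ ≤ a n / (1000 * C₁ ^ 3))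
    {n : ℕ} {v : ℂ} (hv0 : 0 < v.re) (hv1 : a n ^ 3 / 2 ≤ ‖v‖) (hv2 : ‖v‖ ≤ 2 * C₁) :
    ‖exp (Bt ((s n : ℂ) * v) - (k + K b n)) - exp (b n v) * (1 - 2 * (s n : ℂ) * v)‖ ≤
      ‖exp (b n v)‖ * (a n / (1000 * C₁ ^ 3)) := by
  have h1 := (S.close hclose hv0 hv1 hv2).2
  have e1 : exp (Bt ((s n : ℂ) * v) - (k + K b n)) - exp (b n v) * (1 - 2 * (s n : ℂ) * v) =
      exp (b n v) * (exp (Bt ((s n : ℂ) * v) - (k + K b n) - b n v) -
        (1 - 2 * ((s n : ℂ) * v))) := by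
    have e2 : exp (Bt ((s n : ℂ) * v) - (k + K b n)) =
        exp (b n v) * exp (Bt ((s n : ℂ) * v) - (k + K b n) - b n v) := by
      rw [← exp_add]
      congr 1
      ring
    rw [e2]
    ring
  rw [e1, norm_mul]
  exact mul_le_mul_of_nonneg_left h1 (norm_nonneg _)

/-- (Q1) -/
theorem SeqV.Q1 (hC₁ : 100 ≤ C₁) (hδ : δ ≤ 1 / (10000 * C₁ ^ 4))
    (S : SeqV C₁ η δ b φ g ζ a s)
    (hclose : ∀ n z, 0 < z.re → y a s n / 2 ≤ ‖z‖ → ‖z‖ ≤ 2 * C₁ * s n →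
      ‖Bt z - (k + K b n) - b n (z / (s n : ℂ))‖ ≤ 1 / 1000 ∧
      ‖exp (Bt z - (k + K b n) - b n (z / (s n : ℂ))) - (1 - 2 * z)‖ ≤ a n / (1000 * C₁ ^ 3))
    (hG : ∀ z : ℂ, 0 < z.re → ‖z‖ < 1 → HasDerivAt G (exp (Bt z)) z) (n : ℕ) :
    ‖HH b s k G n (ζ n) - HH b s k G n ((a n ^ 3 : ℝ) : ℂ)‖ ≤
      a n / (1000 * C₁ ^ 3) * C₁ + 2 * (C₁ * a n ^ 2) := by
  have hs := S.s_pos n
  have ha := S.a_pos n
  have hp : 0 < a n ^ 3 := by positivity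
  have hC0 : 0 < C₁ := by linarith
  obtain ⟨_, hssm, hCs, _⟩ := S.small' hC₁ hδ n
  obtain ⟨γ, γ', hγ0, hγ1, hγ⟩ := (S.fold n).path (a n ^ 3) hp le_rfl
  have hpt : ∀ t ∈ Icc (0 : ℝ) 1, 0 < (γ t).re ∧ a n ^ 3 / 2 ≤ ‖γ t‖ ∧ ‖γ t‖ ≤ 2 * C₁ ∧
      s n * ‖γ t‖ < 1 := by
    intro t ht
    obtain ⟨_, h2, h3, _⟩ := hγ t ht
    refine ⟨by linarith, h2.trans (re_le_norm _), by linarith, ?_⟩
    calc s n * ‖γ t‖ ≤ s n * C₁ := mul_le_mul_of_nonneg_left h3 hs.le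
      _ < 1 := by linarith
  have h1 := (convex_Icc (0 : ℝ) 1).norm_image_sub_le_of_norm_hasDerivWithin_le
    (f := fun t => HH b s k G n (γ t) - g n (γ t))
    (f' := fun t => (exp (Bt ((s n : ℂ) * γ t) - (k + K b n)) -
      exp (b n (γ t)) * (1 - 2 * (s n : ℂ) * γ t)) * γ' t)
    (C := a n / (1000 * C₁ ^ 3) * C₁)
    (fun t ht => by
      obtain ⟨e1, e2, e3, e4⟩ := hpt t ht
      obtain ⟨d1, _, _, _⟩ := hγ t ht
      have e5 := (S.hasDerivAt_HH (k := k) hG e1 e4).sub ((S.fold n).dg (γ t) e1.le)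
      exact (HasDerivAt.comp t e5 d1).hasDerivWithinAt)
    (fun t ht => by
      obtain ⟨e1, e2, e3, e4⟩ := hpt t ht
      obtain ⟨_, _, _, d4⟩ := hγ t ht
      have e5 := S.compare hclose e1 e2 e3
      rw [norm_mul]
      calc ‖exp (Bt ((s n : ℂ) * γ t) - (k + K b n)) -
            exp (b n (γ t)) * (1 - 2 * (s n : ℂ) * γ t)‖ * ‖γ' t‖
          ≤ ‖exp (b n (γ t))‖ * (a n / (1000 * C₁ ^ 3)) * ‖γ' t‖ :=
            mul_le_mul_of_nonneg_right e5 (norm_nonneg _)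
        _ = a n / (1000 * C₁ ^ 3) * (‖exp (b n (γ t))‖ * ‖γ' t‖) := by ring
        _ ≤ a n / (1000 * C₁ ^ 3) * C₁ :=
            mul_le_mul_of_nonneg_left d4 (by positivity))
    (left_mem_Icc.2 zero_le_one) (right_mem_Icc.2 zero_le_one)
  simp only [hγ0, hγ1, sub_zero, norm_one, mul_one] at h1
  have ha1 : a n ^ 3 ≤ 1 := by
    obtain ⟨q1, _, _, _⟩ := S.small' hC₁ hδ n
    exact pow_le_one₀ ha.le (by linarith)
  have h2 : ‖g n ((a n ^ 3 : ℝ) : ℂ) - g n 0‖ ≤ C₁ / a n * 2 * a n ^ 3 := by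
    have hHc : Convex ℝ ({v : ℂ | (0 : ℝ) ≤ v.re} ∩ Metric.closedBall (0 : ℂ) 1) :=
      (convex_halfSpace_re_ge 0).inter (convex_closedBall _ _)
    have m0 : (0 : ℂ) ∈ {v : ℂ | (0 : ℝ) ≤ v.re} ∩ Metric.closedBall (0 : ℂ) 1 := by simp
    have m1 : ((a n ^ 3 : ℝ) : ℂ) ∈ {v : ℂ | (0 : ℝ) ≤ v.re} ∩ Metric.closedBall (0 : ℂ) 1 := by
      refine ⟨?_, ?_⟩
      · show (0 : ℝ) ≤ ((a n ^ 3 : ℝ) : ℂ).re
        rw [ofReal_re]; exact hp.le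
      · rw [mem_closedBall_zero_iff, norm_real, Real.norm_eq_abs, abs_of_pos hp]
        exact ha1
    have h3 := hHc.norm_image_sub_le_of_norm_hasDerivWithin_le
      (f := g n) (f' := fun v => exp (b n v) * (1 - 2 * (s n : ℂ) * v)) (C := C₁ / a n * 2)
      (fun v hv => ((S.fold n).dg v hv.1).hasDerivWithinAt)
      (fun v hv => by
        have q1 := (S.fold n).exp_le v hv.1
        have q2 := hv.2
        rw [mem_closedBall_zero_iff] at q2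
        rw [norm_mul]
        refine mul_le_mul q1 ?_ (norm_nonneg _) (by positivity)
        refine (norm_sub_le _ _).trans ?_
        rw [norm_one, norm_mul, norm_mul, norm_real, Real.norm_eq_abs, abs_of_pos hs]
        norm_num
        nlinarith [norm_nonneg v]) m0 m1
    rwa [sub_zero, norm_real, Real.norm_eq_abs, abs_of_pos hp] at h3
  have h3 : C₁ / a n * 2 * a n ^ 3 = 2 * (C₁ * a n ^ 2) := by field_simp
  rw [h3] at h2
  have h5 : HH b s k G n (ζ n) - HH b s k G n ((a n ^ 3 : ℝ) : ℂ) =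
      ((HH b s k G n (ζ n) - g n (ζ n)) -
        (HH b s k G n ((a n ^ 3 : ℝ) : ℂ) - g n ((a n ^ 3 : ℝ) : ℂ))) -
      (g n ((a n ^ 3 : ℝ) : ℂ) - g n 0) := by
    rw [(S.fold n).hg]; ring
  rw [h5]
  exact (norm_sub_le _ _).trans (add_le_add h1 h2)

/-- numerics -/
theorem num {C a : ℝ} (hC : 100 ≤ C) (ha : 0 < a) (h : C ^ 4 * a ≤ 1 / 10000) :
    24 * C ^ 2 * a ^ 2 + (a / (1000 * C ^ 3) * C + 2 * (C * a ^ 2)) < a / (64 * C ^ 2) := by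
  have hC0 : 0 < C := by linarith
  have hX : 0 < a / C ^ 2 := by positivity
  have e1 : 24 * C ^ 2 * a ^ 2 = 24 * (C ^ 4 * a) * (a / C ^ 2) := by field_simp
  have e2 : a / (1000 * C ^ 3) * C = 1 / 1000 * (a / C ^ 2) := by field_simp
  have e3 : C * a ^ 2 ≤ (C ^ 4 * a) * (a / C ^ 2) := by
    have : (C ^ 4 * a) * (a / C ^ 2) = C ^ 2 * a ^ 2 := by field_simp
    rw [this]
    exact mul_le_mul_of_nonneg_right (by nlinarith) (by positivity)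
  have e4 : a / (64 * C ^ 2) = 1 / 64 * (a / C ^ 2) := by field_simp
  rw [e1, e2, e4]
  have e5 : (C ^ 4 * a) * (a / C ^ 2) ≤ 1 / 10000 * (a / C ^ 2) :=
    mul_le_mul_of_nonneg_right h hX.le
  nlinarith

/-- the value is taken near `s n * ζ n` -/
theorem SeqV.cover (hC₁ : 100 ≤ C₁) (hη : η ≤ 1) (hδ : δ ≤ 1 / (10000 * C₁ ^ 4))
    (S : SeqV C₁ η δ b φ g ζ a s)
    (hclose : ∀ n z, 0 < z.re → y a s n / 2 ≤ ‖z‖ → ‖z‖ ≤ 2 * C₁ * s n →
      ‖Bt z - (k + K b n) - b n (z / (s n : ℂ))‖ ≤ 1 / 1000 ∧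
      ‖exp (Bt z - (k + K b n) - b n (z / (s n : ℂ))) - (1 - 2 * z)‖ ≤ a n / (1000 * C₁ ^ 3))
    (hG : ∀ z : ℂ, 0 < z.re → ‖z‖ < 1 → HasDerivAt G (exp (Bt z)) z) {n : ℕ} {w : ℂ}
    (hw : ‖G (y a s n : ℂ) - w‖ ≤ 24 * C₁ ^ 2 * (a n ^ 2 * PV b s k n)) :
    ∃ z : ℂ, 0 < z.re ∧ ‖z‖ ≤ 2 * C₁ * s n ∧ G z = w := by
  have hs := S.s_pos n
  have ha := S.a_pos n
  have hC0 : 0 < C₁ := by linarith
  obtain ⟨hC4a, _⟩ := S.small hC₁ hδ n
  obtain ⟨hasm, _, hCs, hC2a⟩ := S.small' hC₁ hδ n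
  have hζr := (S.fold n).ζ_re
  have hζn := (S.fold n).ζ_norm
  set ρ : ℝ := (ζ n).re / 8 with hρ
  have hζ0 : 0 < (ζ n).re := lt_of_lt_of_le (by positivity) hζr
  have hρ0 : 0 < ρ := by positivity
  have hζre : (ζ n).re ≤ C₁ := (re_le_norm _).trans hζn
  have ha3 : a n ^ 3 / 2 ≤ 7 / 8 * (ζ n).re := by
    have h1 : a n ^ 3 ≤ a n ^ 2 / C₁ := by
      rw [le_div_iff₀ hC0]
      have h2 : a n * C₁ ≤ 1 := by nlinarith
      calc a n ^ 3 * C₁ = a n ^ 2 * (a n * C₁) := by ring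
        _ ≤ a n ^ 2 * 1 := mul_le_mul_of_nonneg_left h2 (by positivity)
        _ = a n ^ 2 := mul_one _
    linarith
  -- the points of the disc
  have hdisc : ∀ v ∈ Metric.closedBall (ζ n) ρ, 7 / 8 * (ζ n).re ≤ v.re ∧
      ‖v‖ ≤ 9 / 8 * C₁ := by
    intro v hv
    rw [Metric.mem_closedBall, dist_eq_norm] at hv
    constructor
    · have h1 : (ζ n - v).re ≤ ‖ζ n - v‖ := re_le_norm _
      rw [sub_re, norm_sub_rev] at h1
      linarith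
    · calc ‖v‖ = ‖(v - ζ n) + ζ n‖ := by rw [sub_add_cancel]
        _ ≤ ρ + C₁ := (norm_add_le _ _).trans (add_le_add hv hζn)
        _ ≤ 9 / 8 * C₁ := by linarith
  have hdre : ∀ v ∈ Metric.closedBall (ζ n) ρ, 0 < v.re := fun v hv => by
    have := (hdisc v hv).1; linarith
  have hdlow : ∀ v ∈ Metric.closedBall (ζ n) ρ, a n ^ 3 / 2 ≤ ‖v‖ := fun v hv =>
    ha3.trans ((hdisc v hv).1.trans (re_le_norm v))
  have hdup : ∀ v ∈ Metric.closedBall (ζ n) ρ, ‖v‖ ≤ 2 * C₁ := fun v hv => by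
    have := (hdisc v hv).2; linarith
  have hdone : ∀ v ∈ Metric.closedBall (ζ n) ρ, s n * ‖v‖ < 1 := fun v hv => by
    have h1 := mul_le_mul_of_nonneg_left (hdup v hv) hs.le
    linarith
  have hζm : ζ n ∈ Metric.closedBall (ζ n) ρ := Metric.mem_closedBall_self hρ0.le
  have hconv : Convex ℝ (Metric.closedBall (ζ n) ρ) := convex_closedBall _ _
  -- `Bt` is nearly constant on the disc
  have hb : ∀ v ∈ Metric.closedBall (ζ n) ρ, ‖b n v - b n (ζ n)‖ ≤ 1 / 8 := by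
    intro v hv
    have h1 := hconv.norm_image_sub_le_of_norm_hasDerivWithin_le
      (f := b n) (f' := φ n) (C := 1 / (ζ n).re)
      (fun v hv => ((S.fold n).dβ v (hdre v hv).le).hasDerivWithinAt)
      (fun v hv => by
        have e1 := (S.fold n).norm v (hdre v hv).le
        obtain ⟨e2, e3⟩ := hdisc v hv
        have e4 : v.re ≤ 9 / 8 * C₁ := (re_le_norm v).trans e3
        have e5 : (2 + η) * s n * v.re ≤ 1 / 100 := by
          have q0 : 0 ≤ s n * v.re := mul_nonneg hs.le (hdre v hv).le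
          calc (2 + η) * s n * v.re = (2 + η) * (s n * v.re) := by ring
            _ ≤ 3 * (s n * v.re) := mul_le_mul_of_nonneg_right (by linarith) q0
            _ ≤ 3 * (s n * (9 / 8 * C₁)) :=
                mul_le_mul_of_nonneg_left (mul_le_mul_of_nonneg_left e4 hs.le) (by norm_num)
            _ = 27 / 8 * (C₁ * s n) := by ring
            _ ≤ 1 / 100 := by linarith
        rw [le_div_iff₀ hζ0]
        have e6 : 0 ≤ ‖φ n v‖ := norm_nonneg _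
        have e7 : 7 / 8 * (ζ n).re * ‖φ n v‖ ≤ v.re * ‖φ n v‖ :=
          mul_le_mul_of_nonneg_right e2 e6
        linarith) hζm hv
    refine h1.trans ?_
    rw [Metric.mem_closedBall, dist_eq_norm] at hv
    calc 1 / (ζ n).re * ‖v - ζ n‖ ≤ 1 / (ζ n).re * ρ :=
          mul_le_mul_of_nonneg_left hv (by positivity)
      _ = 1 / 8 := by rw [hρ]; field_simp
  have hu : ∀ v ∈ Metric.closedBall (ζ n) ρ,
      ‖Bt ((s n : ℂ) * v) - Bt ((s n : ℂ) * ζ n)‖ ≤ 1 / 4 := by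
    intro v hv
    have h1 := (S.close hclose (hdre v hv) (hdlow v hv) (hdup v hv)).1
    have h2 := (S.close hclose (hdre _ hζm) (hdlow _ hζm) (hdup _ hζm)).1
    have h3 := hb v hv
    have e : Bt ((s n : ℂ) * v) - Bt ((s n : ℂ) * ζ n) =
        (Bt ((s n : ℂ) * v) - (k + K b n) - b n v) -
          (Bt ((s n : ℂ) * ζ n) - (k + K b n) - b n (ζ n)) + (b n v - b n (ζ n)) := by ring
    rw [e]
    refine (norm_add_le _ _).trans ?_
    have h4 := norm_sub_le (Bt ((s n : ℂ) * v) - (k + K b n) - b n v)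
      (Bt ((s n : ℂ) * ζ n) - (k + K b n) - b n (ζ n))
    linarith
  -- lower bound on the circle
  set d : ℂ := exp (Bt ((s n : ℂ) * ζ n) - (k + K b n)) with hd
  have hdn : 1 / (C₁ * a n) * (1 / 2) ≤ ‖d‖ := by
    have h2 := (S.close hclose (hdre _ hζm) (hdlow _ hζm) (hdup _ hζm)).1
    have h3 := (S.fold n).exp_ζ
    have e : Bt ((s n : ℂ) * ζ n) - (k + K b n) =
        b n (ζ n) + (Bt ((s n : ℂ) * ζ n) - (k + K b n) - b n (ζ n)) := by ring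
    rw [hd, e, exp_add, norm_mul]
    refine mul_le_mul h3 ?_ (by norm_num) (norm_nonneg _)
    rw [norm_exp]
    have h4 := (abs_le.1 ((abs_re_le_norm _).trans h2)).1
    have h5 := Real.add_one_le_exp (Bt ((s n : ℂ) * ζ n) - (k + K b n) - b n (ζ n)).re
    linarith
  have hlow : ∀ v ∈ Metric.sphere (ζ n) ρ,
      ‖d‖ * ρ / 2 ≤ ‖HH b s k G n v - HH b s k G n (ζ n)‖ := by
    intro v hv
    have hv' := Metric.sphere_subset_closedBall hv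
    have h1 := hconv.norm_image_sub_le_of_norm_hasDerivWithin_le
      (f := fun v => HH b s k G n v - d * v)
      (f' := fun v => exp (Bt ((s n : ℂ) * v) - (k + K b n)) - d) (C := ‖d‖ / 2)
      (fun v hv => by
        have e1 : HasDerivAt (fun v : ℂ => d * v) d v := by
          simpa using (hasDerivAt_id v).const_mul d
        exact ((S.hasDerivAt_HH hG (hdre v hv) (hdone v hv)).sub e1).hasDerivWithinAt)
      (fun v hv => by
        have e1 : exp (Bt ((s n : ℂ) * v) - (k + K b n)) - d =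
            d * (exp (Bt ((s n : ℂ) * v) - Bt ((s n : ℂ) * ζ n)) - 1) := by
          rw [hd, mul_sub, ← exp_add, mul_one]
          congr 2
          ring
        rw [e1, norm_mul, div_eq_mul_inv]
        refine mul_le_mul_of_nonneg_left ?_ (norm_nonneg _)
        have e2 := hu v hv
        have e3 := norm_exp_sub_one_le (e2.trans (by norm_num : (1 : ℝ) / 4 ≤ 1))
        norm_num
        linarith) hζm hv'
    rw [mem_sphere_iff_norm] at hv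
    rw [hv] at h1
    have h2 : d * (v - ζ n) = (HH b s k G n v - HH b s k G n (ζ n)) -
        ((HH b s k G n v - d * v) - (HH b s k G n (ζ n) - d * ζ n)) := by ring
    have h3 := norm_sub_le (HH b s k G n v - HH b s k G n (ζ n))
      ((HH b s k G n v - d * v) - (HH b s k G n (ζ n) - d * ζ n))
    rw [← h2, norm_mul, hv] at h3
    linarith
  have hDC : DiffContOnCl ℂ (HH b s k G n) (Metric.ball (ζ n) ρ) := by
    refine DifferentiableOn.diffContOnCl_ball (U := Metric.closedBall (ζ n) ρ) ?_ Subset.rfl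
    exact fun v hv =>
      (S.hasDerivAt_HH hG (hdre v hv) (hdone v hv)).differentiableAt.differentiableWithinAt
  have hfr : ∃ᶠ v in 𝓝 (ζ n), HH b s k G n v ≠ HH b s k G n (ζ n) := by
    have h3 : ∀ᶠ v in 𝓝[≠] (ζ n), HH b s k G n v ≠ HH b s k G n (ζ n) :=
      (S.hasDerivAt_HH hG (hdre _ hζm) (hdone _ hζm)).eventually_ne (exp_ne_zero _)
    exact h3.frequently.filter_mono nhdsWithin_le_nhds
  have himg := hDC.ball_subset_image_closedBall hρ0 hlow hfr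
  -- the target
  have hQ1 := S.Q1 hC₁ hδ hclose hG n
  have hx : HH b s k G n ((a n ^ 3 : ℝ) : ℂ) =
      ((s n : ℂ) * exp (k + K b n))⁻¹ * G (y a s n : ℂ) := by
    unfold HH y
    rw [ofReal_mul]
  have hPn : ‖((s n : ℂ) * exp (k + K b n))⁻¹‖ = (PV b s k n)⁻¹ := by
    unfold PV
    rw [norm_inv, norm_mul, norm_real, Real.norm_eq_abs, abs_of_pos hs]
  have hP := S.PV_pos k n
  have htar : ‖((s n : ℂ) * exp (k + K b n))⁻¹ * w - HH b s k G n (ζ n)‖ <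
      a n / (64 * C₁ ^ 2) := by
    have h1 : ((s n : ℂ) * exp (k + K b n))⁻¹ * w - HH b s k G n (ζ n) =
        -(((s n : ℂ) * exp (k + K b n))⁻¹ * (G (y a s n : ℂ) - w)) -
          (HH b s k G n (ζ n) - HH b s k G n ((a n ^ 3 : ℝ) : ℂ)) := by
      rw [hx]; ring
    have h2 : ‖((s n : ℂ) * exp (k + K b n))⁻¹ * (G (y a s n : ℂ) - w)‖ ≤
        24 * C₁ ^ 2 * a n ^ 2 := by
      rw [norm_mul, hPn]
      calc (PV b s k n)⁻¹ * ‖G (y a s n : ℂ) - w‖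
          ≤ (PV b s k n)⁻¹ * (24 * C₁ ^ 2 * (a n ^ 2 * PV b s k n)) :=
            mul_le_mul_of_nonneg_left hw (inv_nonneg.2 hP.le)
        _ = 24 * C₁ ^ 2 * a n ^ 2 := by field_simp
    rw [h1]
    refine lt_of_le_of_lt (norm_sub_le _ _) ?_
    rw [norm_neg]
    exact lt_of_le_of_lt (add_le_add h2 hQ1) (num hC₁ ha hC4a)
  have hrad : a n / (64 * C₁ ^ 2) ≤ ‖d‖ * ρ / 2 / 2 := by
    have h1 : a n ^ 2 / C₁ / 8 ≤ ρ := by rw [hρ]; linarith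
    have h2 := mul_le_mul hdn h1 (by positivity) (norm_nonneg d)
    have h3 : 1 / (C₁ * a n) * (1 / 2) * (a n ^ 2 / C₁ / 8) / 2 / 2 = a n / (64 * C₁ ^ 2) := by
      field_simp
      norm_num
    linarith
  have hmem : ((s n : ℂ) * exp (k + K b n))⁻¹ * w ∈
      Metric.ball (HH b s k G n (ζ n)) (‖d‖ * ρ / 2 / 2) := by
    rw [Metric.mem_ball, dist_eq_norm]
    exact lt_of_lt_of_le htar hrad
  obtain ⟨v, hv, hvw⟩ := himg hmem
  refine ⟨(s n : ℂ) * v, ?_, ?_, ?_⟩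
  · rw [re_ofReal_mul]; exact mul_pos hs (hdre v hv)
  · rw [norm_mul, norm_real, Real.norm_eq_abs, abs_of_pos hs]
    have h1 := mul_le_mul_of_nonneg_left (hdup v hv) hs.le
    linarith
  · exact mul_left_cancel₀ (inv_ne_zero (S.sK_ne k n)) hvw

/-- V: a value taken at every scale. -/
theorem value_T {C₁ η : ℝ} (hC₁ : 100 ≤ C₁) (hη : η ≤ 1) {δ : ℝ}
    (hδ : δ ≤ 1 / (10000 * C₁ ^ 4))
    {b φ g : ℕ → ℂ → ℂ} {ζ : ℕ → ℂ} {a s : ℕ → ℝ} (S : SeqV C₁ η δ b φ g ζ a s)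
    (Bt G : ℂ → ℂ) (k : ℂ)
    (hclose : ∀ n z, 0 < z.re → y a s n / 2 ≤ ‖z‖ → ‖z‖ ≤ 2 * C₁ * s n →
      ‖Bt z - k - K b n - b n (z / (s n : ℂ))‖ ≤ 1 / 1000 ∧
      ‖exp (Bt z - k - K b n - b n (z / (s n : ℂ))) - (1 - 2 * z)‖ ≤ a n / (1000 * C₁ ^ 3))
    (hreg : ∀ n z, 0 < z.re → y a s (n + 1) / 2 ≤ ‖z‖ → ‖z‖ ≤ y a s n →
      ‖Bt z - k - K b (n + 1) - b (n + 1) (z / (s (n + 1) : ℂ))‖ ≤ 1)
    (hG : ∀ z : ℂ, 0 < z.re → ‖z‖ < 1 → HasDerivAt G (exp (Bt z)) z) :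
    ∃ w : ℂ, ∀ n, ∃ z : ℂ, 0 < z.re ∧ ‖z‖ ≤ 2 * C₁ * s n ∧ G z = w := by
  have hclose' : ∀ n z, 0 < z.re → y a s n / 2 ≤ ‖z‖ → ‖z‖ ≤ 2 * C₁ * s n →
      ‖Bt z - (k + K b n) - b n (z / (s n : ℂ))‖ ≤ 1 / 1000 ∧
      ‖exp (Bt z - (k + K b n) - b n (z / (s n : ℂ))) - (1 - 2 * z)‖ ≤
        a n / (1000 * C₁ ^ 3) := by
    intro n z h1 h2 h3
    rw [← sub_sub]
    exact hclose n z h1 h2 h3
  have hreg' : ∀ n z, 0 < z.re → y a s (n + 1) / 2 ≤ ‖z‖ → ‖z‖ ≤ y a s n →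
      ‖Bt z - (k + K b (n + 1)) - b (n + 1) (z / (s (n + 1) : ℂ))‖ ≤ 1 := by
    intro n z h1 h2 h3
    rw [← sub_sub]
    exact hreg n z h1 h2 h3
  obtain ⟨w, hw⟩ := S.limit hC₁ hδ hreg' hG
  exact ⟨w, fun n => S.cover hC₁ hη hδ hclose' hG (hw n)⟩

end Pool.Agent.H50.IT
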