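import Mathlib
import Pool.Agent.H50.IT.Norm
import Pool.Agent.H50.IT.Exists
import Pool.Agent.H50.IT.Value
import Pool.Agent.H50.IH.Dense

/-! # Sharp threshold: the assembly -/

open Complex Set Filter Topology

namespace Pool.Agent.H50.IT

open Pool.Agent.H50.IS (y K)
open Pool.Agent.H50.IH

section

variable {C₁ η μ θ δ : ℝ} {b φ g : ℕ → ℂ → ℂ} {ζ : ℕ → ℂ} {a s M L : ℕ → ℝ}
  (S : Seq C₁ η μ θ δ b φ g ζ a s M L) (hC₁ : 100 ≤ C₁) (hδ : δ ≤ 1 / (10000 * C₁ ^ 4))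

include S hC₁ hδ in
lemma Seq.hasDerivAt_B' {z : ℂ} (hz : 0 < z.re) :
    HasDerivAt (B C₁ b φ a s) (B' C₁ φ a s z) z := by
  obtain ⟨n, hn, -⟩ := S.exists_y hC₁ hδ hz
  exact S.hasDerivAt_B hC₁ hδ hz hn

end

/-- `f₁` near the point `1` -/
lemma smooth_near {N : ℝ} (hN : 0 ≤ N) {f₁ : ℂ → ℂ}
    (h1 : ∀ z : ℂ, ‖z‖ ≤ 1 → DifferentiableAt ℂ f₁ z ∧ ‖deriv f₁ z‖ ≤ N * ‖1 - z‖)
    {v : ℂ} (hv : 0 < v.re) : ‖f₁ (U v) - f₁ 1‖ ≤ 4 * N * ‖v‖ ^ 2 := by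
  have e2 := U_sub_one hv
  have hconv : Convex ℝ (Metric.closedBall (0 : ℂ) 1 ∩ Metric.closedBall 1 ‖U v - 1‖) :=
    (convex_closedBall _ _).inter (convex_closedBall _ _)
  have e1 : ‖f₁ (U v) - f₁ 1‖ ≤ N * ‖U v - 1‖ * ‖U v - 1‖ := by
    refine hconv.norm_image_sub_le_of_norm_deriv_le (f := f₁)
      (fun x hx => (h1 x (by simpa using hx.1)).1) (fun x hx => ?_)
      ⟨by simp, by simp⟩ ⟨?_, ?_⟩
    · refine (h1 x (by simpa using hx.1)).2.trans ?_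
      have := hx.2
      rw [Metric.mem_closedBall, dist_eq_norm] at this
      rw [norm_sub_rev]
      gcongr
    · rw [mem_closedBall_zero_iff]
      exact (norm_U_lt hv).le
    · rw [Metric.mem_closedBall, dist_eq_norm]
  have e3 : N * ‖U v - 1‖ * ‖U v - 1‖ ≤ N * (2 * ‖v‖) * (2 * ‖v‖) := by gcongr
  calc ‖f₁ (U v) - f₁ 1‖ ≤ N * (2 * ‖v‖) * (2 * ‖v‖) := e1.trans e3
    _ = 4 * N * ‖v‖ ^ 2 := by ring

/-- the perturbation -/
lemma pert_le {N : ℝ} (hN : 0 ≤ N) {f₁ : ℂ → ℂ}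
    (h1 : ∀ z : ℂ, ‖z‖ ≤ 1 → DifferentiableAt ℂ f₁ z ∧ ‖deriv f₁ z‖ ≤ N * ‖1 - z‖)
    {v : ℂ} (hv : 0 < v.re) (hv2 : ‖v‖ ≤ 1 / 2) :
    ‖(f₁ (U v) - 2 * log (1 + v)) - f₁ 1 + 2 * v‖ ≤ (4 * N + 2) * ‖v‖ ^ 2 := by
  have e1 := smooth_near hN h1 hv
  have e2 := Complex.norm_log_one_add_sub_self_le (z := v) (by linarith)
  have e3 : (f₁ (U v) - 2 * log (1 + v)) - f₁ 1 + 2 * v =
      (f₁ (U v) - f₁ 1) - 2 * (log (1 + v) - v) := by ring
  rw [e3]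
  have e4 : ‖2 * (log (1 + v) - v)‖ ≤ 2 * ‖v‖ ^ 2 := by
    rw [norm_mul]
    have h2 : ‖(2 : ℂ)‖ = 2 := by simp
    rw [h2]
    have h3 : (1 - ‖v‖)⁻¹ ≤ 2 := by
      rw [inv_le_comm₀ (by linarith) (by norm_num)]
      linarith
    have h4 : ‖v‖ ^ 2 * (1 - ‖v‖)⁻¹ / 2 ≤ ‖v‖ ^ 2 * 2 / 2 := by gcongr
    linarith
  have e5 := norm_sub_le (f₁ (U v) - f₁ 1) (2 * (log (1 + v) - v))
  linarith

/-- the comparison with `1 - 2 v` -/
lemma exp_near {X v : ℂ} {E c : ℝ} (hq : ‖X + 2 * v‖ ≤ E) (hE : E ≤ c) (hv : 2 * ‖v‖ ≤ c)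
    (hc : 2 * c ≤ 1) : ‖exp X - (1 - 2 * v)‖ ≤ 4 * c ^ 2 + E := by
  have hX : ‖X‖ ≤ 2 * c := by
    have e1 : X = (X + 2 * v) - 2 * v := by ring
    have e2 := norm_sub_le (X + 2 * v) (2 * v)
    rw [← e1, norm_mul] at e2
    have h2 : ‖(2 : ℂ)‖ = 2 := by simp
    rw [h2] at e2
    linarith
  have e3 : exp X - (1 - 2 * v) = (exp X - 1 - X) + (X + 2 * v) := by ring
  rw [e3]
  have e4 := Complex.norm_exp_sub_one_sub_id_le (x := X) (hX.trans hc)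
  have e5 := norm_add_le (exp X - 1 - X) (X + 2 * v)
  have e6 : ‖X‖ ^ 2 ≤ (2 * c) ^ 2 := by gcongr
  nlinarith


lemma norm_near {X v : ℂ} {E c : ℝ} (hq : ‖X + 2 * v‖ ≤ E) (hE : E ≤ c) (hv : 2 * ‖v‖ ≤ c) :
    ‖X‖ ≤ 2 * c := by
  have e1 : X = (X + 2 * v) - 2 * v := by ring
  have e2 := norm_sub_le (X + 2 * v) (2 * v)
  rw [← e1, norm_mul] at e2
  have h2 : ‖(2 : ℂ)‖ = 2 := by simp
  rw [h2] at e2
  linarith

/-- real part of `U` near `1` -/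
lemma U_re_near {z : ℂ} {d : ℝ} (hz : ‖z‖ < 1) (hd : ‖1 - z‖ ≤ d) (hd' : d ≤ 1 / 4) :
    2 * (U z).re ≤ (1 + 2 * d) * (1 - ‖z‖) := by
  have hd0 : 0 ≤ d := (norm_nonneg _).trans hd
  have h1 : 2 - d ≤ ‖1 + z‖ := by
    have e : (2 : ℂ) = (1 - z) + (1 + z) := by ring
    have h2 := norm_add_le (1 - z) (1 + z)
    rw [← e] at h2
    have h3 : ‖(2 : ℂ)‖ = 2 := by simp
    rw [h3] at h2
    linarith
  have h0 : 0 < 2 - d := by linarith
  have hp : 0 < ‖1 + z‖ ^ 2 := by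
    have : 0 < ‖1 + z‖ := by linarith
    positivity
  rw [U_re, ← mul_div_assoc, div_le_iff₀ hp]
  have h4 : (2 - d) ^ 2 ≤ ‖1 + z‖ ^ 2 := by gcongr
  have hz1 : 0 < 1 - ‖z‖ := by linarith
  have h5 : 4 ≤ (1 + 2 * d) * (2 - d) ^ 2 := by
    have e1 : (1 + 2 * d) * (2 - d) ^ 2 = 4 + d * (4 - 7 * d + 2 * d ^ 2) := by ring
    have e2 : 0 ≤ 4 - 7 * d + 2 * d ^ 2 := by nlinarith
    have e3 := mul_nonneg hd0 e2
    linarith
  have h6 : (1 + 2 * d) * (2 - d) ^ 2 ≤ (1 + 2 * d) * ‖1 + z‖ ^ 2 := by gcongr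
  have h7 : 2 * (1 - ‖z‖ ^ 2) ≤ 4 * (1 - ‖z‖) := by nlinarith [norm_nonneg z]
  calc 2 * (1 - ‖z‖ ^ 2) ≤ 4 * (1 - ‖z‖) := h7
    _ ≤ ((1 + 2 * d) * ‖1 + z‖ ^ 2) * (1 - ‖z‖) := by
        apply mul_le_mul_of_nonneg_right _ hz1.le
        linarith
    _ = _ := by ring

/-- Density in the class, for a smooth function `f₁` which is flat at `1`. -/
theorem dense_aux {C₁ : ℝ} (hC₁ : 100 ≤ C₁)
    (hF : ∀ η > 0, ∃ μ, 0 < μ ∧ μ ≤ 1 ∧ ∃ s₀ > 0, ∀ s, 0 < s → s ≤ s₀ →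
      ∃ (β φ g : ℂ → ℂ) (ζ : ℂ), Fold C₁ η (μ * s) s β φ g ζ)
    {C r κ N : ℝ} (hC : 1 < C) (hr : 1 < r) (hκ : 0 < κ) (hN : 0 ≤ N) {f₁ : ℂ → ℂ}
    (h10 : f₁ 0 = 0) (h1 : ∀ z : ℂ, ‖z‖ ≤ 1 → DifferentiableAt ℂ f₁ z ∧
      ‖deriv f₁ z‖ ≤ N * ‖1 - z‖ ∧ (1 - ‖z‖ ^ 2) * ‖deriv f₁ z‖ ≤ r - κ ∧
      (1 - ‖z‖ ^ 2) * ‖deriv f₁ z‖ ≤ 1 - κ + C * (1 - ‖z‖))
    {ρ₀ : ℝ} (hρ₀ : ρ₀ < 1) {e : ℝ} (he : 0 < e) :
    ∃ f g : ℂ → ℂ, DifferentiableOn ℂ f (Metric.ball 0 1) ∧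
    f 0 = 0 ∧ g 0 = 0 ∧ (∀ z ∈ Metric.ball (0 : ℂ) 1, HasDerivAt g (exp (f z)) z) ∧
    (∃ r' < r, ∀ z ∈ Metric.ball (0 : ℂ) 1, (1 - ‖z‖ ^ 2) * ‖deriv f z‖ ≤ r') ∧
    (∀ z ∈ Metric.ball (0 : ℂ) 1, (1 - ‖z‖ ^ 2) * ‖deriv f z‖ ≤ 1 + C * (1 - ‖z‖)) ∧
    (∀ z : ℂ, ‖z‖ ≤ ρ₀ → ‖f z - f₁ z‖ < e) ∧
    ∃ w : ℂ, {z ∈ Metric.ball (0 : ℂ) 1 | g z = w}.Infinite := by
  have hC0 : 0 < C₁ := by linarith
  obtain ⟨c, hc0, hcC, hcr, hc4⟩ : ∃ c : ℝ, 0 < c ∧ 1 + 4 * c ≤ C ∧ 1 + 4 * c ≤ r ∧ c ≤ 1 / 4 := by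
    refine ⟨min ((C - 1) / 4) (min ((r - 1) / 4) (1 / 4)), ?_, ?_, ?_, ?_⟩
    · exact lt_min (by linarith) (lt_min (by linarith) (by norm_num))
    · have := min_le_left ((C - 1) / 4) (min ((r - 1) / 4) (1 / 4))
      linarith
    · have := (min_le_right ((C - 1) / 4) (min ((r - 1) / 4) (1 / 4))).trans (min_le_left _ _)
      linarith
    · exact (min_le_right ((C - 1) / 4) (min ((r - 1) / 4) (1 / 4))).trans (min_le_right _ _)
  obtain ⟨μ, hμ, hμ1, s₀, hs₀, hF'⟩ := hF c hc0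
  set θ : ℝ := min (c / (80 * C₁)) (μ / (2000 * C₁ ^ 4)) with hθdef
  have hθ0 : 0 < θ := lt_min (by positivity) (by positivity)
  have hθ1 : 40 * C₁ * θ ≤ c / 2 := by
    have h := min_le_left (c / (80 * C₁)) (μ / (2000 * C₁ ^ 4))
    rw [← hθdef, le_div_iff₀ (by positivity)] at h
    linarith
  have hθ2 : θ * (2000 * C₁ ^ 4) ≤ μ := by
    have h := min_le_right (c / (80 * C₁)) (μ / (2000 * C₁ ^ 4))
    rw [← hθdef, le_div_iff₀ (by positivity)] at h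
    linarith
  have hθle : θ ≤ 1 := by nlinarith
  set δ' : ℝ := c / (4 * (N + 1)) with hδ'
  have hδ'0 : 0 < δ' := by positivity
  have hδ'c : 4 * δ' ≤ c := by
    have : 4 * δ' = c / (N + 1) := by rw [hδ']; field_simp
    rw [this]
    exact div_le_self hc0.le (by linarith)
  have hδN : 2 * δ' * N ≤ c / 2 := by
    have : 2 * δ' * N = c / 2 * (N / (N + 1)) := by
      rw [hδ']; field_simp; norm_num
    rw [this]
    have : N / (N + 1) ≤ 1 := by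
      rw [div_le_one (by linarith)]; linarith
    nlinarith
  have hρ1 : 0 < 1 - ρ₀ := by linarith
  obtain ⟨δ, hδ0, hδ1, hδ2, hδ3, hδ4, hδ5, hδ6, hδ7, hδ8⟩ : ∃ δ : ℝ, 0 < δ ∧
      δ ≤ 1 / (10000 * C₁ ^ 4) ∧ δ ≤ s₀ ∧ δ ≤ κ * δ' / (32 * C₁) ∧ δ ≤ δ' / (16 * C₁) ∧
      δ ≤ e * (1 - ρ₀) / (32 * C₁) ∧ δ ≤ (1 - ρ₀) / (16 * C₁) ∧ δ ≤ c / 16 ∧
      δ ≤ μ / (1000000 * C₁ ^ 5 * (N + 1)) := by
    have a1 : 0 < 1 / (10000 * C₁ ^ 4) := by positivity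
    have a3 : 0 < κ * δ' / (32 * C₁) := by positivity
    have a4 : 0 < δ' / (16 * C₁) := by positivity
    have a5 : 0 < e * (1 - ρ₀) / (32 * C₁) := by positivity
    have a6 : 0 < (1 - ρ₀) / (16 * C₁) := by positivity
    have a7 : 0 < c / 16 := by positivity
    have a8 : 0 < μ / (1000000 * C₁ ^ 5 * (N + 1)) := by positivity
    refine ⟨min (min (min (1 / (10000 * C₁ ^ 4)) s₀)
      (min (κ * δ' / (32 * C₁)) (δ' / (16 * C₁))))
      (min (min (e * (1 - ρ₀) / (32 * C₁)) ((1 - ρ₀) / (16 * C₁)))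
        (min (c / 16) (μ / (1000000 * C₁ ^ 5 * (N + 1))))),
      lt_min (lt_min (lt_min a1 hs₀) (lt_min a3 a4)) (lt_min (lt_min a5 a6) (lt_min a7 a8)),
      ?_, ?_, ?_, ?_, ?_, ?_, ?_, ?_⟩
    · exact ((min_le_left _ _).trans (min_le_left _ _)).trans (min_le_left _ _)
    · exact ((min_le_left _ _).trans (min_le_left _ _)).trans (min_le_right _ _)
    · exact ((min_le_left _ _).trans (min_le_right _ _)).trans (min_le_left _ _)
    · exact ((min_le_left _ _).trans (min_le_right _ _)).trans (min_le_right _ _)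
    · exact ((min_le_right _ _).trans (min_le_left _ _)).trans (min_le_left _ _)
    · exact ((min_le_right _ _).trans (min_le_left _ _)).trans (min_le_right _ _)
    · exact ((min_le_right _ _).trans (min_le_right _ _)).trans (min_le_left _ _)
    · exact ((min_le_right _ _).trans (min_le_right _ _)).trans (min_le_right _ _)
  obtain ⟨b, φ, gf, ζ, a, s, M, L, S⟩ := exists_seq hC₁ hμ hμ1 hs₀ hF' hθ0 hθle hδ0 hδ2
  have hδη : 8 * δ ≤ c / 2 := by linarith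
  have hs0 := S.s_pos 0
  have hsδ := S.s_le 0
  have hCδ := C1_mul_δ hC₁ hδ1 hδ0.le
  have h1' : ∀ z : ℂ, ‖z‖ ≤ 1 → DifferentiableAt ℂ f₁ z ∧ ‖deriv f₁ z‖ ≤ N * ‖1 - z‖ :=
    fun z hz => ⟨(h1 z hz).1, (h1 z hz).2.1⟩
  -- the function
  set k₀ : ℂ := B C₁ b φ a s 1 with hk₀
  set f : ℂ → ℂ := fun z => f₁ z + (B C₁ b φ a s (U z) - k₀) with hf
  have hU0 : U 0 = 1 := by simp [U]
  have hadd : ∀ z : ℂ, ‖z‖ < 1 → 1 + z ≠ 0 := fun z hz => norm_pos_iff.1 (norm_add_pos hz)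
  have hdf : ∀ z : ℂ, ‖z‖ < 1 →
      HasDerivAt f (deriv f₁ z + B' C₁ φ a s (U z) * (-2 / (1 + z) ^ 2)) z := by
    intro z hz
    have h2 := ((S.hasDerivAt_B' hC₁ hδ1 (U_re_pos hz)).comp z
      (hasDerivAt_U (hadd z hz))).sub_const k₀
    exact (h1 z hz.le).1.hasDerivAt.add h2
  have hone : ∀ z : ℂ, ‖z‖ < 1 → 0 ≤ 1 - ‖z‖ ^ 2 := fun z hz => by
    nlinarith [norm_nonneg z]
  have htot : ∀ z : ℂ, ‖z‖ < 1 → (1 - ‖z‖ ^ 2) * ‖deriv f z‖ ≤
      (1 - ‖z‖ ^ 2) * ‖deriv f₁ z‖ + 2 * (U z).re * ‖B' C₁ φ a s (U z)‖ := by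
    intro z hz
    rw [(hdf z hz).deriv]
    have h2 := mul_le_mul_of_nonneg_left
      (norm_add_le (deriv f₁ z) (B' C₁ φ a s (U z) * (-2 / (1 + z) ^ 2))) (hone z hz)
    rw [mul_add, norm_mul] at h2
    have h3 := norm_U_deriv z
    have h4 : (1 - ‖z‖ ^ 2) * (‖B' C₁ φ a s (U z)‖ * ‖-2 / (1 + z) ^ 2‖) =
        2 * (U z).re * ‖B' C₁ φ a s (U z)‖ := by rw [← h3]; ring
    rw [h4] at h2
    exact h2
  -- near `1`
  have hA : ∀ z : ℂ, ‖z‖ < 1 → ‖1 - z‖ ≤ δ' →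
      (1 - ‖z‖ ^ 2) * ‖deriv f z‖ ≤ 1 + (1 + 3 * c) * (1 - ‖z‖) := by
    intro z hz hzd
    have hv : 0 < 1 - ‖z‖ := by linarith
    have hUp := U_re_pos hz
    have e1 := htot z hz
    have e2 : (1 - ‖z‖ ^ 2) * ‖deriv f₁ z‖ ≤ c / 2 * (1 - ‖z‖) := by
      have g1 : 1 - ‖z‖ ^ 2 ≤ 2 * (1 - ‖z‖) := by nlinarith [norm_nonneg z]
      have g2 : ‖deriv f₁ z‖ ≤ N * δ' := (h1 z hz.le).2.1.trans (by gcongr)
      calc (1 - ‖z‖ ^ 2) * ‖deriv f₁ z‖ ≤ (2 * (1 - ‖z‖)) * (N * δ') :=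
            mul_le_mul g1 g2 (norm_nonneg _) (by linarith)
        _ = (2 * δ' * N) * (1 - ‖z‖) := by ring
        _ ≤ c / 2 * (1 - ‖z‖) := by gcongr
    have e3 := U_re_near hz hzd (by linarith)
    have e4 : 2 * (U z).re * ‖B' C₁ φ a s (U z)‖ ≤ 1 + (1 + 2 * c) * (1 - ‖z‖) := by
      rcases S.norm_all hC₁ hδ1 hθ1 hδη hUp with h | ⟨n, hn, h⟩
      · refine h.trans ?_
        have : 0 ≤ (1 + 2 * c) * (1 - ‖z‖) := by positivity
        linarith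
      · refine h.trans ?_
        have g1 : (2 + 2 * c) * (U z).re = (1 + c) * (2 * (U z).re) := by ring
        have g2 : (1 + c) * (2 * (U z).re) ≤ (1 + c) * ((1 + 2 * δ') * (1 - ‖z‖)) := by gcongr
        have g3 : (1 + c) * (1 + 2 * δ') ≤ 1 + 2 * c := by nlinarith
        have g4 : (1 + c) * (1 + 2 * δ') * (1 - ‖z‖) ≤ (1 + 2 * c) * (1 - ‖z‖) := by gcongr
        rw [g1]
        linarith
    have e5 : 0 ≤ c * (1 - ‖z‖) := by positivity
    linarith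
  -- far from `1`
  have hB : ∀ z : ℂ, ‖z‖ < 1 → δ' < ‖1 - z‖ →
      2 * (U z).re * ‖B' C₁ φ a s (U z)‖ ≤ κ / 2 := by
    intro z hz hcase
    have hUp := U_re_pos hz
    have hp := norm_add_pos hz
    have hp2 := norm_add_le_two hz
    have hU : δ' / 2 ≤ ‖U z‖ := by
      rw [norm_U, le_div_iff₀ hp]
      nlinarith
    have hU8 : 8 * C₁ * s 0 ≤ ‖U z‖ := by
      rw [le_div_iff₀ (by positivity)] at hδ4
      nlinarith
    have e2 := S.norm_far hC₁ hδ1 hUp hU8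
    rw [S.M_zero, mul_zero, zero_add] at e2
    have e3 : 8 * C₁ * s 0 / ‖U z‖ ≤ κ / 2 := by
      rw [div_le_iff₀ (by linarith)]
      rw [le_div_iff₀ (by positivity)] at hδ3
      nlinarith
    linarith
  -- the primitive
  have hfd : DifferentiableOn ℂ f (Metric.ball 0 1) := by
    intro z hz
    have hz' : ‖z‖ < 1 := by simpa using hz
    exact (hdf z hz').differentiableAt.differentiableWithinAt
  have hE : DifferentiableOn ℂ (fun z => exp (f z)) (Metric.ball (0 : ℂ) 1) := hfd.cexp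
  obtain ⟨g₀, hg₀⟩ := hE.isExactOn_ball
  set g : ℂ → ℂ := fun z => g₀ z - g₀ 0 with hg
  have hgd : ∀ z ∈ Metric.ball (0 : ℂ) 1, HasDerivAt g (exp (f z)) z := fun z hz =>
    (hg₀ z hz).sub_const _
  have hsn1 : ∀ n, C₁ * s n ≤ 1 / 10000 := fun n => by
    have := S.s_le n
    nlinarith
  have hsμ : ∀ n, s n * (1000000 * C₁ ^ 5 * (N + 1)) ≤ μ := fun n => by
    have h := (S.s_le n).trans hδ8
    rwa [le_div_iff₀ (by positivity)] at h
  have hsplit : ∀ n v, (B C₁ b φ a s v + (f₁ (U v) - 2 * log (1 + v))) - f₁ 1 - K b n -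
      b n (v / (s n : ℂ)) + 2 * v = (B C₁ b φ a s v - K b n - b n (v / (s n : ℂ))) +
        ((f₁ (U v) - 2 * log (1 + v)) - f₁ 1 + 2 * v) := fun n v => by ring
  -- the value
  have hval := value_T hC₁ (by linarith : c ≤ 1) hδ1 S.toSeqV
    (fun v => B C₁ b φ a s v + (f₁ (U v) - 2 * log (1 + v)))
    (fun v => (-(1 / 2) * exp k₀) * g (U v)) (f₁ 1) ?_ ?_ ?_
  rotate_left
  · intro n v hv hy hvs
    have hsn := S.s_pos n
    have han := S.a_pos n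
    have hLn := S.L_nonneg hC0 n
    have e0 := hsn1 n
    have eμ := hsμ n
    have hv2 : ‖v‖ ≤ 1 / 2 := by linarith
    have e1 := S.region_fine hC₁ hδ1 hv hy
    have e2 := pert_le hN h1' hv hv2
    have ha : a n = μ * s n := S.a_eq n
    have hvsq : ‖v‖ ^ 2 ≤ (2 * C₁ * s n) ^ 2 := by gcongr
    set Q : ℝ := a n / (4000 * C₁ ^ 3) with hQ
    have hQ0 : 0 < Q := by positivity
    have hQs : Q ≤ s n := by
      rw [hQ, div_le_iff₀ (by positivity), ha]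
      have : 1 ≤ C₁ ^ 3 := one_le_pow₀ (by linarith)
      nlinarith
    have hQ4 : a n / (1000 * C₁ ^ 3) = 4 * Q := by
      rw [hQ]; field_simp; norm_num
    -- the three parts
    have p1 : L n * ‖v‖ ^ 2 ≤ Q := by
      have g1 : L n * ‖v‖ ^ 2 ≤ L n * (2 * C₁ * s n) ^ 2 := by gcongr
      have g2 : L n * (2 * C₁ * s n) ^ 2 = (8 * C₁ * s n * L n) * (C₁ * s n / 2) := by ring
      have g3 : (8 * C₁ * s n * L n) * (C₁ * s n / 2) ≤ θ * (C₁ * s n / 2) :=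
        mul_le_mul_of_nonneg_right (S.s_L n) (by positivity)
      have g4 : θ * (C₁ * s n / 2) ≤ Q := by
        rw [hQ, le_div_iff₀ (by positivity), ha]
        calc θ * (C₁ * s n / 2) * (4000 * C₁ ^ 3) = (θ * (2000 * C₁ ^ 4)) * s n := by ring
          _ ≤ μ * s n := by gcongr
      linarith
    have p2 : a n ^ 2 * s n / (100 * C₁) + 8 * C₁ * y a s n ≤ Q := by
      rw [hQ, le_div_iff₀ (by positivity), y]
      have h3 := C_mul_δ hC₁ hδ1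
      have h4 : C₁ ^ 4 * s n ≤ 1 / 10000 := by
        have : C₁ ^ 4 * s n ≤ C₁ ^ 4 * δ := by
          gcongr
          exact S.s_le n
        linarith
      have h5 := S.a_le_one hC₁ hδ1 n
      have h6 : a n ^ 2 ≤ 1 / 1000 := by
        calc a n ^ 2 ≤ a n ^ 1 := pow_le_pow_of_le_one han.le (by linarith) (by norm_num)
          _ = a n := pow_one _
          _ ≤ 1 / 1000 := h5
      have h7 : C₁ ^ 2 * s n ≤ 1 / 10000 := by
        have : C₁ ^ 2 ≤ C₁ ^ 4 := pow_le_pow_right₀ (by linarith) (by norm_num)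
        nlinarith
      calc (a n ^ 2 * s n / (100 * C₁) + 8 * C₁ * (s n * a n ^ 3)) * (4000 * C₁ ^ 3) =
            40 * (C₁ ^ 2 * s n) * a n * a n + 32000 * (C₁ ^ 4 * s n) * a n ^ 2 * a n := by
            field_simp
            ring
        _ ≤ 40 * (1 / 10000) * (1 / 1000) * a n + 32000 * (1 / 10000) * (1 / 1000) * a n := by
            gcongr
        _ ≤ a n := by linarith
    have p3 : (4 * N + 2) * ‖v‖ ^ 2 ≤ Q := by
      have g1 : (4 * N + 2) * ‖v‖ ^ 2 ≤ (4 * (N + 1)) * (2 * C₁ * s n) ^ 2 := by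
        apply mul_le_mul (by linarith) hvsq (by positivity) (by positivity)
      refine g1.trans ?_
      rw [hQ, le_div_iff₀ (by positivity), ha]
      calc 4 * (N + 1) * (2 * C₁ * s n) ^ 2 * (4000 * C₁ ^ 3) =
            64000 * C₁ ^ 5 * (N + 1) * s n * s n := by ring
        _ ≤ s n * (1000000 * C₁ ^ 5 * (N + 1)) * s n := by
            have : 0 ≤ C₁ ^ 5 * (N + 1) * s n * s n := by positivity
            linarith
        _ ≤ μ * s n := by gcongr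
    have p4 : 4 * (4 * C₁ * s n) ^ 2 ≤ Q := by
      rw [hQ, le_div_iff₀ (by positivity), ha]
      calc 4 * (4 * C₁ * s n) ^ 2 * (4000 * C₁ ^ 3) = 256000 * C₁ ^ 5 * s n * s n := by ring
        _ ≤ s n * (1000000 * C₁ ^ 5 * (N + 1)) * s n := by
            have g1 : 0 ≤ C₁ ^ 5 * N * s n * s n := by positivity
            have g2 : 0 ≤ C₁ ^ 5 * s n * s n := by positivity
            linarith
        _ ≤ μ * s n := by gcongr
    have hq : ‖(B C₁ b φ a s v + (f₁ (U v) - 2 * log (1 + v))) - f₁ 1 - K b n -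
        b n (v / (s n : ℂ)) + 2 * v‖ ≤ 3 * Q := by
      rw [hsplit n v]
      have := norm_add_le (B C₁ b φ a s v - K b n - b n (v / (s n : ℂ)))
        ((f₁ (U v) - 2 * log (1 + v)) - f₁ 1 + 2 * v)
      linarith
    have hc1 : 3 * Q ≤ 4 * C₁ * s n := by nlinarith
    have hc2 : 2 * ‖v‖ ≤ 4 * C₁ * s n := by linarith
    refine ⟨?_, ?_⟩
    · have := norm_near hq hc1 hc2
      linarith
    · have := exp_near hq hc1 hc2 (by linarith)
      rw [hQ4]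
      linarith
  · intro n v hv hy hvs
    have e1 := S.yM_le' hC₁ hδ1 n
    have e2 := S.C1_y_le hC₁ hδ1 (n + 1)
    have e3 := S.C1_y_le hC₁ hδ1 n
    have e4 := S.y_pos_s n
    have hv2 : ‖v‖ ≤ 1 / 2 := by nlinarith
    have e5 := S.region hC₁ hδ1 hv hy
    have e5' := pert_le hN h1' hv hv2
    have e6 := S.M_nonneg hC0.le (n + 1)
    have e7 : ‖v‖ * M (n + 1) ≤ y a s n * M (n + 1) := by gcongr
    have hvs' : ‖v‖ ≤ s n := by
      have := S.y_le_s hC₁ hδ1 n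
      have := S.s_pos n
      linarith
    have hsN : (4 * N + 4) * s n ≤ 1 / 1000 := by
      have g1 := hsμ n
      have g2 : (1 : ℝ) ≤ C₁ ^ 5 := one_le_pow₀ (by linarith)
      have g3 := S.s_pos n
      have g4 : 0 ≤ s n * (N + 1) := by positivity
      have g5 : s n * (N + 1) * 1 ≤ s n * (N + 1) * C₁ ^ 5 := by gcongr
      nlinarith
    have e8 : (4 * N + 2) * ‖v‖ ^ 2 + 2 * ‖v‖ ≤ 1 / 1000 := by
      have g0 := norm_nonneg v
      have g1 : ‖v‖ ^ 2 ≤ ‖v‖ := by nlinarith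
      have g2 : (4 * N + 2) * ‖v‖ ^ 2 ≤ (4 * N + 2) * ‖v‖ := by gcongr
      have g3 : (4 * N + 4) * ‖v‖ ≤ (4 * N + 4) * s n := by gcongr
      linarith
    have e9 : a (n + 1) ^ 2 * s (n + 1) / (100 * C₁) ≤ 1 / 1000 := by
      have g1 := S.p_pos (n + 1)
      have g2 := S.p_le hC₁ hδ1 (n + 1)
      have g3 := S.s_le_one hC₁ hδ1 (n + 1)
      have g4 : a (n + 1) ^ 2 * s (n + 1) / (100 * C₁) ≤ a (n + 1) ^ 2 * s (n + 1) :=
        div_le_self g1.le (by linarith)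
      linarith
    have hq := hsplit (n + 1) v
    have hq2 : (B C₁ b φ a s v + (f₁ (U v) - 2 * log (1 + v))) - f₁ 1 - K b (n + 1) -
      b (n + 1) (v / (s (n + 1) : ℂ)) = (B C₁ b φ a s v - K b (n + 1) -
        b (n + 1) (v / (s (n + 1) : ℂ))) +
        ((f₁ (U v) - 2 * log (1 + v)) - f₁ 1 + 2 * v) - 2 * v := by ring
    rw [hq2]
    have g1 := norm_sub_le ((B C₁ b φ a s v - K b (n + 1) - b (n + 1) (v / (s (n + 1) : ℂ))) +
        ((f₁ (U v) - 2 * log (1 + v)) - f₁ 1 + 2 * v)) (2 * v)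
    have g2 := norm_add_le (B C₁ b φ a s v - K b (n + 1) - b (n + 1) (v / (s (n + 1) : ℂ)))
        ((f₁ (U v) - 2 * log (1 + v)) - f₁ 1 + 2 * v)
    have g3 : ‖2 * v‖ = 2 * ‖v‖ := by rw [norm_mul]; simp
    rw [g3] at g1
    linarith
  · intro v hv hv1
    have hne := add_ne hv
    have h2 := ((hgd _ (by rw [mem_ball_zero_iff]; exact norm_U_lt hv)).comp v
      (hasDerivAt_U hne)).const_mul (-(1 / 2) * exp k₀)
    refine h2.congr_deriv ?_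
    have e1 : f (U v) = (B C₁ b φ a s v + f₁ (U v)) - k₀ := by
      simp only [hf]
      rw [U_U hne]
      ring
    have e2 : exp (2 * log (1 + v)) = (1 + v) ^ 2 := by
      rw [two_mul, exp_add, exp_log hne]
      ring
    have e3 : B C₁ b φ a s v + (f₁ (U v) - 2 * log (1 + v)) =
        (B C₁ b φ a s v + f₁ (U v)) - 2 * log (1 + v) := by
      ring
    rw [e1, e3, exp_sub, exp_sub, e2]
    have := exp_ne_zero k₀
    field_simp
  obtain ⟨w₀, hw₀⟩ := hval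
  have hcne : (-(1 / 2) * exp k₀ : ℂ) ≠ 0 := mul_ne_zero (by norm_num) (exp_ne_zero _)
  refine ⟨f, g, hfd, ?_, ?_, hgd, ?_, ?_, ?_, ?_⟩
  · simp only [hf]
    rw [h10, hU0, hk₀]
    ring
  · simp [hg]
  · refine ⟨max (1 + c) (r - κ / 2), max_lt (by linarith) (by linarith), ?_⟩
    intro z hz
    have hz' : ‖z‖ < 1 := by simpa using hz
    by_cases hcase : ‖1 - z‖ ≤ δ'
    · refine (hA z hz' hcase).trans (le_trans ?_ (le_max_left _ _))
      have e5 : 1 - ‖z‖ ≤ ‖1 - z‖ := by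
        have := norm_sub_norm_le (1 : ℂ) z
        rwa [norm_one] at this
      have e6 : 1 - ‖z‖ ≤ c / 4 := by linarith
      have e7 : (1 + 3 * c) * (1 - ‖z‖) ≤ (1 + 3 * c) * (c / 4) := by gcongr
      nlinarith
    · refine le_trans ?_ (le_max_right _ _)
      push Not at hcase
      have e1 := (h1 z hz'.le).2.2.1
      have e2 := hB z hz' hcase
      have e3 := htot z hz'
      linarith
  · intro z hz
    have hz2 : ‖z‖ < 1 := by simpa using hz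
    have hv : 0 < 1 - ‖z‖ := by linarith
    by_cases hcase : ‖1 - z‖ ≤ δ'
    · refine (hA z hz2 hcase).trans ?_
      have : (1 + 3 * c) * (1 - ‖z‖) ≤ C * (1 - ‖z‖) := by
        apply mul_le_mul_of_nonneg_right _ hv.le
        linarith
      linarith
    · push Not at hcase
      have e1 := (h1 z hz2.le).2.2.2
      have e2 := hB z hz2 hcase
      have e3 := htot z hz2
      linarith
  · intro z hz
    have hz' : ‖z‖ < 1 := by linarith
    have e1 : f z - f₁ z = B C₁ b φ a s (U z) - k₀ := by simp only [hf]; ring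
    rw [e1]
    have hbb : ∀ y : ℂ, ‖y‖ ≤ ρ₀ → ‖B C₁ b φ a s (U y)‖ ≤ e / 4 := by
      intro y hy
      have hy' : ‖y‖ < 1 := by linarith
      have hp := norm_add_pos hy'
      have hp2 := norm_add_le_two hy'
      have e2 : 1 - ρ₀ ≤ ‖1 - y‖ := by
        have := norm_sub_norm_le (1 : ℂ) y
        rw [norm_one] at this
        linarith
      have e3 : (1 - ρ₀) / 2 ≤ ‖U y‖ := by
        rw [norm_U, le_div_iff₀ hp]
        nlinarith
      have e4 : 8 * C₁ * s 0 ≤ ‖U y‖ := by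
        rw [le_div_iff₀ (by positivity)] at hδ6
        nlinarith
      refine (S.norm_B_far hC₁ hδ1 (U_re_pos hy') e4).trans ?_
      rw [div_le_iff₀ (by linarith)]
      rw [le_div_iff₀ (by positivity)] at hδ5
      nlinarith
    have e2 := hbb z hz
    have e3 : ‖k₀‖ ≤ e / 4 := by
      have := hbb 0 (by
        rw [norm_zero]
        exact (norm_nonneg z).trans hz)
      rwa [hU0] at this
    have e4 := norm_sub_le (B C₁ b φ a s (U z)) k₀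
    linarith
  · refine ⟨w₀ / (-(1 / 2) * exp k₀), infinite_of_close ?_ ?_⟩
    · rintro z ⟨hz, -⟩ rfl
      simp at hz
    · intro e' he'
      have hlim : Tendsto (fun n : ℕ => ((1 : ℝ) / 2) ^ n * (4 * C₁ * s 0)) atTop (𝓝 0) := by
        have := (tendsto_pow_atTop_nhds_zero_of_lt_one (r := (1 : ℝ) / 2) (by norm_num)
          (by norm_num)).mul_const (4 * C₁ * s 0)
        simpa using this
      obtain ⟨n, hn⟩ := (hlim.eventually (gt_mem_nhds he')).exists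
      obtain ⟨v, hv, hvn, hGv⟩ := hw₀ n
      have h3 := S.s_add hC₁ hδ1 0 n
      rw [add_zero] at h3
      have h4 := U_sub_one hv
      refine ⟨U v, ⟨?_, ?_⟩, ?_⟩
      · rw [mem_ball_zero_iff]
        exact norm_U_lt hv
      · rw [eq_div_iff hcne, mul_comm]
        exact hGv
      · rw [norm_sub_rev]
        have h5 : 4 * C₁ * s n ≤ 4 * C₁ * ((1 / 2) ^ n * s 0) := by gcongr
        nlinarith

end Pool.Agent.H50.IT
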