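import Mathlib
import Pool.Agent.H50.IT.Dense
import Pool.Agent.H50.IT.Approx
import Pool.Agent.H50.IT.FoldE
import Pool.Agent.H50.IT.Close
import Pool.Agent.H50.IT.Core

/-! # The sharp threshold -/

open Complex Set Filter Topology
open Pool.Agent.H51.Becker

namespace Pool.Agent.H50.IT

open Pool.Agent.H50.IS (y K T1 T2)
open Pool.Agent.H50.IV (L phi)

/-- The folds. -/
theorem exists_folds : ∀ η > 0, ∃ μ, 0 < μ ∧ μ ≤ 1 ∧ ∃ s₀ > 0, ∀ s, 0 < s → s ≤ s₀ →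
      ∃ (β φ g : ℂ → ℂ) (ζ : ℂ), Fold 200 η (μ * s) s β φ g ζ := by
  intro η hη
  obtain ⟨K₀, hK₀, s₁, hs₁, hE⟩ := eT_est
  obtain ⟨μ, hμ, hμ1, hμη⟩ : ∃ μ : ℝ, 0 < μ ∧ μ ≤ 1 ∧ μ ≤ η / 4 :=
    ⟨min 1 (η / 4), lt_min one_pos (by linarith), min_le_left _ _, min_le_right _ _⟩
  obtain ⟨s₂, hs₂, hcore⟩ := core_sharp η μ K₀ hη hμ hμ1 hμη hK₀
  obtain ⟨s₀, hs₀, h1, h2, h3, h4⟩ : ∃ s₀ : ℝ, 0 < s₀ ∧ s₀ ≤ s₁ ∧ s₀ ≤ s₂ ∧ s₀ ≤ 1 / 400 ∧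
      s₀ * K₀ ≤ 1 := by
    refine ⟨min (min s₁ s₂) (min (1 / 400) (1 / K₀)),
      lt_min (lt_min hs₁ hs₂) (lt_min (by norm_num) (by positivity)), ?_, ?_, ?_, ?_⟩
    · exact (min_le_left _ _).trans (min_le_left _ _)
    · exact (min_le_left _ _).trans (min_le_right _ _)
    · exact (min_le_right _ _).trans (min_le_left _ _)
    · rw [← le_div_iff₀ hK₀]
      exact (min_le_right _ _).trans (min_le_right _ _)
  refine ⟨μ, hμ, hμ1, s₀, hs₀, fun s hs hss => ?_⟩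
  have ha : 0 < μ * s := by positivity
  have has : μ * s ≤ s := by nlinarith
  have ha' : μ * s ≤ 1 / 50 := by linarith
  obtain ⟨hJ, he⟩ := hE (μ * s) s ha has (hss.trans h1)
  have hen : ‖eT (μ * s) s‖ ≤ 1 / 50 := by
    have e1 : eT (μ * s) s = (eT (μ * s) s - ((2 * s + 2 * (μ * s) / Real.pi : ℝ) : ℂ)) +
        ((2 * s + 2 * (μ * s) / Real.pi : ℝ) : ℂ) := by ring
    have e2 : ‖((2 * s + 2 * (μ * s) / Real.pi : ℝ) : ℂ)‖ ≤ 4 * s := by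
      rw [norm_real, Real.norm_eq_abs, abs_of_pos (by positivity)]
      have : 2 * (μ * s) / Real.pi ≤ 2 * (μ * s) := by
        apply div_le_self (by positivity)
        have := Real.pi_gt_three
        linarith
      linarith
    have e3 := norm_add_le (eT (μ * s) s - ((2 * s + 2 * (μ * s) / Real.pi : ℝ) : ℂ))
      ((2 * s + 2 * (μ * s) / Real.pi : ℝ) : ℂ)
    rw [← e1] at e3
    have e4 : K₀ * s ^ 2 ≤ s := by
      have : s * K₀ ≤ 1 := by nlinarith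
      nlinarith
    linarith
  have hF := foldE ha ha' hen
  have hn := hcore s hs (hss.trans h2) (eT (μ * s) s) he
  refine ⟨_, _, fun z => FF (μ * s) s (inv (z + Lam (T2 (μ * s)))) -
    eT (μ * s) s * JJ (μ * s) s (inv (z + Lam (T2 (μ * s)))), _,
    { dβ := hF.dβ
      dg := fun z hz => hasDerivAt_prim ha ha' hen hz
      norm := hn
      φ_le := hF.φ_le
      φ_far := hF.φ_far
      β_far := hF.β_far
      exp_le := hF.exp_le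
      exp_re := hF.exp_re
      ζ_re := hF.ζ_re
      ζ_norm := hF.ζ_norm
      exp_ζ := hF.exp_ζ
      hg := ?_
      path := hF.path
      lip := hF.lip }⟩
  simp only [sub_add_cancel, zero_add]
  rw [inv_Lam (Pool.Agent.H50.IS.T1_strip ha ha'), inv_Lam (Pool.Agent.H50.IS.T2_strip ha ha')]
  have : eT (μ * s) s * (JJ (μ * s) s (T1 (μ * s)) - JJ (μ * s) s (T2 (μ * s))) =
      FF (μ * s) s (T1 (μ * s)) - FF (μ * s) s (T2 (μ * s)) := by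
    rw [eT, div_mul_cancel₀ _ hJ]
  linear_combination -this

/-- For every `C > 1` the functions of infinite valence are dense in the class
`(1 - |z|²) |f'| ≤ min (r, 1 + C (1 - |z|))`. -/
theorem dense_threshold : ∀ C : ℝ, 1 < C → ∀ r : ℝ, 1 < r → ∀ f₀ : ℂ → ℂ,
    DifferentiableOn ℂ f₀ (Metric.ball 0 1) → f₀ 0 = 0 →
    (∀ z ∈ Metric.ball (0 : ℂ) 1, (1 - ‖z‖ ^ 2) * ‖deriv f₀ z‖ ≤ r) →
    (∀ z ∈ Metric.ball (0 : ℂ) 1, (1 - ‖z‖ ^ 2) * ‖deriv f₀ z‖ ≤ 1 + C * (1 - ‖z‖)) →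
    ∀ ρ₀ : ℝ, ρ₀ < 1 → ∀ e : ℝ, 0 < e →
    ∃ f g : ℂ → ℂ, DifferentiableOn ℂ f (Metric.ball 0 1) ∧
    f 0 = 0 ∧ g 0 = 0 ∧ (∀ z ∈ Metric.ball (0 : ℂ) 1, HasDerivAt g (exp (f z)) z) ∧
    (∃ r' < r, ∀ z ∈ Metric.ball (0 : ℂ) 1, (1 - ‖z‖ ^ 2) * ‖deriv f z‖ ≤ r') ∧
    (∀ z ∈ Metric.ball (0 : ℂ) 1, (1 - ‖z‖ ^ 2) * ‖deriv f z‖ ≤ 1 + C * (1 - ‖z‖)) ∧
    (∀ z : ℂ, ‖z‖ ≤ ρ₀ → ‖f z - f₀ z‖ < e) ∧
    ∃ w : ℂ, {z ∈ Metric.ball (0 : ℂ) 1 | g z = w}.Infinite := by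
  intro C hC r hr f₀ hf₀ h00 hn hX ρ₀ hρ₀ e he
  obtain ⟨f₁, κ, N, hκ, hN, h10, h1, hclose⟩ :=
    approx_T (by linarith : (0 : ℝ) ≤ C) (by linarith : (0 : ℝ) < r) hf₀ h00 hn hX hρ₀ (half_pos he)
  obtain ⟨f, g, a1, a2, a3, a4, a5, a6, a7, a8⟩ :=
    dense_aux (by norm_num : (100 : ℝ) ≤ 200) exists_folds hC hr hκ hN h10 h1 hρ₀ (half_pos he)
  refine ⟨f, g, a1, a2, a3, a4, a5, a6, fun z hz => ?_, a8⟩
  have e1 := a7 z hz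
  have e2 := hclose z hz
  have e3 : f z - f₀ z = (f z - f₁ z) + (f₁ z - f₀ z) := by ring
  rw [e3]
  have := norm_add_le (f z - f₁ z) (f₁ z - f₀ z)
  linarith

end Pool.Agent.H50.IT
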