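import Pool.Agent.H50.IT.Defs

/-! # Frames (not imported) -/

open Complex Set Filter Topology
open Pool.Agent.H51.Becker

namespace Pool.Agent.H50.IT

open Pool.Agent.H50.IS (y K T1 T2)
open Pool.Agent.H50.IV (L phi)

/-- C1 (FoldE.lean): the easy fields for any small `e` -/
theorem foldE {a : ℝ} {e : ℂ} (ha : 0 < a) (ha' : a ≤ 1 / 50) (he : ‖e‖ ≤ 1 / 50) :
    FoldE 200 a (fun z => L e (inv (z + Lam (T2 a)))) (fun z => phi e (z + Lam (T2 a)))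
      (Lam (T1 a) - Lam (T2 a)) := sorry

/-- C2 (Close.lean): the parameter `eT` -/
theorem eT_est : ∃ K₀ : ℝ, 0 < K₀ ∧ ∃ s₀ > 0, ∀ a s : ℝ, 0 < a → a ≤ s → s ≤ s₀ →
    JJ a s (T1 a) - JJ a s (T2 a) ≠ 0 ∧
    ‖eT a s - ((2 * s + 2 * a / Real.pi : ℝ) : ℂ)‖ ≤ K₀ * s ^ 2 := sorry

/-- C2 (Close.lean): the primitive -/
theorem hasDerivAt_prim {a s : ℝ} {e z : ℂ} (ha : 0 < a) (ha' : a ≤ 1 / 50) (he : ‖e‖ ≤ 1 / 50)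
    (hz : 0 ≤ z.re) :
    HasDerivAt (fun z => FF a s (inv (z + Lam (T2 a))) - e * JJ a s (inv (z + Lam (T2 a))))
      (exp (L e (inv (z + Lam (T2 a)))) * (1 - 2 * (s : ℂ) * z)) z := sorry

/-- A (Core.lean): the sharp norm -/
theorem core_sharp (η μ K₀ : ℝ) (hη : 0 < η) (hμ : 0 < μ) (hμ1 : μ ≤ 1) (hμη : μ ≤ η / 4)
    (hK₀ : 0 < K₀) : ∃ s₀ > 0, ∀ s : ℝ, 0 < s → s ≤ s₀ → ∀ e : ℂ,
    ‖e - ((2 * s + 2 * (μ * s) / Real.pi : ℝ) : ℂ)‖ ≤ K₀ * s ^ 2 →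
    ∀ z : ℂ, 0 ≤ z.re →
      2 * z.re * ‖phi e (z + Lam (T2 (μ * s)))‖ ≤ 1 + (2 + η) * s * z.re := sorry

/-- V (Value.lean) -/
theorem value_T {C₁ η : ℝ} (hC₁ : 100 ≤ C₁) {δ : ℝ} (hδ : δ ≤ 1 / (10000 * C₁ ^ 4))
    {b φ g : ℕ → ℂ → ℂ} {ζ : ℕ → ℂ} {a s : ℕ → ℝ} (S : SeqV C₁ η δ b φ g ζ a s)
    (Bt G : ℂ → ℂ) (k : ℂ)
    (hclose : ∀ n z, 0 < z.re → y a s n / 2 ≤ ‖z‖ → ‖z‖ ≤ 2 * C₁ * s n →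
      ‖Bt z - k - K b n - b n (z / (s n : ℂ))‖ ≤ 1 / 1000 ∧
      ‖exp (Bt z - k - K b n - b n (z / (s n : ℂ))) - (1 - 2 * z)‖ ≤ a n / (1000 * C₁ ^ 3))
    (hreg : ∀ n z, 0 < z.re → y a s (n + 1) / 2 ≤ ‖z‖ → ‖z‖ ≤ y a s n →
      ‖Bt z - k - K b (n + 1) - b (n + 1) (z / (s (n + 1) : ℂ))‖ ≤ 1)
    (hG : ∀ z : ℂ, 0 < z.re → ‖z‖ < 1 → HasDerivAt G (exp (Bt z)) z) :
    ∃ w : ℂ, ∀ n, ∃ z : ℂ, 0 < z.re ∧ ‖z‖ ≤ 2 * C₁ * s n ∧ G z = w := sorry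

end Pool.Agent.H50.IT
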